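import Pool.Agent.N305.FA.Stm

set_option autoImplicit false

/-!
# ARENSA: Arens product lemma, nested case
-/

namespace N305.FA

open MeasureTheory Filter Topology H434R3.Arens ComplexConjugate

universe u v w

namespace ArensA

/-- a nonprincipal ultrafilter -/
noncomputable def UU : Ultrafilter ℕ := hyperfilter ℕ

theorem UU_le : (UU : Filter ℕ) ≤ atTop := by
  rw [← Nat.cofinite_eq_atTop]
  exact hyperfilter_le_cofinite

theorem exists_lim (f : ℕ → ℂ) (C : ℝ) (h : ∀ i, ‖f i‖ ≤ C) :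
    ∃ l : ℂ, ‖l‖ ≤ C ∧ Tendsto f UU (𝓝 l) := by
  have h1 : (UU.map f : Filter ℂ) ≤ 𝓟 (Metric.closedBall 0 C) := by
    rw [Filter.le_principal_iff]
    refine Filter.mem_map.2 (Filter.Eventually.of_forall fun i => ?_)
    simpa using h i
  obtain ⟨l, hl, hl'⟩ := (isCompact_closedBall (0:ℂ) C).ultrafilter_le_nhds (UU.map f) h1
  exact ⟨l, by simpa using hl, hl'⟩

variable {A : Type v} [NonUnitalNormedRing A] [NormedSpace ℂ A]

theorem bd_seq {w z : ℕ → A} (hw : ∀ i, ‖w i‖ ≤ 1) (hz : ∀ i, ‖z i‖ ≤ 1) (f : A →L[ℂ] ℂ) (i : ℕ) :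
    ‖f (w i) - f (z i)‖ ≤ 2 * ‖f‖ := by
  have h1 : ‖f (w i)‖ ≤ ‖f‖ := (f.le_opNorm _).trans (mul_le_of_le_one_right (norm_nonneg _) (hw i))
  have h2 : ‖f (z i)‖ ≤ ‖f‖ := (f.le_opNorm _).trans (mul_le_of_le_one_right (norm_nonneg _) (hz i))
  calc ‖f (w i) - f (z i)‖ ≤ ‖f (w i)‖ + ‖f (z i)‖ := norm_sub_le _ _
    _ ≤ 2 * ‖f‖ := by linarith

/-- the limit -/
noncomputable def L {w z : ℕ → A} (hw : ∀ i, ‖w i‖ ≤ 1) (hz : ∀ i, ‖z i‖ ≤ 1)
    (f : A →L[ℂ] ℂ) : ℂ :=
  (exists_lim (fun i => f (w i) - f (z i)) (2 * ‖f‖) (bd_seq hw hz f)).choose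

theorem L_spec {w z : ℕ → A} (hw : ∀ i, ‖w i‖ ≤ 1) (hz : ∀ i, ‖z i‖ ≤ 1)
    (f : A →L[ℂ] ℂ) : ‖L hw hz f‖ ≤ 2 * ‖f‖ ∧
      Tendsto (fun i => f (w i) - f (z i)) UU (𝓝 (L hw hz f)) :=
  (exists_lim (fun i => f (w i) - f (z i)) (2 * ‖f‖) (bd_seq hw hz f)).choose_spec

/-- the element of the bidual -/
noncomputable def PHI {w z : ℕ → A} (hw : ∀ i, ‖w i‖ ≤ 1) (hz : ∀ i, ‖z i‖ ≤ 1) : Bidual A :=
  LinearMap.mkContinuous
    { toFun := L hw hz
      map_add' := by
        intro f g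
        refine tendsto_nhds_unique (L_spec hw hz (f + g)).2 ?_
        have h := (L_spec hw hz f).2.add (L_spec hw hz g).2
        refine h.congr fun i => ?_
        rw [add_apply, add_apply]
        ring
      map_smul' := by
        intro c f
        refine tendsto_nhds_unique (L_spec hw hz (c • f)).2 ?_
        have h := (L_spec hw hz f).2.const_mul c
        refine h.congr fun i => ?_
        rw [smul_apply, smul_apply, smul_eq_mul, smul_eq_mul]
        ring } 2 (fun f => (L_spec hw hz f).1)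

theorem ev_PHI {w z : ℕ → A} (hw : ∀ i, ‖w i‖ ≤ 1) (hz : ∀ i, ‖z i‖ ≤ 1) (f : A →L[ℂ] ℂ) :
    Tendsto (fun i => f (w i) - f (z i)) UU (𝓝 (ev (PHI hw hz) f)) := (L_spec hw hz f).2

end ArensA

open ArensA

theorem arensA : ARENSA_stm.{v} := by
  intro A _ _ _ _ hcomm w z F hw hz hFw hFz hww hwz hzw hzz
  refine ⟨PHI hw hz, ?_, ?_⟩
  · intro h0
    have h1 := ev_PHI hw hz F
    rw [h0, ev_zero] at h1
    have h2 : Tendsto (fun i => (F (w i) - F (z i)).re) UU (𝓝 (0:ℂ).re) :=
      (Complex.continuous_re.tendsto _).comp h1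
    have h3 : (1 / 2 : ℝ) ≤ (0:ℂ).re := by
      refine ge_of_tendsto h2 (Filter.Eventually.of_forall fun i => ?_)
      rw [Complex.sub_re]
      have := hFw i
      have := hFz i
      linarith
    rw [Complex.zero_re] at h3
    norm_num at h3
  · intro Ψ
    -- the key point
    have hkey : ∀ (f : A →L[ℂ] ℂ) (x : A),
        Tendsto (fun i => x * w i - w i) atTop (𝓝 0) → Tendsto (fun i => x * z i - z i) atTop (𝓝 0) →
        hmod (psi (PHI hw hz) f) x = psi (PHI hw hz) f := by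
      intro f x hx1 hx2
      ext c
      rw [hmod_apply, psi_apply', psi_apply']
      have h1 := ev_PHI hw hz (hmod f (x * c))
      have h2 := ev_PHI hw hz (hmod f c)
      refine tendsto_nhds_unique h1 ?_
      have h3 : Tendsto (fun i => f (c * (x * w i - w i)) - f (c * (x * z i - z i))) UU (𝓝 0) := by
        have h4 : Tendsto (fun i => f (c * (x * w i - w i))) atTop (𝓝 (f (c * 0))) :=
          (f.continuous.tendsto _).comp (hx1.const_mul c)
        have h5 : Tendsto (fun i => f (c * (x * z i - z i))) atTop (𝓝 (f (c * 0))) :=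
          (f.continuous.tendsto _).comp (hx2.const_mul c)
        have h6 := (h4.sub h5).mono_left UU_le
        rwa [sub_self] at h6
      have h7 := h2.add h3
      rw [add_zero] at h7
      refine h7.congr fun i => ?_
      simp only [hmod_apply]
      have e1 : f (x * c * w i) = f (c * w i) + f (c * (x * w i - w i)) := by
        rw [← map_add, mul_sub, add_sub_cancel, ← mul_assoc, hcomm x c]
      have e2 : f (x * c * z i) = f (c * z i) + f (c * (x * z i - z i)) := by
        rw [← map_add, mul_sub, add_sub_cancel, ← mul_assoc, hcomm x c]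
      rw [e1, e2]
      ring
    refine ext_ev fun f => ?_
    rw [mul_def, mul_def, ev_box, ev_box, ev_zero]
    have h1 := ev_PHI hw hz (psi Ψ (psi (PHI hw hz) f))
    refine tendsto_nhds_unique h1 ?_
    refine tendsto_const_nhds.congr fun i => ?_
    rw [psi_apply', psi_apply', hkey f (w i) (hww i) (hwz i), hkey f (z i) (hzw i) (hzz i), sub_self]

end N305.FA
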