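import Pool.Agent.N305.FA.Stm

/-! Project FA, part ARENSB: an element of the second dual which generates a nilpotent ideal, from
a bounded sequence annihilated by the algebra. -/

set_option autoImplicit false

namespace N305.FA

open Filter Topology H434R3.Arens

universe v

namespace ArensB

variable {A : Type v} [NonUnitalNormedRing A] [NormedSpace ℂ A]

/-- a bounded sequence has a limit in the second dual -/
lemma exists_lim (b : ℕ → A) (c : ℝ) (hc : ∀ i, ‖b i‖ ≤ c) :
    ∃ Φ : Bidual A, ∀ f : A →L[ℂ] ℂ,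
      Tendsto (fun i => f (b i)) (hyperfilter ℕ : Filter ℕ) (𝓝 (ev Φ f)) := by
  have h1 : ∀ f : A →L[ℂ] ℂ, ∃ l : ℂ,
      Tendsto (fun i => f (b i)) (hyperfilter ℕ : Filter ℕ) (𝓝 l) ∧ ‖l‖ ≤ c * ‖f‖ := by
    intro f
    have h2 : ∀ i, f (b i) ∈ Metric.closedBall (0 : ℂ) (c * ‖f‖) := by
      intro i
      rw [mem_closedBall_zero_iff]
      calc ‖f (b i)‖ ≤ ‖f‖ * ‖b i‖ := f.le_opNorm _
        _ ≤ ‖f‖ * c := mul_le_mul_of_nonneg_left (hc i) (norm_nonneg _)
        _ = c * ‖f‖ := mul_comm _ _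
    obtain ⟨l, hl, hl'⟩ := (isCompact_closedBall (0 : ℂ) (c * ‖f‖)).ultrafilter_le_nhds
      ((hyperfilter ℕ).map (fun i => f (b i))) (by
        rw [Ultrafilter.coe_map, le_principal_iff]
        exact Filter.mem_map.2 (Filter.univ_mem' h2))
    exact ⟨l, hl', mem_closedBall_zero_iff.1 hl⟩
  choose l hl hl' using h1
  refine ⟨(LinearMap.mkContinuous
    { toFun := l
      map_add' := fun f g => tendsto_nhds_unique (hl (f + g)) ((hl f).add (hl g))
      map_smul' := fun r f => tendsto_nhds_unique (hl (r • f)) ((hl f).const_smul r) } c hl' :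
        (A →L[ℂ] ℂ) →L[ℂ] ℂ), fun f => hl f⟩

end ArensB

theorem arensB : ARENSB_stm.{v} := by
  intro A _ _ _ _ b F c hb hF hann
  obtain ⟨Φ, hΦ⟩ := ArensB.exists_lim b c hb
  have h0 : ∀ f : A →L[ℂ] ℂ, psi Φ f = 0 := by
    intro f
    ext a
    rw [psi_apply', zero_apply]
    have h1 : Tendsto (fun i => hmod f a (b i)) (hyperfilter ℕ : Filter ℕ) (𝓝 0) := by
      have h2 : Tendsto (fun i => f (a * b i)) atTop (𝓝 (f 0)) :=
        (f.continuous.tendsto 0).comp (hann a)
      rw [map_zero] at h2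
      rw [← Nat.cofinite_eq_atTop] at h2
      exact h2.mono_left hyperfilter_le_cofinite
    exact tendsto_nhds_unique (hΦ (hmod f a)) h1
  refine ⟨Φ, ?_, fun Ψ => ?_⟩
  · rintro rfl
    have h1 := hΦ F
    rw [ev_zero] at h1
    have h2 := (Complex.continuous_re.tendsto 0).comp h1
    have h3 : (1 / 2 : ℝ) ≤ (0 : ℂ).re := ge_of_tendsto h2 (Eventually.of_forall hF)
    rw [Complex.zero_re] at h3
    linarith
  · apply ext_ev
    intro f
    rw [mul_def, ev_box, h0, ev_map_zero, ev_zero]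

end N305.FA
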