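import Pool.Agent.N305.FA.Stm

set_option autoImplicit false
set_option linter.unusedSectionVars false

/-!
# Project FA, piece BSUB: the hereditary C*-algebra of a sequence of vectors
-/

namespace N305.FA

open Filter Topology

universe u v w

section

variable {H : Type w} [NormedAddCommGroup H] [InnerProductSpace ℂ H] [CompleteSpace H]

lemma tnd_closed (v : ℕ → H) (hv : ∀ m, ‖v m‖ ≤ 1) :
    IsClosed {b : H →L[ℂ] H | Tendsto (fun m => b (v m)) atTop (𝓝 0)} := by
  refine isClosed_of_closure_subset fun b hb => ?_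
  rw [Metric.mem_closure_iff] at hb
  change Tendsto (fun m => b (v m)) atTop (𝓝 0)
  rw [Metric.tendsto_atTop]
  intro ε hε
  obtain ⟨c, hc, hbc⟩ := hb (ε / 2) (by positivity)
  have hc' : Tendsto (fun m => c (v m)) atTop (𝓝 0) := hc
  obtain ⟨m0, h0⟩ := Metric.tendsto_atTop.1 hc' (ε / 2) (by positivity)
  refine ⟨m0, fun m hm => ?_⟩
  have h1 := h0 m hm
  rw [dist_zero_right] at h1 ⊢
  rw [dist_eq_norm] at hbc
  have h2 : b (v m) = (b - c) (v m) + c (v m) := by simp
  have h3 := (b - c).le_opNorm (v m)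
  have h4 : ‖b - c‖ * ‖v m‖ ≤ ‖b - c‖ * 1 := mul_le_mul_of_nonneg_left (hv m) (norm_nonneg _)
  rw [h2]
  refine (norm_add_le _ _).trans_lt ?_
  linarith

/-- BSUB -/
theorem bsub (h : VNALG_stm.{u, w}) : BSUB_stm.{u, w} := by
  intro G _ H _ _ _ L v hv
  obtain ⟨h1, h2, h3, h4⟩ := h G H L
  let B : NonUnitalStarSubalgebra ℂ (H →L[ℂ] H) :=
    { carrier := {b | b ∈ VN L ∧ Tendsto (fun m => b (v m)) atTop (𝓝 0) ∧
        Tendsto (fun m => (star b) (v m)) atTop (𝓝 0)}
      add_mem' := by
        rintro a b ⟨a1, a2, a3⟩ ⟨b1, b2, b3⟩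
        refine ⟨(VN L).add_mem a1 b1, ?_, ?_⟩
        · simpa using a2.add b2
        · rw [star_add]
          simpa using a3.add b3
      zero_mem' := by
        refine ⟨(VN L).zero_mem, ?_, ?_⟩
        · simp
        · simp
      mul_mem' := by
        rintro a b ⟨a1, a2, a3⟩ ⟨b1, b2, b3⟩
        refine ⟨h2 a b a1 b1, ?_, ?_⟩
        · have := (a.continuous.tendsto 0).comp b2
          rw [map_zero] at this
          exact this
        · rw [star_mul]
          have := ((star b).continuous.tendsto 0).comp a3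
          rw [map_zero] at this
          exact this
      smul_mem' := by
        rintro c a ⟨a1, a2, a3⟩
        refine ⟨(VN L).smul_mem c a1, ?_, ?_⟩
        · have := a2.const_smul c
          rw [smul_zero] at this
          exact this
        · rw [star_smul]
          have := a3.const_smul (star c)
          rw [smul_zero] at this
          exact this
      star_mem' := by
        rintro a ⟨a1, a2, a3⟩
        exact ⟨h3 a a1, a3, by rw [star_star]; exact a2⟩ }
  refine ⟨B, ?_, fun b => Iff.rfl⟩
  have e : (B : Set (H →L[ℂ] H)) = (VN L : Set (H →L[ℂ] H)) ∩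
      ({b : H →L[ℂ] H | Tendsto (fun m => b (v m)) atTop (𝓝 0)} ∩
        star ⁻¹' {b : H →L[ℂ] H | Tendsto (fun m => b (v m)) atTop (𝓝 0)}) := by
    ext b
    exact Iff.rfl
  rw [e]
  exact h4.inter ((tnd_closed v hv).inter ((tnd_closed v hv).preimage continuous_star))

end

end N305.FA
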