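import Pool.Agent.N305.FA.Stm

set_option autoImplicit false
set_option linter.unusedSectionVars false

/-!
# DPROD: `a * b i → 0` in norm, discrete case
-/

namespace N305.FA

open MeasureTheory Filter Topology H434R3.Arens ComplexConjugate

universe u v w

section DPROD

variable {G : Type u} [Group G] {A : Type v} [NonUnitalNormedRing A] [NormedSpace ℂ A]

lemma cf_add_left (C : CoefAlg (dRep G) A) (ξ ξ' η : HD G) :
    C.cf (ξ + ξ') η = C.cf ξ η + C.cf ξ' η := by
  apply C.val_inj; funext s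
  rw [C.val_add, C.val_cf, C.val_cf, C.val_cf, map_add, inner_add_right]

lemma cf_add_right (C : CoefAlg (dRep G) A) (ξ η η' : HD G) :
    C.cf ξ (η + η') = C.cf ξ η + C.cf ξ η' := by
  apply C.val_inj; funext s
  rw [C.val_add, C.val_cf, C.val_cf, C.val_cf, inner_add_left]

lemma cf_smul_left (C : CoefAlg (dRep G) A) (k : ℂ) (ξ η : HD G) :
    C.cf (k • ξ) η = k • C.cf ξ η := by
  apply C.val_inj; funext s
  rw [C.val_smul, C.val_cf, C.val_cf, map_smul, inner_smul_right]

lemma cf_smul_right (C : CoefAlg (dRep G) A) (k : ℂ) (ξ η : HD G) :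
    C.cf ξ (k • η) = (starRingEnd ℂ k) • C.cf ξ η := by
  apply C.val_inj; funext s
  rw [C.val_smul, C.val_cf, C.val_cf, inner_smul_left]

lemma smul_mulA (C : CoefAlg (dRep G) A) (k : ℂ) (a b : A) :
    (k • a) * b = k • (a * b) := by
  apply C.val_inj; funext s
  rw [C.val_mul, C.val_smul, C.val_smul, C.val_mul, mul_assoc]

/-- a closed submodule of `ℓ²` which contains the unit vectors is everything -/
lemma hd_top [DecidableEq G] (S : Submodule ℂ (HD G)) (hS : IsClosed (S : Set (HD G)))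
    (h : ∀ x : G, (lp.single 2 x (1 : ℂ) : HD G) ∈ S) (ξ : HD G) : ξ ∈ S := by
  have h1 := lp.hasSum_single (p := 2) (by norm_num) ξ
  refine hS.mem_of_tendsto h1 (Eventually.of_forall fun F => ?_)
  refine S.sum_mem fun x _ => ?_
  have h2 : (lp.single 2 x ((ξ : G → ℂ) x) : HD G) =
      (ξ : G → ℂ) x • (lp.single 2 x (1 : ℂ) : HD G) := by
    rw [← lp.single_smul]; simp
  rw [h2]
  exact S.smul_mem _ (h x)

lemma tendsto_of_approx {f : ℕ → A} (h : ∀ ε : ℝ, 0 < ε → ∃ g : ℕ → A, Tendsto g atTop (𝓝 0) ∧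
    ∀ i, ‖f i - g i‖ ≤ ε) : Tendsto f atTop (𝓝 0) := by
  rw [Metric.tendsto_atTop]
  intro ε hε
  obtain ⟨g, hg, hfg⟩ := h (ε / 2) (by positivity)
  rw [Metric.tendsto_atTop] at hg
  obtain ⟨N, hN⟩ := hg (ε / 2) (by positivity)
  refine ⟨N, fun n hn => ?_⟩
  have h1 := hN n hn
  rw [dist_zero_right] at h1 ⊢
  calc ‖f n‖ = ‖(f n - g n) + g n‖ := by congr 1; abel
    _ ≤ ‖f n - g n‖ + ‖g n‖ := norm_add_le _ _
    _ < ε := by linarith [hfg n]

/-- the good `ξ` for fixed `η` -/
def goodL (C : CoefAlg (dRep G) A) (b : ℕ → A) (η : HD G) : Submodule ℂ (HD G) where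
  carrier := {ξ | Tendsto (fun i => C.cf ξ η * b i) atTop (𝓝 0)}
  add_mem' := by
    intro x y hx hy
    simp only [Set.mem_ofPred_eq] at hx hy ⊢
    have := hx.add hy
    rw [add_zero] at this
    refine this.congr fun i => ?_
    rw [cf_add_left, add_mul]
  zero_mem' := by
    simp only [Set.mem_ofPred_eq]
    have h : C.cf 0 η = 0 := by
      have := cf_smul_left C 0 0 η
      simpa using this
    simp [h]
  smul_mem' := by
    intro k x hx
    simp only [Set.mem_ofPred_eq] at hx ⊢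
    have := hx.const_smul k
    rw [smul_zero] at this
    refine this.congr fun i => ?_
    rw [cf_smul_left, smul_mulA C]

/-- the good `η` for fixed `ξ` -/
def goodR (C : CoefAlg (dRep G) A) (b : ℕ → A) (ξ : HD G) : Submodule ℂ (HD G) where
  carrier := {η | Tendsto (fun i => C.cf ξ η * b i) atTop (𝓝 0)}
  add_mem' := by
    intro x y hx hy
    simp only [Set.mem_ofPred_eq] at hx hy ⊢
    have := hx.add hy
    rw [add_zero] at this
    refine this.congr fun i => ?_
    rw [cf_add_right, add_mul]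
  zero_mem' := by
    simp only [Set.mem_ofPred_eq]
    have h : C.cf ξ 0 = 0 := by
      have := cf_smul_right C 0 ξ 0
      simpa using this
    simp [h]
  smul_mem' := by
    intro k x hx
    simp only [Set.mem_ofPred_eq] at hx ⊢
    have := hx.const_smul (starRingEnd ℂ k)
    rw [smul_zero] at this
    refine this.congr fun i => ?_
    rw [cf_smul_right, smul_mulA C]

lemma goodL_closed (C : CoefAlg (dRep G) A) (b : ℕ → A) (c : ℝ) (hb : ∀ i, ‖b i‖ ≤ c) (η : HD G) :
    IsClosed (goodL C b η : Set (HD G)) := by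
  have hc : 0 ≤ c := (norm_nonneg _).trans (hb 0)
  apply isClosed_of_closure_subset
  intro ξ hξ
  change Tendsto (fun i => C.cf ξ η * b i) atTop (𝓝 0)
  apply tendsto_of_approx
  intro ε hε
  have hd : 0 < ‖η‖ * c + 1 := by positivity
  obtain ⟨ξ', hξ', hdist⟩ := Metric.mem_closure_iff.1 hξ (ε / (‖η‖ * c + 1)) (by positivity)
  refine ⟨fun i => C.cf ξ' η * b i, hξ', fun i => ?_⟩
  have h1 : C.cf ξ η * b i - C.cf ξ' η * b i = C.cf (ξ - ξ') η * b i := by
    have : C.cf ξ η = C.cf (ξ - ξ') η + C.cf ξ' η := by rw [← cf_add_left]; congr 1; abel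
    rw [this, add_mul]; abel
  rw [h1]
  rw [dist_eq_norm] at hdist
  calc ‖C.cf (ξ - ξ') η * b i‖ ≤ ‖C.cf (ξ - ξ') η‖ * ‖b i‖ := norm_mul_le _ _
    _ ≤ (‖ξ - ξ'‖ * ‖η‖) * c := by
        apply mul_le_mul (C.norm_cf _ _) (hb i) (norm_nonneg _) (by positivity)
    _ = ‖ξ - ξ'‖ * (‖η‖ * c) := by ring
    _ ≤ (ε / (‖η‖ * c + 1)) * (‖η‖ * c + 1) := by
        apply mul_le_mul hdist.le (by linarith) (by positivity) (by positivity)
    _ = ε := by field_simp

lemma goodR_closed (C : CoefAlg (dRep G) A) (b : ℕ → A) (c : ℝ) (hb : ∀ i, ‖b i‖ ≤ c) (ξ : HD G) :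
    IsClosed (goodR C b ξ : Set (HD G)) := by
  have hc : 0 ≤ c := (norm_nonneg _).trans (hb 0)
  apply isClosed_of_closure_subset
  intro η hη
  change Tendsto (fun i => C.cf ξ η * b i) atTop (𝓝 0)
  apply tendsto_of_approx
  intro ε hε
  have hd : 0 < ‖ξ‖ * c + 1 := by positivity
  obtain ⟨η', hη', hdist⟩ := Metric.mem_closure_iff.1 hη (ε / (‖ξ‖ * c + 1)) (by positivity)
  refine ⟨fun i => C.cf ξ η' * b i, hη', fun i => ?_⟩
  have h1 : C.cf ξ η * b i - C.cf ξ η' * b i = C.cf ξ (η - η') * b i := by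
    have : C.cf ξ η = C.cf ξ (η - η') + C.cf ξ η' := by rw [← cf_add_right]; congr 1; abel
    rw [this, add_mul]; abel
  rw [h1]
  rw [dist_eq_norm] at hdist
  calc ‖C.cf ξ (η - η') * b i‖ ≤ ‖C.cf ξ (η - η')‖ * ‖b i‖ := norm_mul_le _ _
    _ ≤ (‖ξ‖ * ‖η - η'‖) * c := by
        apply mul_le_mul (C.norm_cf _ _) (hb i) (norm_nonneg _) (by positivity)
    _ = ‖η - η'‖ * (‖ξ‖ * c) := by ring
    _ ≤ (ε / (‖ξ‖ * c + 1)) * (‖ξ‖ * c + 1) := by
        apply mul_le_mul hdist.le (by linarith) (by positivity) (by positivity)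
    _ = ε := by field_simp

lemma good_single [DecidableEq G] (C : CoefAlg (dRep G) A) (b : ℕ → A)
    (hs : ∀ s, Tendsto (fun i => C.val (b i) s) atTop (𝓝 0)) (x y : G) :
    Tendsto (fun i => C.cf (lp.single 2 x (1 : ℂ) : HD G) (lp.single 2 y (1 : ℂ) : HD G) * b i)
      atTop (𝓝 0) := by
  have h1 : ∀ i, C.cf (lp.single 2 x (1 : ℂ) : HD G) (lp.single 2 y (1 : ℂ) : HD G) * b i =
      C.val (b i) (y * x⁻¹) • C.cf (lp.single 2 x (1 : ℂ) : HD G) (lp.single 2 y (1 : ℂ) : HD G) := by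
    intro i
    apply C.val_inj; funext s
    rw [C.val_mul, C.val_smul, C.val_cf]
    have h2 : inner ℂ (lp.single 2 y (1 : ℂ) : HD G) ((dRep G).lam s (lp.single 2 x (1 : ℂ) : HD G)) =
        if s = y * x⁻¹ then (1 : ℂ) else 0 := by
      rw [lp.inner_single_left]
      change inner ℂ (1 : ℂ) ((lp.single 2 x (1 : ℂ) : HD G) (s⁻¹ * y)) = _
      rw [lp.single_apply]
      by_cases h : s = y * x⁻¹
      · subst h
        simp
      · have h3 : s⁻¹ * y ≠ x := by
          intro h4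
          apply h
          rw [← h4]; group
        simp [h, h3]
    rw [h2]
    by_cases h : s = y * x⁻¹
    · subst h; simp
    · simp [h]
  simp only [h1]
  have := (hs (y * x⁻¹)).smul_const
    (C.cf (lp.single 2 x (1 : ℂ) : HD G) (lp.single 2 y (1 : ℂ) : HD G))
  rwa [zero_smul] at this

end DPROD

theorem dprod : DPROD_stm.{u, v} := by
  intro G _ A _ _ C b c hb hs a
  classical
  obtain ⟨ξ, η, ha, -⟩ := C.approx a 1 one_pos
  rw [ha]
  have h1 : ∀ x : G, ∀ η : HD G, (lp.single 2 x (1 : ℂ) : HD G) ∈ goodL C b η := by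
    intro x η
    have h2 : η ∈ goodR C b (lp.single 2 x (1 : ℂ) : HD G) := by
      apply hd_top _ (goodR_closed C b c hb _)
      intro y
      exact good_single C b hs x y
    exact h2
  have h3 : ξ ∈ goodL C b η := by
    apply hd_top _ (goodL_closed C b c hb _)
    intro x
    exact h1 x η
  exact h3

end N305.FA
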