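import Pool.Agent.N305.FA.Stm

set_option autoImplicit false
set_option linter.unusedSectionVars false

/-!
# DSEQ: approximate eigenvectors with convergent coefficients
-/

namespace N305.FA

open MeasureTheory Filter Topology H434R3.Arens ComplexConjugate

universe u v w

section

variable {H : Type w} [NormedAddCommGroup H] [InnerProductSpace ℂ H]

/-- `‖a x‖² ≤ re ⟨a x, x⟩` for a positive contraction. -/
lemma pos_sq_le (a : H →L[ℂ] H) (ha : a.IsPositive) (hn : ‖a‖ ≤ 1) (x : H) :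
    ‖a x‖ ^ 2 ≤ (inner ℂ (a x) x).re := by
  have hs : ∀ x y, inner ℂ (a x) y = inner ℂ x (a y) := ha.1
  have h0 : 0 ≤ (inner ℂ (a (x - a x)) (x - a x)).re := ha.2 (x - a x)
  have e : (inner ℂ (a (x - a x)) (x - a x)).re =
      (inner ℂ (a x) x).re - 2 * ‖a x‖ ^ 2 + (inner ℂ (a (a x)) (a x)).re := by
    rw [map_sub, inner_sub_left, inner_sub_right, inner_sub_right, hs (a x) x]
    have : (inner ℂ (a x) (a x)).re = ‖a x‖ ^ 2 := by
      have := inner_self_eq_norm_sq (𝕜 := ℂ) (a x)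
      exact this
    simp only [Complex.sub_re, this]
    ring
  have h1 : (inner ℂ (a (a x)) (a x)).re ≤ ‖a x‖ ^ 2 := by
    have h2 : (inner ℂ (a (a x)) (a x)).re ≤ ‖a (a x)‖ * ‖a x‖ :=
      re_inner_le_norm (𝕜 := ℂ) _ _
    have h3 : ‖a (a x)‖ ≤ ‖a x‖ := by
      refine (a.le_opNorm _).trans ?_
      exact mul_le_of_le_one_left (norm_nonneg _) hn
    nlinarith [norm_nonneg (a x)]
  linarith

lemma pos_sub_le (a : H →L[ℂ] H) (ha : a.IsPositive) (hn : ‖a‖ ≤ 1) (x : H) (hx : ‖x‖ = 1) :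
    ‖a x - x‖ ^ 2 ≤ 1 - ‖a x‖ ^ 2 := by
  have h := pos_sq_le a ha hn x
  have e := norm_sub_sq (𝕜 := ℂ) (a x) x
  have e' : ‖a x - x‖ ^ 2 = ‖a x‖ ^ 2 - 2 * (inner ℂ (a x) x).re + ‖x‖ ^ 2 := e
  rw [e', hx]
  linarith

/-- a sequence of approximate eigenvectors -/
lemma exists_approx (a : H →L[ℂ] H) (ha : a.IsPositive) (hn : ‖a‖ = 1) :
    ∃ v : ℕ → H, (∀ m, ‖v m‖ = 1) ∧ Tendsto (fun m => a (v m) - v m) atTop (𝓝 0) := by
  have h1 : ∀ m : ℕ, ∃ v : H, ‖v‖ = 1 ∧ 1 - 1 / ((m : ℝ) + 2) < ‖a v‖ := by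
    intro m
    have hm : (0 : ℝ) < (m : ℝ) + 2 := by positivity
    have hr0 : 0 ≤ 1 - 1 / ((m : ℝ) + 2) := by
      rw [sub_nonneg, div_le_one hm]
      have : (0 : ℝ) ≤ m := Nat.cast_nonneg m
      linarith
    obtain ⟨x, hx, hax⟩ := ContinuousLinearMap.exists_lt_apply_of_lt_opNorm a
      (r := 1 - 1 / ((m : ℝ) + 2)) (by rw [hn]; linarith [one_div_pos.mpr hm])
    have hx0 : x ≠ 0 := by
      rintro rfl
      rw [map_zero, norm_zero] at hax
      linarith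
    have hxp : 0 < ‖x‖ := norm_pos_iff.mpr hx0
    refine ⟨((‖x‖⁻¹ : ℝ) : ℂ) • x, ?_, ?_⟩
    · rw [norm_smul, Complex.norm_real, Real.norm_eq_abs, abs_of_pos (inv_pos.mpr hxp),
        inv_mul_cancel₀ hxp.ne']
    · rw [map_smul, norm_smul, Complex.norm_real, Real.norm_eq_abs, abs_of_pos (inv_pos.mpr hxp)]
      refine hax.trans_le ?_
      have : 1 ≤ ‖x‖⁻¹ := (one_le_inv₀ hxp).mpr hx.le
      nlinarith [norm_nonneg (a x)]
  choose v hv1 hv2 using h1
  refine ⟨v, hv1, ?_⟩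
  rw [tendsto_zero_iff_norm_tendsto_zero]
  have hb : ∀ m, ‖a (v m) - v m‖ ^ 2 ≤ 2 * (1 / ((m : ℝ) + 2)) := by
    intro m
    refine (pos_sub_le a ha hn.le (v m) (hv1 m)).trans ?_
    have h3 : ‖a (v m)‖ ≤ 1 := by
      refine (a.le_opNorm _).trans ?_
      rw [hn, hv1, one_mul]
    have h4 := hv2 m
    nlinarith [norm_nonneg (a (v m))]
  have hl : Tendsto (fun m : ℕ => 2 * (1 / ((m : ℝ) + 2))) atTop (𝓝 0) := by
    have : Tendsto (fun m : ℕ => 1 / ((m : ℝ) + 2)) atTop (𝓝 0) := by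
      have h5 : Tendsto (fun m : ℕ => (m : ℝ) + 2) atTop atTop :=
        tendsto_atTop_add_const_right _ _ tendsto_natCast_atTop_atTop
      exact h5.inv_tendsto_atTop.congr fun m => by simp [Pi.inv_apply]
    simpa using this.const_mul 2
  have hsq : Tendsto (fun m => ‖a (v m) - v m‖ ^ 2) atTop (𝓝 0) :=
    squeeze_zero (fun m => by positivity) hb hl
  have := (Real.continuous_sqrt.tendsto 0).comp hsq
  rw [Real.sqrt_zero] at this
  refine this.congr fun m => ?_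
  exact Real.sqrt_sq (norm_nonneg _)

end

lemma countable_supp {G : Type u} (ξ : HD G) : {x | (ξ : G → ℂ) x ≠ 0}.Countable := by
  have h := lp.memℓp ξ
  rw [memℓp_gen_iff (by norm_num)] at h
  refine h.countable_support.mono ?_
  intro x hx
  rw [Function.mem_support]
  have : 0 < ‖(ξ : G → ℂ) x‖ := norm_pos_iff.mpr hx
  have := Real.rpow_pos_of_pos this (2 : ENNReal).toReal
  exact this.ne'

lemma countable_coef {G : Type u} [Group G] (ξ : HD G) :
    {s | inner ℂ ξ (dlam s ξ) ≠ 0}.Countable := by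
  have hc := countable_supp ξ
  refine (hc.image2 hc (fun a b => a * b⁻¹)).mono ?_
  intro s hs
  rw [Set.mem_ofPred_eq, lp.inner_eq_tsum] at hs
  have : ∃ x, inner ℂ ((ξ : G → ℂ) x) ((dlam s ξ : G → ℂ) x) ≠ 0 := by
    by_contra hcon
    push Not at hcon
    apply hs
    simp only [hcon, tsum_zero]
  obtain ⟨x, hx⟩ := this
  rw [dlam_apply] at hx
  refine ⟨x, ?_, s⁻¹ * x, ?_, ?_⟩
  · intro h0
    rw [h0, inner_zero_left] at hx
    exact hx rfl
  · intro h0
    rw [h0, inner_zero_right] at hx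
    exact hx rfl
  · simp

theorem dseq : DSEQ_stm.{u} := by
  intro G _ a ha hn
  obtain ⟨ξ, hξ1, hξ2⟩ := exists_approx a ha hn
  set Q : Set G := ⋃ m, {s | inner ℂ (ξ m) (dlam s (ξ m)) ≠ 0} with hQ
  have hQc : Q.Countable := Set.countable_iUnion fun m => countable_coef (ξ m)
  have : Countable Q := hQc.to_subtype
  set w : ℕ → (Q → ℂ) := fun m s => inner ℂ (ξ m) (dlam (s : G) (ξ m)) with hw
  have hcomp : IsCompact (Set.univ.pi fun _ : Q => Metric.closedBall (0 : ℂ) 1) :=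
    isCompact_univ_pi fun _ => isCompact_closedBall _ _
  have hmem : ∀ m, w m ∈ Set.univ.pi fun _ : Q => Metric.closedBall (0 : ℂ) 1 := by
    intro m s _
    rw [mem_closedBall_zero_iff]
    refine (norm_inner_le_norm _ _).trans ?_
    have : ‖dlam (s : G) (ξ m)‖ = ‖ξ m‖ := (dlamI (s : G)).norm_map _
    rw [this, hξ1, mul_one]
  obtain ⟨c, -, φ, hφ, hlim⟩ := hcomp.tendsto_subseq hmem
  refine ⟨fun m => ξ (φ m), fun m => hξ1 _, hξ2.comp hφ.tendsto_atTop, ?_⟩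
  intro s
  by_cases hs : s ∈ Q
  · refine ⟨c ⟨s, hs⟩, ?_⟩
    exact (tendsto_pi_nhds.mp hlim) ⟨s, hs⟩
  · refine ⟨0, ?_⟩
    have : ∀ m, inner ℂ (ξ m) (dlam s (ξ m)) = 0 := by
      intro m
      by_contra hcon
      exact hs (Set.mem_iUnion.mpr ⟨m, hcon⟩)
    simp only [this]
    exact tendsto_const_nhds

end N305.FA
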