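import Mathlib
import Pool.Agent.H434R3.Arens

set_option autoImplicit false
set_option linter.unusedSectionVars false

/-!
# The Fourier algebra `A(G)` of a locally compact group (definitions)
-/

namespace N305.FA

open MeasureTheory Filter Topology H434R3.Arens ComplexConjugate

universe u v w

section Fourier

variable {G : Type u} [Group G] [TopologicalSpace G] [IsTopologicalGroup G]
  [LocallyCompactSpace G] [T2Space G] [MeasurableSpace G] [BorelSpace G]

/-- The coefficient `s ↦ ⟨λ(s) ξ, η⟩ = ∫ ξ(s⁻¹ x) conj(η(x)) dx` of the left regular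
representation (left Haar measure). -/
noncomputable def coef (ξ η : G → ℂ) (s : G) : ℂ :=
  ∫ x, ξ (s⁻¹ * x) * conj (η x) ∂(Measure.haar : Measure G)

/-- `ξ` is square integrable -/
def L2 (ξ : G → ℂ) : Prop := MemLp ξ 2 (Measure.haar : Measure G)

/-- the norm of `ξ` in `L²(G)` -/
noncomputable def nrm2 (ξ : G → ℂ) : ℝ := (eLpNorm ξ 2 (Measure.haar : Measure G)).toReal

/-- The normed algebra `A` is the Fourier algebra `A(G)`: its elements are (via `val`) the
functions `u(s) = ⟨λ(s) ξ, η⟩`, `ξ, η ∈ L²(G)`, with the norm `‖u‖ = inf ‖ξ‖₂ ‖η‖₂` over all such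
representations and the pointwise operations. -/
structure FourierAlg (G : Type u) [Group G] [TopologicalSpace G] [IsTopologicalGroup G]
    [LocallyCompactSpace G] [T2Space G] [MeasurableSpace G] [BorelSpace G]
    (A : Type v) [NonUnitalNormedRing A] [NormedSpace ℂ A] where
  /-- the function on `G` given by an element of `A` -/
  val : A → G → ℂ
  val_inj : Function.Injective val
  val_add : ∀ a b s, val (a + b) s = val a s + val b s
  val_smul : ∀ (c : ℂ) a s, val (c • a) s = c * val a s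
  val_mul : ∀ a b s, val (a * b) s = val a s * val b s
  mem_iff : ∀ f : G → ℂ, (∃ a, val a = f) ↔ ∃ ξ η : G → ℂ, L2 ξ ∧ L2 η ∧ f = coef ξ η
  norm_eq : ∀ a, ‖a‖ = sInf {r : ℝ | ∃ ξ η : G → ℂ, L2 ξ ∧ L2 η ∧ val a = coef ξ η ∧
    r = nrm2 ξ * nrm2 η}

end Fourier

section Abstract

variable {G : Type u} [Group G] {H : Type w} [NormedAddCommGroup H] [InnerProductSpace ℂ H]

/-- A unitary representation of the abstract group `G` on the Hilbert space `H`. -/
structure URep (G : Type u) [Group G] (H : Type w) [NormedAddCommGroup H]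
    [InnerProductSpace ℂ H] where
  lam : G → H →L[ℂ] H
  one : lam 1 = 1
  mul : ∀ s t, lam (s * t) = lam s * lam t
  inner_lam : ∀ s ξ η, inner ℂ (lam s ξ) (lam s η) = inner ℂ ξ η

/-- The von Neumann algebra of `L`: the operators `T` such that
`∑ ⟨T ξ_i, η_i⟩ = 0` for every finite family with `∑ ⟨λ(s) ξ_i, η_i⟩ = 0` for all `s`. -/
def VN (L : URep G H) : Submodule ℂ (H →L[ℂ] H) where
  carrier := {T | ∀ (n : ℕ) (ξ η : Fin n → H),
    (∀ s, ∑ i, inner ℂ (η i) (L.lam s (ξ i)) = 0) → ∑ i, inner ℂ (η i) (T (ξ i)) = 0}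
  add_mem' := by
    intro S T hS hT n ξ η h
    simp only [add_apply, inner_add_right, Finset.sum_add_distrib,
      hS n ξ η h, hT n ξ η h, add_zero]
  zero_mem' := by
    intro n ξ η h
    simp
  smul_mem' := by
    intro c T hT n ξ η h
    simp only [smul_apply, inner_smul_right, ← Finset.mul_sum,
      hT n ξ η h, mul_zero]

lemma mem_VN (L : URep G H) (T : H →L[ℂ] H) : T ∈ VN L ↔ ∀ (n : ℕ) (ξ η : Fin n → H),
    (∀ s, ∑ i, inner ℂ (η i) (L.lam s (ξ i)) = 0) → ∑ i, inner ℂ (η i) (T (ξ i)) = 0 := Iff.rfl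

/-- An algebra `A` of coefficients of `L` with the quotient norm. -/
structure CoefAlg (L : URep G H) (A : Type v) [NonUnitalNormedRing A] [NormedSpace ℂ A] where
  val : A → G → ℂ
  val_inj : Function.Injective val
  val_add : ∀ a b s, val (a + b) s = val a s + val b s
  val_smul : ∀ (c : ℂ) a s, val (c • a) s = c * val a s
  val_mul : ∀ a b s, val (a * b) s = val a s * val b s
  /-- the coefficient `s ↦ ⟨λ(s) ξ, η⟩` -/
  cf : H → H → A
  val_cf : ∀ ξ η s, val (cf ξ η) s = inner ℂ η (L.lam s ξ)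
  norm_cf : ∀ ξ η, ‖cf ξ η‖ ≤ ‖ξ‖ * ‖η‖
  approx : ∀ a, ∀ ε > 0, ∃ ξ η, a = cf ξ η ∧ ‖ξ‖ * ‖η‖ < ‖a‖ + ε

end Abstract

section Regular

variable (G : Type u) [Group G] [TopologicalSpace G] [IsTopologicalGroup G]
  [LocallyCompactSpace G] [T2Space G] [MeasurableSpace G] [BorelSpace G]

/-- `L²(G)` -/
abbrev HG : Type u := Lp ℂ 2 (Measure.haar : Measure G)

variable {G}

/-- `λ(s) ξ = ξ(s⁻¹ ·)` on `L²(G)` -/
noncomputable def rlam (s : G) : HG G →L[ℂ] HG G :=
  (Lp.compMeasurePreservingₗᵢ ℂ (fun x => s⁻¹ * x)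
    (measurePreserving_mul_left (Measure.haar : Measure G) s⁻¹)).toContinuousLinearMap

lemma coeFn_rlam (s : G) (ξ : HG G) : rlam s ξ =ᵐ[Measure.haar] fun x => ξ (s⁻¹ * x) :=
  Lp.coeFn_compMeasurePreserving ξ (measurePreserving_mul_left (Measure.haar : Measure G) s⁻¹)

variable (G)

/-- the left regular representation -/
noncomputable def regRep : URep G (HG G) where
  lam := rlam
  one := by
    ext1 ξ
    apply Lp.ext
    filter_upwards [coeFn_rlam (1 : G) ξ] with x hx
    rw [hx]; simp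
  mul := by
    intro s t
    ext1 ξ
    apply Lp.ext
    have h1 := coeFn_rlam (s * t) ξ
    have h2 := coeFn_rlam s (rlam t ξ)
    have h3 := (measurePreserving_mul_left (Measure.haar : Measure G) s⁻¹).quasiMeasurePreserving.ae_eq_comp
      (coeFn_rlam t ξ)
    filter_upwards [h1, h2, h3] with x hx1 hx2 hx3
    rw [hx1]
    change _ = (rlam s (rlam t ξ)) x
    rw [hx2]
    simp only [Function.comp] at hx3
    rw [hx3]
    simp [mul_assoc]
  inner_lam := by
    intro s ξ η
    exact LinearIsometry.inner_map_map (Lp.compMeasurePreservingₗᵢ ℂ (fun x => s⁻¹ * x)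
      (measurePreserving_mul_left (Measure.haar : Measure G) s⁻¹)) ξ η

end Regular

section Discrete

variable (G : Type u) [Group G]

/-- `ℓ²(G)` -/
abbrev HD : Type u := lp (fun _ : G => ℂ) 2

variable {G}

lemma memD (s : G) (ξ : HD G) : Memℓp (fun x => (ξ : G → ℂ) (s⁻¹ * x)) (2 : ENNReal) := by
  have h := lp.memℓp ξ
  rw [memℓp_gen_iff (by norm_num)] at h ⊢
  exact (Equiv.mulLeft s⁻¹).summable_iff.mpr h

lemma normD (s : G) (ξ : HD G) : ‖(⟨fun x => (ξ : G → ℂ) (s⁻¹ * x), memD s ξ⟩ : HD G)‖ = ‖ξ‖ := by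
  rw [lp.norm_eq_tsum_rpow (by norm_num), lp.norm_eq_tsum_rpow (by norm_num)]
  congr 1
  exact (Equiv.mulLeft s⁻¹).tsum_eq (fun x => ‖(ξ : G → ℂ) x‖ ^ (2 : ENNReal).toReal)

/-- `λ(s) ξ = ξ(s⁻¹ ·)` on `ℓ²(G)` -/
noncomputable def dlamI (s : G) : HD G →ₗᵢ[ℂ] HD G where
  toFun ξ := ⟨fun x => (ξ : G → ℂ) (s⁻¹ * x), memD s ξ⟩
  map_add' ξ η := by ext x; simp
  map_smul' c ξ := by ext x; simp
  norm_map' ξ := normD s ξ

noncomputable def dlam (s : G) : HD G →L[ℂ] HD G := (dlamI s).toContinuousLinearMap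

@[simp] lemma dlam_apply (s : G) (ξ : HD G) (x : G) :
    (dlam s ξ : G → ℂ) x = (ξ : G → ℂ) (s⁻¹ * x) := rfl

variable (G)

/-- the left regular representation of the discrete group `G` on `ℓ²(G)` -/
noncomputable def dRep : URep G (HD G) where
  lam := dlam
  one := by ext ξ x; simp
  mul := by intro s t; ext ξ x; simp [mul_assoc]
  inner_lam := by
    intro s ξ η
    exact LinearIsometry.inner_map_map (dlamI s) ξ η

end Discrete

end N305.FA
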