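import Pool.Agent.N305.FA.Stm

set_option autoImplicit false

/-!
# Part DIR of project FA (helper749)
-/

namespace N305.FA

open Filter Topology

universe w

theorem dir_aux {H : Type w} [NormedAddCommGroup H] [InnerProductSpace ℂ H] [CompleteSpace H]
    {B : Type w} [NonUnitalCStarAlgebra B] [PartialOrder B] [StarOrderedRing B]
    (φ : B →⋆ₙₐ[ℂ] (H →L[ℂ] H)) (hφ : ∀ b : B, φ b = 0 → b = 0)
    (S T : B) (hSp : (φ S).IsPositive) (hTp : (φ T).IsPositive) (hS1 : ‖S‖ < 1)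
    (hT1 : ‖T‖ < 1) :
    ∃ R : B, (φ R).IsPositive ∧ ‖R‖ < 1 ∧ (φ R - φ S).IsPositive ∧ (φ R - φ T).IsPositive := by
  have h1 : ∀ x : B, 0 ≤ x → (φ x).IsPositive := by
    intro x hx
    obtain ⟨y, rfl⟩ := CStarAlgebra.nonneg_iff_eq_star_mul_self.1 hx
    rw [← ContinuousLinearMap.nonneg_iff_isPositive, map_mul, map_star]
    exact star_mul_self_nonneg (φ y)
  have h2 : ∀ x : B, (φ x).IsPositive → 0 ≤ x := by
    intro x hx
    have hsa : IsSelfAdjoint x := by
      have e : φ (star x - x) = 0 := by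
        rw [map_sub, map_star, hx.isSelfAdjoint.star_eq, sub_self]
      exact sub_eq_zero.1 (hφ _ e)
    rw [← CFC.negPart_eq_zero_iff x hsa]
    have hn0 : 0 ≤ x⁻ := CFC.negPart_nonneg x
    have hxn : x * x⁻ = -(x⁻ * x⁻) := by
      have e := CFC.posPart_sub_negPart x hsa
      calc x * x⁻ = (x⁺ - x⁻) * x⁻ := by rw [e]
        _ = -(x⁻ * x⁻) := by rw [sub_mul, CFC.posPart_mul_negPart, zero_sub]
    generalize x⁻ = n at hn0 hxn ⊢
    set X : H →L[ℂ] H := φ x with hX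
    set N : H →L[ℂ] H := φ n with hN
    have hNp : 0 ≤ N := (ContinuousLinearMap.nonneg_iff_isPositive _).2 (h1 n hn0)
    have hXp : 0 ≤ X := (ContinuousLinearMap.nonneg_iff_isPositive _).2 hx
    have hNs : star N = N := (IsSelfAdjoint.of_nonneg hNp)
    have hXN : X * N = -(N * N) := by
      rw [hX, hN, ← map_mul, hxn, map_neg, map_mul]
    have k1 : 0 ≤ star N * X * N := star_left_conjugate_nonneg hXp N
    have k2 : 0 ≤ star N * N * N := star_left_conjugate_nonneg hNp N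
    have k3 : N * N * N = 0 := by
      rw [hNs, mul_assoc, hXN, mul_neg, ← mul_assoc] at k1
      rw [hNs] at k2
      exact le_antisymm (neg_nonneg.1 k1) k2
    have k4 : star (N * N) * (N * N) = 0 := by
      rw [star_mul, hNs, ← mul_assoc, k3, zero_mul]
    have k5 : N * N = 0 := CStarRing.star_mul_self_eq_zero_iff _ |>.1 k4
    have k6 : star N * N = 0 := by rw [hNs, k5]
    have k7 : N = 0 := CStarRing.star_mul_self_eq_zero_iff _ |>.1 k6
    exact hφ n k7
  obtain ⟨R, ⟨hR0, hR1⟩, hSR, hTR⟩ := CStarAlgebra.directedOn_nonneg_ball (A := B)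
    S ⟨h2 _ hSp, by rw [mem_ball_zero_iff]; exact hS1⟩
    T ⟨h2 _ hTp, by rw [mem_ball_zero_iff]; exact hT1⟩
  rw [mem_ball_zero_iff] at hR1
  refine ⟨R, h1 R hR0, hR1, ?_, ?_⟩
  · rw [← map_sub]
    exact h1 _ (sub_nonneg.2 hSR)
  · rw [← map_sub]
    exact h1 _ (sub_nonneg.2 hTR)

theorem dir : DIR_stm.{w} := by
  intro H _ _ _ B hB S T hS hT hSp hTp hS1 hT1
  have hc : IsClosed (B : Set (H →L[ℂ] H)) := hB
  obtain ⟨R, h1, h2, h3, h4⟩ := @dir_aux H _ _ _ B
    (NonUnitalStarSubalgebra.nonUnitalCStarAlgebra B)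
    (@CStarAlgebra.spectralOrder B (NonUnitalStarSubalgebra.nonUnitalCStarAlgebra B))
    (@CStarAlgebra.spectralOrderedRing B (NonUnitalStarSubalgebra.nonUnitalCStarAlgebra B))
    (NonUnitalStarSubalgebraClass.subtype B) (fun b hb => Subtype.ext hb) ⟨S, hS⟩ ⟨T, hT⟩
    hSp hTp hS1 hT1
  exact ⟨R, R.2, h1, h2, h3, h4⟩

end N305.FA
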