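import Pool.Agent.N305.FA.Stm

set_option autoImplicit false
set_option linter.unusedSectionVars false

/-!
# Assembly of project FA
-/

namespace N305.FA

open MeasureTheory Filter Topology H434R3.Arens ComplexConjugate

universe u v

lemma norm_cvec {G : Type u} [Group G] [TopologicalSpace G] [IsTopologicalGroup G]
    [LocallyCompactSpace G] [T2Space G] [MeasurableSpace G] [BorelSpace G]
    (f : G → ℝ) (hf : Continuous f) (hs : HasCompactSupport f)
    (h : ∫ x, f x ^ 2 ∂(Measure.haar : Measure G) = 1) : ‖cvec f hf hs‖ = 1 := by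
  have h1 : ‖cvec f hf hs‖ ^ 2 = 1 := by
    have e1 : (‖cvec f hf hs‖ : ℝ) ^ 2 = RCLike.re (inner ℂ (cvec f hf hs) (cvec f hf hs)) := by
      rw [inner_self_eq_norm_sq_to_K]
      norm_cast
    rw [e1, L2.inner_def]
    have e2 : ∫ a, inner ℂ ((cvec f hf hs : HG G) a) ((cvec f hf hs : HG G) a)
        ∂(Measure.haar : Measure G) = ∫ a, ((f a ^ 2 : ℝ) : ℂ) ∂(Measure.haar : Measure G) := by
      apply integral_congr_ae
      filter_upwards [(memC f hf hs).coeFn_toLp] with x hx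
      have : (cvec f hf hs : HG G) x = (f x : ℂ) := hx
      rw [this]
      simp only [RCLike.inner_apply, Complex.conj_ofReal, ← Complex.ofReal_mul, sq]
    rw [e2]
    have e3 : ∫ a, ((f a ^ 2 : ℝ) : ℂ) ∂(Measure.haar : Measure G) = ((1 : ℝ) : ℂ) := by
      rw [← h]; exact integral_complex_ofReal
    rw [e3]
    simp
  nlinarith [norm_nonneg (cvec f hf hs)]

lemma comm_of {G : Type u} [Group G] {H : Type*} [NormedAddCommGroup H] [InnerProductSpace ℂ H]
    {L : URep G H} {A : Type v} [NonUnitalNormedRing A] [NormedSpace ℂ A] (C : CoefAlg L A)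
    (a b : A) : a * b = b * a := by
  apply C.val_inj
  funext s
  rw [C.val_mul, C.val_mul, mul_comm]

theorem nondiscrete (hMODEL : MODEL_stm.{u, v}) (hFUNCT : FUNCT_stm.{u, v, u})
    (hINCR : INCR_stm.{u, u}) (hHUMP : HUMP_stm.{u})
    (hARENSA : ARENSA_stm.{v}) (hSEQ : SEQ_stm.{u}) (hPSEQ : PSEQ_stm.{u, v})
    (hOPB : OPB_stm.{u})
    (G : Type u) [Group G] [TopologicalSpace G] [IsTopologicalGroup G]
    [LocallyCompactSpace G] [T2Space G] [MeasurableSpace G] [BorelSpace G]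
    (hG : ¬ DiscreteTopology G)
    (A : Type v) [NonUnitalNormedRing A] [NormedSpace ℂ A] [IsScalarTower ℂ A A]
    [SMulCommClass ℂ A A] [CompleteSpace A] (M : FourierAlg G A) :
    ∃ Φ : Bidual A, Φ ≠ 0 ∧ ∀ Ψ : Bidual A, Φ * Ψ * Φ = 0 := by
  obtain ⟨C, hC⟩ := hMODEL G A M
  obtain ⟨D⟩ := hSEQ G hG
  have hv : ∀ m, ‖D.v m‖ = 1 := fun m => norm_cvec _ _ _ (D.int m)
  obtain ⟨T, hTV, hT⟩ := hINCR G (HG G) (regRep G) D.v hv (fun N ε hε => hOPB G D N ε hε)
  obtain ⟨e, o, R, he, ho, hRV, hR1, hRe, hRo⟩ := hHUMP (HG G) D.v T hv hT (VN (regRep G)) hTV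
  obtain ⟨F, hF⟩ := hFUNCT G (HG G) (regRep G) A C R hRV hR1
  refine hARENSA A (comm_of C) (fun i => C.cf (D.v (e i)) (D.v (e i)))
    (fun i => C.cf (D.v (o i)) (D.v (o i))) F ?_ ?_ ?_ ?_ ?_ ?_ ?_ ?_
  · intro i
    have := C.norm_cf (D.v (e i)) (D.v (e i))
    rw [hv] at this; simpa using this
  · intro i
    have := C.norm_cf (D.v (o i)) (D.v (o i))
    rw [hv] at this; simpa using this
  · intro i
    exact (hF _ _ _).1 (hRe i)
  · intro i
    exact (hF _ _ _).2 (hRo i)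
  · intro k
    exact (hPSEQ G A C D (e k)).comp he.tendsto_atTop
  · intro k
    exact (hPSEQ G A C D (e k)).comp ho.tendsto_atTop
  · intro k
    exact (hPSEQ G A C D (o k)).comp he.tendsto_atTop
  · intro k
    exact (hPSEQ G A C D (o k)).comp ho.tendsto_atTop

theorem discrete (hMODD : MODD_stm.{u, v}) (hFUNCT : FUNCT_stm.{u, v, u})
    (hVNALG : VNALG_stm.{u, u}) (hHUMP : HUMP_stm.{u}) (hTPOW : TPOW_stm.{u})
    (hARENSB : ARENSB_stm.{v}) (hPFA : PFA_stm.{u}) (hPFB : PFB_stm.{u}) (hDSEQ : DSEQ_stm.{u})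
    (hDPROD : DPROD_stm.{u, v})
    (G : Type u) [Group G] [TopologicalSpace G] [IsTopologicalGroup G]
    [LocallyCompactSpace G] [T2Space G] [MeasurableSpace G] [BorelSpace G] [Infinite G]
    [DiscreteTopology G]
    (A : Type v) [NonUnitalNormedRing A] [NormedSpace ℂ A] [IsScalarTower ℂ A A]
    [SMulCommClass ℂ A A] (M : FourierAlg G A) :
    ∃ Φ : Bidual A, Φ ≠ 0 ∧ ∀ Ψ : Bidual A, Φ * Ψ * Φ = 0 := by
  obtain ⟨C, hC⟩ := hMODD G A M
  obtain ⟨D⟩ := hPFA G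
  obtain ⟨v, hv, hav, hpt⟩ := hDSEQ G D.a D.pos D.norm
  have hI : Incr v (fun k => 1 - D.a ^ k) :=
    hTPOW (HD G) D.a v D.pos D.norm.le (hPFB G D) hv hav
  obtain ⟨h1, h2, h3, h4⟩ := hVNALG G (HD G) (dRep G)
  have hone : (1 : HD G →L[ℂ] HD G) ∈ VN (dRep G) := by
    have := h1 1
    rwa [(dRep G).one] at this
  have hpow : ∀ k, D.a ^ k ∈ VN (dRep G) := by
    intro k
    induction k with
    | zero => simpa using hone
    | succ k ih => rw [pow_succ]; exact h2 _ _ ih D.vn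
  obtain ⟨e, o, R, he, ho, hRV, hR1, hRe, hRo⟩ := hHUMP (HD G) v _ hv hI (VN (dRep G))
    (fun k => (VN (dRep G)).sub_mem hone (hpow k))
  obtain ⟨F, hF⟩ := hFUNCT G (HD G) (dRep G) A C R hRV hR1
  have hn : ∀ m, ‖C.cf (v m) (v m)‖ ≤ 1 := by
    intro m
    have := C.norm_cf (v m) (v m)
    rw [hv] at this; simpa using this
  refine hARENSB A (fun i => C.cf (v (e i)) (v (e i)) - C.cf (v (o i)) (v (o i))) F 2 ?_ ?_ ?_
  · intro i
    calc ‖C.cf (v (e i)) (v (e i)) - C.cf (v (o i)) (v (o i))‖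
        ≤ ‖C.cf (v (e i)) (v (e i))‖ + ‖C.cf (v (o i)) (v (o i))‖ := norm_sub_le _ _
      _ ≤ 2 := by linarith [hn (e i), hn (o i)]
  · intro i
    rw [map_sub, Complex.sub_re]
    have h5 := (hF _ _ _).1 (hRe i)
    have h6 := (hF _ _ _).2 (hRo i)
    linarith
  · intro a
    refine hDPROD G A C _ 2 ?_ ?_ a
    · intro i
      calc ‖C.cf (v (e i)) (v (e i)) - C.cf (v (o i)) (v (o i))‖
          ≤ ‖C.cf (v (e i)) (v (e i))‖ + ‖C.cf (v (o i)) (v (o i))‖ := norm_sub_le _ _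
        _ ≤ 2 := by linarith [hn (e i), hn (o i)]
    · intro s
      obtain ⟨c, hc⟩ := hpt s
      have e1 : ∀ i, C.val (C.cf (v (e i)) (v (e i)) - C.cf (v (o i)) (v (o i))) s
          = inner ℂ (v (e i)) (dlam s (v (e i))) - inner ℂ (v (o i)) (dlam s (v (o i))) := by
        intro i
        have : C.cf (v (e i)) (v (e i)) - C.cf (v (o i)) (v (o i))
            = C.cf (v (e i)) (v (e i)) + (-1 : ℂ) • C.cf (v (o i)) (v (o i)) := by
          rw [neg_one_smul, sub_eq_add_neg]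
        rw [this, C.val_add, C.val_smul, C.val_cf, C.val_cf]
        change _ + -1 * _ = _
        ring_nf
        rfl
      have e2 := (hc.comp he.tendsto_atTop).sub (hc.comp ho.tendsto_atTop)
      rw [sub_self] at e2
      refine e2.congr (fun i => ?_)
      rw [e1 i]; rfl

theorem main (hMODEL : MODEL_stm.{u, v}) (hMODD : MODD_stm.{u, v}) (hFUNCT : FUNCT_stm.{u, v, u})
    (hVNALG : VNALG_stm.{u, u}) (hINCR : INCR_stm.{u, u}) (hHUMP : HUMP_stm.{u})
    (hTPOW : TPOW_stm.{u}) (hARENSA : ARENSA_stm.{v}) (hARENSB : ARENSB_stm.{v})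
    (hSEQ : SEQ_stm.{u}) (hPSEQ : PSEQ_stm.{u, v})
    (hOPB : OPB_stm.{u}) (hPFA : PFA_stm.{u}) (hPFB : PFB_stm.{u}) (hDSEQ : DSEQ_stm.{u})
    (hDPROD : DPROD_stm.{u, v})
    (G : Type u) [Group G] [TopologicalSpace G] [IsTopologicalGroup G]
    [LocallyCompactSpace G] [T2Space G] [MeasurableSpace G] [BorelSpace G] [Infinite G]
    (A : Type v) [NonUnitalNormedRing A] [NormedSpace ℂ A] [IsScalarTower ℂ A A]
    [SMulCommClass ℂ A A] [CompleteSpace A] (M : FourierAlg G A) :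
    ∃ Φ : Bidual A, Φ ≠ 0 ∧ InRad Φ ∧ ∀ Ψ : Bidual A, Φ * Ψ * Φ = 0 := by
  have key : ∃ Φ : Bidual A, Φ ≠ 0 ∧ ∀ Ψ : Bidual A, Φ * Ψ * Φ = 0 := by
    by_cases hG : DiscreteTopology G
    · exact discrete hMODD hFUNCT hVNALG hHUMP hTPOW hARENSB hPFA hPFB hDSEQ hDPROD G A M
    · exact nondiscrete hMODEL hFUNCT hINCR hHUMP hARENSA hSEQ hPSEQ hOPB G hG A M
  obtain ⟨Φ, h1, h2⟩ := key
  exact ⟨Φ, h1, inRad_of_nil Φ h2, h2⟩

end N305.FA
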