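import Pool.Agent.N305.FA.Stm

/-!
PROJECT FA (helper305), task FA/FUNCT: a bounded sequence of operators in the von Neumann algebra
gives a functional on the algebra of coefficients.  Written by helper170.
-/

set_option autoImplicit false

namespace N305.FA

open Filter Topology

universe u v w

namespace Funct

variable {G : Type u} [Group G] {H : Type w} [NormedAddCommGroup H] [InnerProductSpace ℂ H]
  {L : URep G H} {A : Type v} [NonUnitalNormedRing A] [NormedSpace ℂ A] (C : CoefAlg L A)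

/-- independence of the representation -/
lemma indep {T : H →L[ℂ] H} (hT : T ∈ VN L) {n : ℕ} (ξ η : Fin n → H)
    (h : ∀ s, ∑ i, C.val (C.cf (ξ i) (η i)) s = 0) : ∑ i, inner ℂ (η i) (T (ξ i)) = 0 := by
  refine hT n ξ η fun s => ?_
  have := h s
  simpa only [C.val_cf] using this

lemma exists_rep (a : A) : ∃ p : H × H, a = C.cf p.1 p.2 := by
  obtain ⟨ξ, η, h, _⟩ := C.approx a 1 one_pos
  exact ⟨(ξ, η), h⟩

/-- the value of the functional of `T` at `a` -/
noncomputable def fn (T : H →L[ℂ] H) (a : A) : ℂ :=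
  inner ℂ (exists_rep C a).choose.2 (T (exists_rep C a).choose.1)

lemma fn_spec (a : A) : a = C.cf (exists_rep C a).choose.1 (exists_rep C a).choose.2 :=
  (exists_rep C a).choose_spec

lemma fn_cf {T : H →L[ℂ] H} (hT : T ∈ VN L) (ξ η : H) : fn C T (C.cf ξ η) = inner ℂ η (T ξ) := by
  set a := C.cf ξ η with ha
  have h := fn_spec C a
  unfold fn
  set ξ' := (exists_rep C a).choose.1
  set η' := (exists_rep C a).choose.2
  have := indep C hT ![ξ', ξ] ![η', -η] (fun s => by
    rw [Fin.sum_univ_two]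
    simp only [Matrix.cons_val_zero, Matrix.cons_val_one, C.val_cf]
    have e1 : C.val a s = inner ℂ η' (L.lam s ξ') := by
      conv_lhs => rw [h]
      rw [C.val_cf]
    have e2 : C.val a s = inner ℂ η (L.lam s ξ) := by rw [ha, C.val_cf]
    rw [inner_neg_left, ← e1, ← e2]
    ring)
  rw [Fin.sum_univ_two] at this
  simp only [Matrix.cons_val_zero, Matrix.cons_val_one, inner_neg_left] at this
  linear_combination this

lemma fn_add {T : H →L[ℂ] H} (hT : T ∈ VN L) (a b : A) : fn C T (a + b) = fn C T a + fn C T b := by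
  obtain ⟨⟨x1, y1⟩, h1⟩ := exists_rep C a
  obtain ⟨⟨x2, y2⟩, h2⟩ := exists_rep C b
  obtain ⟨⟨x3, y3⟩, h3⟩ := exists_rep C (a + b)
  simp only at h1 h2 h3
  have e1 : fn C T a = inner ℂ y1 (T x1) := by rw [h1, fn_cf C hT]
  have e2 : fn C T b = inner ℂ y2 (T x2) := by rw [h2, fn_cf C hT]
  have e3 : fn C T (a + b) = inner ℂ y3 (T x3) := by rw [h3, fn_cf C hT]
  have := indep C hT ![x3, x1, x2] ![y3, -y1, -y2] (fun s => by
    rw [Fin.sum_univ_three]
    simp only [Matrix.cons_val_zero, Matrix.cons_val_one, Matrix.cons_val_two, Matrix.head_cons,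
      Matrix.tail_cons, C.val_cf, inner_neg_left]
    have f1 : C.val a s = inner ℂ y1 (L.lam s x1) := by rw [h1, C.val_cf]
    have f2 : C.val b s = inner ℂ y2 (L.lam s x2) := by rw [h2, C.val_cf]
    have f3 : C.val (a + b) s = inner ℂ y3 (L.lam s x3) := by rw [h3, C.val_cf]
    rw [C.val_add] at f3
    rw [← f1, ← f2, ← f3]
    ring)
  rw [Fin.sum_univ_three] at this
  simp only [Matrix.cons_val_zero, Matrix.cons_val_one, Matrix.cons_val_two, Matrix.head_cons,
      Matrix.tail_cons, inner_neg_left] at this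
  rw [e1, e2, e3]
  linear_combination this

lemma fn_smul {T : H →L[ℂ] H} (hT : T ∈ VN L) (c : ℂ) (a : A) :
    fn C T (c • a) = c * fn C T a := by
  obtain ⟨⟨x1, y1⟩, h1⟩ := exists_rep C a
  obtain ⟨⟨x3, y3⟩, h3⟩ := exists_rep C (c • a)
  simp only at h1 h3
  have e1 : fn C T a = inner ℂ y1 (T x1) := by rw [h1, fn_cf C hT]
  have e3 : fn C T (c • a) = inner ℂ y3 (T x3) := by rw [h3, fn_cf C hT]
  have := indep C hT ![x3, c • x1] ![y3, -y1] (fun s => by
    rw [Fin.sum_univ_two]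
    simp only [Matrix.cons_val_zero, Matrix.cons_val_one, C.val_cf, inner_neg_left, map_smul,
      inner_smul_right]
    have f1 : C.val a s = inner ℂ y1 (L.lam s x1) := by rw [h1, C.val_cf]
    have f3 : C.val (c • a) s = inner ℂ y3 (L.lam s x3) := by rw [h3, C.val_cf]
    rw [C.val_smul] at f3
    rw [← f1, ← f3]
    ring)
  rw [Fin.sum_univ_two] at this
  simp only [Matrix.cons_val_zero, Matrix.cons_val_one, inner_neg_left, map_smul,
      inner_smul_right] at this
  rw [e1, e3]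
  linear_combination this

lemma fn_norm {T : H →L[ℂ] H} (hT : T ∈ VN L) (h1 : ‖T‖ ≤ 1) (a : A) : ‖fn C T a‖ ≤ ‖a‖ := by
  refine le_of_forall_pos_le_add fun ε hε => ?_
  obtain ⟨ξ, η, h, hlt⟩ := C.approx a ε hε
  have e : fn C T a = inner ℂ η (T ξ) := by
    conv_lhs => rw [h]
    exact fn_cf C hT ξ η
  rw [e]
  calc ‖inner ℂ η (T ξ)‖ ≤ ‖η‖ * ‖T ξ‖ := norm_inner_le_norm _ _
    _ ≤ ‖η‖ * ‖ξ‖ := by
        refine mul_le_mul_of_nonneg_left ?_ (norm_nonneg _)
        calc ‖T ξ‖ ≤ ‖T‖ * ‖ξ‖ := T.le_opNorm ξ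
          _ ≤ 1 * ‖ξ‖ := mul_le_mul_of_nonneg_right h1 (norm_nonneg _)
          _ = ‖ξ‖ := one_mul _
    _ = ‖ξ‖ * ‖η‖ := mul_comm _ _
    _ ≤ ‖a‖ + ε := hlt.le

end Funct

open Funct

theorem funct : FUNCT_stm.{u, v, w} := by
  intro G _ H _ _ L A _ _ C R hR hR1
  set 𝒰 : Ultrafilter ℕ := hyperfilter ℕ with h𝒰
  have hle : (𝒰 : Filter ℕ) ≤ atTop := by
    rw [← Nat.cofinite_eq_atTop]
    exact hyperfilter_le_cofinite
  have hex : ∀ a : A, ∃ z : ℂ, ‖z‖ ≤ ‖a‖ ∧ Tendsto (fun K => fn C (R K) a) 𝒰 (𝓝 z) := by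
    intro a
    have hc := isCompact_closedBall (0 : ℂ) ‖a‖
    obtain ⟨z, hz, hz2⟩ := hc.ultrafilter_le_nhds (𝒰.map (fun K => fn C (R K) a)) (by
      rw [le_principal_iff]
      change ∀ᶠ K in (𝒰 : Filter ℕ), fn C (R K) a ∈ Metric.closedBall (0 : ℂ) ‖a‖
      refine Filter.Eventually.of_forall fun K => ?_
      simpa using fn_norm C (hR K) (hR1 K) a)
    exact ⟨z, by simpa using hz, hz2⟩
  choose F hF1 hF2 using hex
  have hadd : ∀ a b, F (a + b) = F a + F b := fun a b => by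
    refine tendsto_nhds_unique (hF2 (a + b)) ?_
    refine ((hF2 a).add (hF2 b)).congr fun K => ?_
    rw [fn_add C (hR K)]
  have hsmul : ∀ (c : ℂ) a, F (c • a) = c • F a := fun c a => by
    refine tendsto_nhds_unique (hF2 (c • a)) ?_
    refine ((hF2 a).const_mul c).congr fun K => ?_
    rw [fn_smul C (hR K)]
  let F0 : A →ₗ[ℂ] ℂ :=
    { toFun := F
      map_add' := hadd
      map_smul' := hsmul }
  refine ⟨F0.mkContinuous 1 (fun a => by simpa [F0] using hF1 a), fun ξ η c => ?_⟩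
  have e : (F0.mkContinuous 1 (fun a => by simpa [F0] using hF1 a)) (C.cf ξ η) = F (C.cf ξ η) := rfl
  rw [e]
  have ht : Tendsto (fun K => (inner ℂ η (R K ξ)).re) 𝒰 (𝓝 (F (C.cf ξ η)).re) := by
    refine ((Complex.continuous_re.tendsto _).comp (hF2 (C.cf ξ η))).congr fun K => ?_
    simp only [Function.comp]
    rw [fn_cf C (hR K)]
  exact ⟨fun h => ge_of_tendsto ht (hle h), fun h => le_of_tendsto ht (hle h)⟩

end N305.FA
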