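import Pool.Agent.N305.FA.Stm

set_option autoImplicit false

/-!
# HUMP: the gliding hump with an increasing sequence of operators (helper701)
-/

namespace N305.FA

open Filter Topology Finset

universe w

namespace Hump

section real

/-- the sum in the gliding hump -/
def hs (a : ℕ → ℝ) (K : ℕ) : ℝ := a 0 + ∑ j ∈ range K, (a (2 * j + 2) - a (2 * j + 1))

lemma hs_even {a : ℕ → ℝ} (ha : Monotone a) (h0 : 0 ≤ a 0) {l K : ℕ} (hlK : l ≤ K)
    (h1 : 7 / 8 ≤ a (2 * l)) (h2 : ∀ j, j < 2 * l → a j ≤ 1 / 8) : 3 / 4 ≤ hs a K := by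
  have hnn : ∀ j, 0 ≤ a (2 * j + 2) - a (2 * j + 1) := fun j =>
    sub_nonneg.2 (ha (by omega))
  unfold hs
  cases l with
  | zero =>
    have h3 : 0 ≤ ∑ j ∈ range K, (a (2 * j + 2) - a (2 * j + 1)) := sum_nonneg fun j _ => hnn j
    have h4 : a (2 * 0) = a 0 := rfl
    linarith
  | succ l =>
    have h3 : a (2 * l + 2) - a (2 * l + 1) ≤ ∑ j ∈ range K, (a (2 * j + 2) - a (2 * j + 1)) :=
      single_le_sum (f := fun j => a (2 * j + 2) - a (2 * j + 1)) (fun j _ => hnn j)
        (mem_range.2 (by omega))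
    have h4 : a (2 * (l + 1)) = a (2 * l + 2) := rfl
    have h5 := h2 (2 * l + 1) (by omega)
    linarith

lemma hs_le {a : ℕ → ℝ} (ha : Monotone a) (K : ℕ) : hs a K ≤ a (2 * K) := by
  induction K with
  | zero => simp [hs]
  | succ K ih =>
    unfold hs at ih ⊢
    rw [sum_range_succ]
    have h1 : a (2 * K) ≤ a (2 * K + 1) := ha (by omega)
    have h2 : a (2 * (K + 1)) = a (2 * K + 2) := rfl
    linarith

lemma hs_odd {a : ℕ → ℝ} (ha : Monotone a) {l K : ℕ} (hlK : l ≤ K) (hle : ∀ j, a j ≤ 1)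
    (h1 : a (2 * l) ≤ 1 / 8) (h2 : 7 / 8 ≤ a (2 * l + 1)) : hs a K ≤ 1 / 4 := by
  obtain ⟨d, rfl⟩ := Nat.exists_eq_add_of_le hlK
  cases d with
  | zero =>
    have := hs_le ha l
    show hs a l ≤ 1 / 4
    linarith
  | succ d =>
    have key : ∀ d, hs a (l + d + 1) ≤ 1 / 8 + a (2 * (l + d + 1)) - a (2 * l + 1) := by
      intro d
      induction d with
      | zero =>
        have h3 := hs_le ha l
        show hs a (l + 1) ≤ 1 / 8 + a (2 * (l + 1)) - a (2 * l + 1)
        unfold hs at h3 ⊢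
        rw [sum_range_succ]
        have h4 : a (2 * (l + 1)) = a (2 * l + 2) := rfl
        linarith
      | succ d ih =>
        have e : l + (d + 1) + 1 = (l + d + 1) + 1 := by omega
        rw [e]
        set M := l + d + 1 with hM
        unfold hs at ih ⊢
        rw [sum_range_succ]
        have h3 : a (2 * M) ≤ a (2 * M + 1) := ha (by omega)
        have h4 : a (2 * (M + 1)) = a (2 * M + 2) := rfl
        linarith
    have h3 := key d
    have h4 := hle (2 * (l + d + 1))
    have e : l + (d + 1) = l + d + 1 := by omega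
    rw [e]
    linarith

end real

variable {H : Type w} [NormedAddCommGroup H] [InnerProductSpace ℂ H]

/-- the quadratic form -/
noncomputable def qf (x : H) (S : H →L[ℂ] H) : ℝ := (inner ℂ x (S x)).re

lemma qf_add (x : H) (S T : H →L[ℂ] H) : qf x (S + T) = qf x S + qf x T := by
  simp [qf]

lemma qf_sub (x : H) (S T : H →L[ℂ] H) : qf x (S - T) = qf x S - qf x T := by
  simp [qf]

lemma qf_sum (x : H) (f : ℕ → H →L[ℂ] H) (K : ℕ) :
    qf x (∑ j ∈ range K, f j) = ∑ j ∈ range K, qf x (f j) := by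
  induction K with
  | zero => simp [qf]
  | succ K ih => rw [sum_range_succ, sum_range_succ, qf_add, ih]

lemma qf_nonneg (x : H) {S : H →L[ℂ] H} (hS : S.IsPositive) : 0 ≤ qf x S :=
  hS.re_inner_nonneg_right x

lemma qf_one {x : H} (hx : ‖x‖ = 1) : qf x (1 : H →L[ℂ] H) = 1 := by
  have h1 : qf x (1 : H →L[ℂ] H) = (inner ℂ x x).re := rfl
  rw [h1, inner_self_eq_norm_sq_to_K, hx]
  simp

/-- the operators of the gliding hump -/
noncomputable def RR (τ : ℕ → H →L[ℂ] H) (K : ℕ) : H →L[ℂ] H :=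
  τ 0 + ∑ j ∈ range K, (τ (2 * j + 2) - τ (2 * j + 1))

lemma qf_RR (x : H) (τ : ℕ → H →L[ℂ] H) (K : ℕ) : qf x (RR τ K) = hs (fun j => qf x (τ j)) K := by
  unfold RR hs
  rw [qf_add, qf_sum]
  simp only [qf_sub]

lemma RR_pos {τ : ℕ → H →L[ℂ] H} (h0 : (τ 0).IsPositive)
    (hm : ∀ j k, j ≤ k → (τ k - τ j).IsPositive) (K : ℕ) :
    (RR τ K).IsPositive ∧ (τ (2 * K) - RR τ K).IsPositive := by
  induction K with
  | zero =>
    have e1 : RR τ 0 = τ 0 := by simp [RR]
    have e2 : τ (2 * 0) - RR τ 0 = 0 := by rw [e1]; exact sub_self _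
    rw [e2, e1]
    exact ⟨h0, ContinuousLinearMap.isPositive_zero⟩
  | succ K ih =>
    have e1 : RR τ (K + 1) = RR τ K + (τ (2 * K + 2) - τ (2 * K + 1)) := by
      unfold RR
      rw [sum_range_succ, add_assoc]
    refine ⟨?_, ?_⟩
    · rw [e1]
      exact ih.1.add (hm _ _ (by omega))
    · have e2 : τ (2 * (K + 1)) - RR τ (K + 1) =
          (τ (2 * K + 1) - τ (2 * K)) + (τ (2 * K) - RR τ K) := by
        rw [e1]
        have : τ (2 * (K + 1)) = τ (2 * K + 2) := rfl
        rw [this]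
        abel
      rw [e2]
      exact (hm _ _ (by omega)).add ih.2

end Hump

open Hump

theorem hump : HUMP_stm.{w} := by
  intro H _ _ _ v T hv hT P hP
  -- monotonicity
  have hmono : ∀ j k, j ≤ k → (T k - T j).IsPositive := by
    intro j k hjk
    obtain ⟨d, rfl⟩ := Nat.exists_eq_add_of_le hjk
    induction d with
    | zero =>
      have : T (j + 0) - T j = 0 := sub_self _
      rw [this]
      exact ContinuousLinearMap.isPositive_zero
    | succ d ih =>
      have e : T (j + (d + 1)) - T j = (T (j + d + 1) - T (j + d)) + (T (j + d) - T j) := by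
        have : T (j + (d + 1)) = T (j + d + 1) := rfl
        rw [this]
        abel
      rw [e]
      exact (hT.mono _).add (ih (by omega))
  have hu : ∀ m k, (inner ℂ (v m) (T k (v m))).re = qf (v m) (T k) := fun _ _ => rfl
  have umono : ∀ m, Monotone fun k => qf (v m) (T k) := by
    intro m j k hjk
    have := qf_nonneg (v m) (hmono j k hjk)
    rw [qf_sub] at this
    show qf (v m) (T j) ≤ qf (v m) (T k)
    linarith
  -- the choice
  have hch : ∀ p : ℕ × ℕ, ∃ p' : ℕ × ℕ, p.1 < p'.1 ∧ p.2 < p'.2 ∧ qf (v p'.1) (T p.2) ≤ 1 / 8 ∧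
      7 / 8 ≤ qf (v p'.1) (T p'.2) := by
    intro p
    obtain ⟨m, hm1, hm2⟩ := (((hT.lim0 p.2).eventually_le_const
      (by norm_num : (0 : ℝ) < 1 / 8)).and (eventually_gt_atTop p.1)).exists
    obtain ⟨k, hk1, hk2⟩ := (((hT.lim1 m).eventually_const_le
      (by norm_num : (7 / 8 : ℝ) < 1)).and (eventually_gt_atTop p.2)).exists
    exact ⟨(m, k), hm2, hk2, hm1, hk1⟩
  choose nx hnx1 hnx2 hnx3 hnx4 using hch
  obtain ⟨k0, hk0⟩ := ((hT.lim1 0).eventually_const_le (by norm_num : (7 / 8 : ℝ) < 1)).exists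
  let p : ℕ → ℕ × ℕ := fun i => Nat.rec (0, k0) (fun _ q => nx q) i
  have p0 : p 0 = (0, k0) := rfl
  have ps : ∀ i, p (i + 1) = nx (p i) := fun _ => rfl
  set mS : ℕ → ℕ := fun i => (p i).1 with hmS
  set kS : ℕ → ℕ := fun i => (p i).2 with hkS
  have sm : StrictMono mS := strictMono_nat_of_lt_succ fun i => by
    show (p i).1 < (p (i + 1)).1
    rw [ps]
    exact hnx1 _
  have sk : StrictMono kS := strictMono_nat_of_lt_succ fun i => by
    show (p i).2 < (p (i + 1)).2
    rw [ps]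
    exact hnx2 _
  have big : ∀ i j, i ≤ j → 7 / 8 ≤ qf (v (mS i)) (T (kS j)) := by
    intro i j hij
    have h1 : 7 / 8 ≤ qf (v (mS i)) (T (kS i)) := by
      cases i with
      | zero => exact hk0
      | succ i =>
        show 7 / 8 ≤ qf (v (p (i + 1)).1) (T (p (i + 1)).2)
        rw [ps]
        exact hnx4 _
    exact h1.trans (umono (mS i) (sk.monotone hij))
  have small : ∀ i j, j < i → qf (v (mS i)) (T (kS j)) ≤ 1 / 8 := by
    intro i j hij
    obtain ⟨i', rfl⟩ := Nat.exists_eq_succ_of_ne_zero (by omega : i ≠ 0)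
    have h1 : qf (v (mS (i' + 1))) (T (kS i')) ≤ 1 / 8 := by
      show qf (v (p (i' + 1)).1) (T (p i').2) ≤ 1 / 8
      rw [ps]
      exact hnx3 _
    exact (umono (mS (i' + 1)) (sk.monotone (by omega : j ≤ i'))).trans h1
  set τ : ℕ → H →L[ℂ] H := fun j => T (kS j) with hτ
  have τmono : ∀ j k, j ≤ k → (τ k - τ j).IsPositive := fun j k hjk =>
    hmono _ _ (sk.monotone hjk)
  have hRp := RR_pos (τ := τ) (hT.pos _) τmono
  refine ⟨fun i => mS (2 * i), fun i => mS (2 * i + 1), RR τ, ?_, ?_, ?_, ?_, ?_, ?_⟩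
  · intro i j hij
    have h1 : 2 * i < 2 * j := by omega
    have h2 := @sm (2 * i) (2 * j) h1
    exact h2
  · intro i j hij
    have h1 : 2 * i + 1 < 2 * j + 1 := by omega
    have h2 := @sm (2 * i + 1) (2 * j + 1) h1
    exact h2
  · intro K
    unfold RR
    exact P.add_mem (hP _) (P.sum_mem fun j _ => P.sub_mem (hP _) (hP _))
  · intro K
    have h1 : (0 : H →L[ℂ] H) ≤ RR τ K := (ContinuousLinearMap.nonneg_iff_isPositive _).2 (hRp K).1
    rw [CStarAlgebra.norm_le_one_iff_of_nonneg (RR τ K) h1, ContinuousLinearMap.le_def]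
    have e : (1 : H →L[ℂ] H) - RR τ K = (1 - τ (2 * K)) + (τ (2 * K) - RR τ K) := by abel
    rw [e]
    exact (hT.le_one _).add (hRp K).2
  · intro i
    filter_upwards [eventually_ge_atTop i] with K hK
    show 3 / 4 ≤ qf (v (mS (2 * i))) (RR τ K)
    rw [qf_RR]
    refine hs_even ?_ ?_ hK (big (2 * i) (2 * i) le_rfl) (fun j hj => small _ _ hj)
    · intro j k hjk
      exact umono _ (sk.monotone hjk)
    · exact qf_nonneg _ (hT.pos _)
  · intro i
    filter_upwards [eventually_ge_atTop i] with K hK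
    show qf (v (mS (2 * i + 1))) (RR τ K) ≤ 1 / 4
    rw [qf_RR]
    refine hs_odd (l := i) ?_ hK ?_ (small (2 * i + 1) (2 * i) (by omega)) (big (2 * i + 1) (2 * i + 1) le_rfl)
    · intro j k hjk
      exact umono _ (sk.monotone hjk)
    · intro j
      have h1 := qf_nonneg (v (mS (2 * i + 1))) (hT.le_one (kS j))
      rw [qf_sub, qf_one (hv _)] at h1
      show qf (v (mS (2 * i + 1))) (T (kS j)) ≤ 1
      linarith

end N305.FA
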