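import Pool.Agent.N305.FA.Stm

set_option autoImplicit false
set_option linter.unusedSectionVars false

/-!
# Project FA, piece INCR: the increasing sequence
-/

namespace N305.FA

open Filter Topology

universe u v w

section

variable {H : Type w} [NormedAddCommGroup H] [InnerProductSpace ℂ H] [CompleteSpace H]

lemma pos_one_sub {T : H →L[ℂ] H} (hT : T.IsPositive) (hn : ‖T‖ < 1) : (1 - T).IsPositive := by
  rw [ContinuousLinearMap.isPositive_def']
  refine ⟨(IsSelfAdjoint.one _).sub hT.isSelfAdjoint, fun x => ?_⟩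
  rw [ContinuousLinearMap.reApplyInnerSelf_apply]
  have e : (1 - T) x = x - T x := rfl
  rw [e, inner_sub_left, map_sub, inner_self_eq_norm_sq]
  have h1 : RCLike.re (inner ℂ (T x) x) ≤ ‖T x‖ * ‖x‖ := re_inner_le_norm _ _
  have h2 : ‖T x‖ ≤ ‖T‖ * ‖x‖ := T.le_opNorm x
  have h3 : 0 ≤ ‖x‖ := norm_nonneg x
  nlinarith [mul_le_mul_of_nonneg_right h2 h3, mul_nonneg h3 h3]

lemma re_mono {S T : H →L[ℂ] H} (h : (T - S).IsPositive) (x : H) :
    (inner ℂ x (S x)).re ≤ (inner ℂ x (T x)).re := by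
  have h1 := h.re_inner_nonneg_right x
  have e : (T - S) x = T x - S x := rfl
  rw [e, inner_sub_right, map_sub] at h1
  have h2 : RCLike.re (inner ℂ x (T x)) = (inner ℂ x (T x)).re := rfl
  have h3 : RCLike.re (inner ℂ x (S x)) = (inner ℂ x (S x)).re := rfl
  rw [h2, h3] at h1
  linarith

/-- INCR -/
theorem incr (h1 : BSUB_stm.{u, w}) (h2 : DIR_stm.{w}) : INCR_stm.{u, w} := by
  intro G _ H _ _ _ L v hv hS
  obtain ⟨B, hBc, hB⟩ := h1 G H L v fun m => (hv m).le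
  have hS' : ∀ k : ℕ, ∃ S : H →L[ℂ] H, S ∈ B ∧ S.IsPositive ∧ ‖S‖ < 1 ∧
      ∀ j < k + 1, 1 - 1 / ((k : ℝ) + 1) ≤ (inner ℂ (v j) (S (v j))).re := by
    intro k
    obtain ⟨S, s1, s2, s3, s4, s5⟩ := hS (k + 1) (1 / ((k : ℝ) + 1)) (by positivity)
    refine ⟨S, (hB S).2 ⟨s1, s5, ?_⟩, s2, s3, s4⟩
    have : star S = S := s2.isSelfAdjoint
    rw [this]
    exact s5
  choose S hSB hSp hSn hSv using hS'
  have step : ∀ (k : ℕ) (T : {T : H →L[ℂ] H // T ∈ B ∧ T.IsPositive ∧ ‖T‖ < 1}),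
      ∃ T' : {T : H →L[ℂ] H // T ∈ B ∧ T.IsPositive ∧ ‖T‖ < 1},
        (T'.1 - T.1).IsPositive ∧ (T'.1 - S (k + 1)).IsPositive := by
    intro k T
    obtain ⟨R, r1, r2, r3, r4, r5⟩ := h2 H B hBc T.1 (S (k + 1)) T.2.1 (hSB _) T.2.2.1 (hSp _)
      T.2.2.2 (hSn _)
    exact ⟨⟨R, r1, r2, r3⟩, r4, r5⟩
  choose nx hnx1 hnx2 using step
  obtain ⟨T, hT0, hTs⟩ : ∃ T : ℕ → {T : H →L[ℂ] H // T ∈ B ∧ T.IsPositive ∧ ‖T‖ < 1},
      (T 0).1 = S 0 ∧ ∀ k, T (k + 1) = nx k (T k) :=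
    ⟨fun k => Nat.rec ⟨S 0, hSB 0, hSp 0, hSn 0⟩ (fun k T => nx k T) k, rfl, fun k => rfl⟩
  have hTS : ∀ k, ((T k).1 - S k).IsPositive := by
    intro k
    cases k with
    | zero =>
      rw [hT0, sub_self]
      exact ContinuousLinearMap.isPositive_zero
    | succ k =>
      rw [hTs]
      exact hnx2 k (T k)
  have hup : ∀ k m, (inner ℂ (v m) ((T k).1 (v m))).re ≤ 1 := by
    intro k m
    have h3 := re_mono (pos_one_sub (T k).2.2.1 (T k).2.2.2) (v m)
    have h4 : RCLike.re (inner ℂ (v m) ((T k).1 (v m))) ≤ ‖v m‖ * ‖(T k).1 (v m)‖ :=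
      re_inner_le_norm _ _
    have h5 := (T k).1.le_opNorm (v m)
    rw [hv m, mul_one] at h5
    rw [hv m, one_mul] at h4
    exact h4.trans (h5.trans (T k).2.2.2.le)
  refine ⟨fun k => (T k).1, fun k => ((hB _).1 (T k).2.1).1, fun k => (T k).2.2.1,
    fun k => pos_one_sub (T k).2.2.1 (T k).2.2.2, fun k => ?_, fun k => ?_, fun m => ?_⟩
  · rw [hTs]
    exact hnx1 k (T k)
  · have h3 := ((hB _).1 (T k).2.1).2.1
    refine squeeze_zero_norm (fun m => ?_) (tendsto_norm_zero.comp h3)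
    rw [Real.norm_eq_abs]
    refine (Complex.abs_re_le_norm _).trans ?_
    refine (norm_inner_le_norm _ _).trans ?_
    rw [hv m, one_mul]
    rfl
  · have h4 : Tendsto (fun k : ℕ => 1 - 1 / ((k : ℝ) + 1)) atTop (𝓝 1) := by
      have := (tendsto_const_nhds (x := (1 : ℝ))).sub
        (tendsto_one_div_add_atTop_nhds_zero_nat (𝕜 := ℝ))
      simpa using this
    refine tendsto_of_tendsto_of_tendsto_of_le_of_le' h4 tendsto_const_nhds ?_
      (Eventually.of_forall fun k => hup k m)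
    filter_upwards [eventually_ge_atTop m] with k hk
    exact (hSv k m (by omega)).trans (re_mono (hTS k) (v m))

end

end N305.FA
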