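import Pool.Agent.N305.FA.Stm

set_option autoImplicit false

/-!
# Project FA (helper305), part MODD: the discrete case (helper263)
-/

namespace N305.FA

open MeasureTheory Filter Topology ComplexConjugate

universe u v

namespace ModD

section

variable (G : Type u) [Group G] [TopologicalSpace G] [IsTopologicalGroup G]
  [LocallyCompactSpace G] [T2Space G] [MeasurableSpace G] [BorelSpace G] [DiscreteTopology G]

/-- the mass of a point -/
noncomputable def c0 : ENNReal := (Measure.haar : Measure G) {1}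

lemma c0_ne_zero : c0 G ≠ 0 :=
  (isOpen_discrete ({1} : Set G)).measure_ne_zero _ (Set.singleton_nonempty 1)

lemma c0_ne_top : c0 G ≠ ⊤ := isCompact_singleton.measure_ne_top

lemma haar_singleton (x : G) : (Measure.haar : Measure G) {x} = c0 G := by
  unfold c0
  rw [← measure_preimage_mul (Measure.haar : Measure G) x {x}]
  congr 1
  ext y
  simp

lemma haar_finset (t : Finset G) : (Measure.haar : Measure G) (t : Set G) = c0 G * t.card := by
  rw [← MeasureTheory.sum_measure_singleton]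
  simp only [haar_singleton, Finset.sum_const, nsmul_eq_mul]
  rw [mul_comm]

lemma haar_eq : (Measure.haar : Measure G) = c0 G • Measure.count := by
  ext s hs
  rw [Measure.smul_apply, smul_eq_mul]
  by_cases hf : s.Finite
  · have h1 : s = ((hf.toFinset : Finset G) : Set G) := by simp
    rw [h1, haar_finset, Measure.count_apply_finset]
  · have hinf : s.Infinite := hf
    rw [Measure.count_apply_infinite hinf, ENNReal.mul_top (c0_ne_zero G)]
    by_contra hne
    obtain ⟨n, hn⟩ := ENNReal.exists_nat_gt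
      (ENNReal.div_ne_top hne (c0_ne_zero G) : (Measure.haar : Measure G) s / c0 G ≠ ⊤)
    obtain ⟨t, hts, htc⟩ := hinf.exists_subset_card_eq n
    have h2 : c0 G * n ≤ (Measure.haar : Measure G) s := by
      rw [← htc, ← haar_finset]
      exact measure_mono hts
    rw [ENNReal.div_lt_iff (Or.inl (c0_ne_zero G)) (Or.inl (c0_ne_top G))] at hn
    rw [mul_comm] at hn
    exact absurd h2 (not_le.2 hn)

/-- the mass of a point as a real number -/
noncomputable def cR : ℝ := (c0 G).toReal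

lemma cR_pos : 0 < cR G := ENNReal.toReal_pos (c0_ne_zero G) (c0_ne_top G)

variable {G}

lemma aesm (ξ : G → ℂ) (μ : Measure G) : AEStronglyMeasurable ξ μ :=
  (continuous_of_discreteTopology (f := ξ)).measurable.aestronglyMeasurable

lemma integral_haar {E : Type*} [NormedAddCommGroup E] [NormedSpace ℝ E] [CompleteSpace E]
    (F : G → E) (hF : Summable fun x => ‖F x‖) :
    ∫ x, F x ∂(Measure.haar : Measure G) = cR G • ∑' x, F x := by
  rw [haar_eq, integral_smul_measure]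
  congr 1
  have h1 : Integrable F (Measure.count : Measure G) := integrable_count_iff.2 hF
  unfold Measure.count at h1 ⊢
  rw [integral_sum_measure h1]
  exact tsum_congr fun x => integral_dirac _ _

lemma L2_iff_summable (ξ : G → ℂ) : L2 ξ ↔ Summable fun x => ‖ξ x‖ ^ 2 := by
  unfold L2
  rw [memLp_two_iff_integrable_sq_norm (aesm ξ _), haar_eq,
    integrable_smul_measure (c0_ne_zero G) (c0_ne_top G), integrable_count_iff]
  simp

lemma L2_iff (ξ : G → ℂ) : L2 ξ ↔ Memℓp ξ (2 : ENNReal) := by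
  rw [L2_iff_summable, memℓp_gen_iff (by norm_num)]
  simp

lemma nrm2_eq (ξ : HD G) : nrm2 (ξ : G → ℂ) = √(cR G) * ‖ξ‖ := by
  have hL : L2 (ξ : G → ℂ) := (L2_iff _).2 (lp.memℓp ξ)
  have hs := (L2_iff_summable _).1 hL
  have h1 : nrm2 (ξ : G → ℂ) = (∫ x, ‖(ξ : G → ℂ) x‖ ^ 2 ∂(Measure.haar : Measure G)) ^ ((2:ℝ)⁻¹) := by
    unfold nrm2
    rw [MemLp.eLpNorm_eq_integral_rpow_norm (by norm_num) (by norm_num) hL,
      ENNReal.toReal_ofReal (by positivity)]
    simp
  rw [h1, integral_haar _ (by simpa using hs), smul_eq_mul,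
    Real.mul_rpow (cR_pos G).le (tsum_nonneg fun x => by positivity),
    lp.norm_eq_tsum_rpow (by norm_num)]
  rw [Real.sqrt_eq_rpow]
  norm_num

lemma coef_eq (ξ η : HD G) (s : G) :
    coef (ξ : G → ℂ) (η : G → ℂ) s = cR G * inner ℂ η (dlam s ξ) := by
  unfold coef
  have h1 : Summable fun x => inner ℂ ((η : G → ℂ) x) ((dlam s ξ : G → ℂ) x) :=
    lp.summable_inner η (dlam s ξ)
  have h2 : ∀ x, inner ℂ ((η : G → ℂ) x) ((dlam s ξ : G → ℂ) x) =
      (ξ : G → ℂ) (s⁻¹ * x) * conj ((η : G → ℂ) x) := by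
    intro x
    rw [dlam_apply, RCLike.inner_apply]
  simp only [h2] at h1
  rw [integral_haar _ h1.norm, lp.inner_eq_tsum, Complex.real_smul]
  simp only [h2]

lemma coef_smul (r : ℝ) (ξ η : HD G) (s : G) :
    coef (((r : ℂ) • ξ : HD G) : G → ℂ) (((r : ℂ) • η : HD G) : G → ℂ) s =
      (r * r * cR G : ℝ) * inner ℂ η (dlam s ξ) := by
  rw [coef_eq, map_smul, inner_smul_left, inner_smul_right, Complex.conj_ofReal]
  push_cast
  ring

end

end ModD

open ModD in
/-- MODD -/
theorem modd : MODD_stm.{u, v} := by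
  intro G _ _ _ _ _ _ _ _ A _ _ M
  have hc := cR_pos G
  set c := cR G with hcdef
  have hsc : 0 < √c := Real.sqrt_pos.2 hc
  have hr : (√c)⁻¹ * (√c)⁻¹ * c = 1 := by
    have := Real.mul_self_sqrt hc.le
    field_simp
    nlinarith
  have hex : ∀ ξ η : HD G, ∃ a, M.val a = coef (((((√c)⁻¹ : ℝ) : ℂ) • ξ : HD G) : G → ℂ)
      (((((√c)⁻¹ : ℝ) : ℂ) • η : HD G) : G → ℂ) := fun ξ η =>
    (M.mem_iff _).2 ⟨_, _, (L2_iff _).2 (lp.memℓp _), (L2_iff _).2 (lp.memℓp _), rfl⟩
  choose cf hcf using hex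
  have hval : ∀ ξ η s, M.val (cf ξ η) s = inner ℂ η ((dRep G).lam s ξ) := by
    intro ξ η s
    rw [hcf, coef_smul, ← hcdef, hr]
    simp [dRep]
  have hbdd : ∀ a, BddBelow {r : ℝ | ∃ ξ η : G → ℂ, L2 ξ ∧ L2 η ∧ M.val a = coef ξ η ∧
      r = nrm2 ξ * nrm2 η} := by
    intro a
    refine ⟨0, ?_⟩
    rintro r ⟨ξ, η, _, _, _, rfl⟩
    unfold nrm2
    positivity
  refine ⟨⟨M.val, M.val_inj, M.val_add, M.val_smul, M.val_mul, cf, hval, ?_, ?_⟩, rfl⟩
  · intro ξ η
    rw [M.norm_eq]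
    refine csInf_le (hbdd _) ⟨_, _, (L2_iff _).2 (lp.memℓp _), (L2_iff _).2 (lp.memℓp _), hcf ξ η, ?_⟩
    rw [nrm2_eq, nrm2_eq, norm_smul, norm_smul, Complex.norm_real, Real.norm_eq_abs,
      abs_of_pos (inv_pos.2 hsc), ← hcdef]
    field_simp
  · intro a ε hε
    have hne : {r : ℝ | ∃ ξ η : G → ℂ, L2 ξ ∧ L2 η ∧ M.val a = coef ξ η ∧
        r = nrm2 ξ * nrm2 η}.Nonempty := by
      obtain ⟨ξ, η, h1, h2, h3⟩ := (M.mem_iff (M.val a)).1 ⟨a, rfl⟩
      exact ⟨_, ξ, η, h1, h2, h3, rfl⟩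
    obtain ⟨r, ⟨ξ, η, h1, h2, h3, rfl⟩, hlt⟩ := exists_lt_of_csInf_lt hne
      (show _ < ‖a‖ + ε by rw [← M.norm_eq]; linarith)
    let ξ' : HD G := ⟨ξ, (L2_iff ξ).1 h1⟩
    let η' : HD G := ⟨η, (L2_iff η).1 h2⟩
    refine ⟨((√c : ℝ) : ℂ) • ξ', ((√c : ℝ) : ℂ) • η', ?_, ?_⟩
    · apply M.val_inj
      funext s
      rw [hval, h3]
      have h4 := coef_eq ξ' η' s
      change coef ξ η s = _ at h4
      rw [h4]
      change _ = inner ℂ (((√c : ℝ) : ℂ) • η') (dlam s (((√c : ℝ) : ℂ) • ξ'))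
      rw [map_smul, inner_smul_left, inner_smul_right, Complex.conj_ofReal, ← mul_assoc,
        ← Complex.ofReal_mul, Real.mul_self_sqrt hc.le]
    · have h5 := nrm2_eq ξ'
      have h6 := nrm2_eq η'
      change nrm2 ξ = _ at h5
      change nrm2 η = _ at h6
      rw [h5, h6] at hlt
      rw [norm_smul, norm_smul, Complex.norm_real, Real.norm_eq_abs, abs_of_pos hsc]
      exact hlt

end N305.FA
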