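import Pool.Agent.N305.FA.Stm

set_option autoImplicit false
set_option linter.unusedSectionVars false

/-!
# The Fourier algebra as an algebra of coefficients of the regular representation (owner helper433)
-/

namespace N305.FA

open MeasureTheory Filter Topology ComplexConjugate

universe u v

section

variable {G : Type u} [Group G] [TopologicalSpace G] [IsTopologicalGroup G]
  [LocallyCompactSpace G] [T2Space G] [MeasurableSpace G] [BorelSpace G]

/-- the coefficient depends only on the classes -/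
lemma coef_congr {ξ ξ' η η' : G → ℂ} (h1 : ξ =ᵐ[(Measure.haar : Measure G)] ξ')
    (h2 : η =ᵐ[(Measure.haar : Measure G)] η') : coef ξ η = coef ξ' η' := by
  funext s
  unfold coef
  have h3 := (measurePreserving_mul_left (Measure.haar : Measure G)
    s⁻¹).quasiMeasurePreserving.ae_eq_comp h1
  refine integral_congr_ae ?_
  filter_upwards [h2, h3] with x hx hx3
  simp only [Function.comp] at hx3
  rw [hx, hx3]

/-- the coefficient of two classes -/
lemma coef_inner (ξ η : HG G) (s : G) :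
    coef (ξ : G → ℂ) (η : G → ℂ) s = inner ℂ η (rlam s ξ) := by
  rw [L2.inner_def]
  unfold coef
  refine integral_congr_ae ?_
  filter_upwards [coeFn_rlam s ξ] with x hx
  rw [hx, RCLike.inner_apply]

lemma nrm2_coe (ξ : HG G) : nrm2 (ξ : G → ℂ) = ‖ξ‖ := (Lp.norm_def ξ).symm

lemma nrm2_nonneg (ξ : G → ℂ) : 0 ≤ nrm2 ξ := ENNReal.toReal_nonneg

end

/-- **MODEL** -/
theorem model : MODEL_stm.{u, v} := by
  intro G _ _ _ _ _ _ _ A _ _ M
  have hex : ∀ ξ η : HG G, ∃ a, M.val a = coef (ξ : G → ℂ) (η : G → ℂ) := fun ξ η =>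
    (M.mem_iff _).2 ⟨ξ, η, Lp.memLp ξ, Lp.memLp η, rfl⟩
  choose cf hcf using hex
  refine ⟨{ val := M.val
            val_inj := M.val_inj
            val_add := M.val_add
            val_smul := M.val_smul
            val_mul := M.val_mul
            cf := cf
            val_cf := fun ξ η s => ?_
            norm_cf := fun ξ η => ?_
            approx := fun a ε hε => ?_ }, rfl⟩
  · rw [hcf, coef_inner]
    rfl
  · rw [M.norm_eq]
    refine csInf_le ⟨0, ?_⟩ ⟨ξ, η, Lp.memLp ξ, Lp.memLp η, hcf ξ η, ?_⟩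
    · rintro r ⟨ξ', η', _, _, _, rfl⟩
      exact mul_nonneg (nrm2_nonneg _) (nrm2_nonneg _)
    · rw [nrm2_coe, nrm2_coe]
  · have h1 := M.norm_eq a
    have hne : {r : ℝ | ∃ ξ η : G → ℂ, L2 ξ ∧ L2 η ∧ M.val a = coef ξ η ∧
        r = nrm2 ξ * nrm2 η}.Nonempty := by
      obtain ⟨ξ, η, h2, h3, h4⟩ := (M.mem_iff (M.val a)).1 ⟨a, rfl⟩
      exact ⟨_, ξ, η, h2, h3, h4, rfl⟩
    obtain ⟨r, ⟨ξ, η, h2, h3, h4, rfl⟩, hr⟩ := exists_lt_of_csInf_lt hne
      (b := ‖a‖ + ε) (by rw [← h1]; linarith)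
    have h5 : MemLp ξ 2 (Measure.haar : Measure G) := h2
    have h6 : MemLp η 2 (Measure.haar : Measure G) := h3
    refine ⟨h5.toLp ξ, h6.toLp η, ?_, ?_⟩
    · apply M.val_inj
      rw [hcf, h4]
      exact coef_congr h5.coeFn_toLp.symm h6.coeFn_toLp.symm
    · rw [Lp.norm_toLp, Lp.norm_toLp]
      exact hr

end N305.FA
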