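import Pool.Agent.N305.FA.Stm

set_option autoImplicit false
set_option linter.unusedSectionVars false

/-!
# OPA: the operator `λ(ψ)`
-/

namespace N305.FA

open MeasureTheory Filter Topology H434R3.Arens ComplexConjugate

universe u v w

theorem norm_rlam327 {G : Type u} [Group G] [TopologicalSpace G] [IsTopologicalGroup G]
    [LocallyCompactSpace G] [T2Space G] [MeasurableSpace G] [BorelSpace G] (s : G) (ξ : HG G) :
    ‖rlam s ξ‖ = ‖ξ‖ :=
  (Lp.compMeasurePreservingₗᵢ ℂ (fun x => s⁻¹ * x)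
    (measurePreserving_mul_left (Measure.haar : Measure G) s⁻¹)).norm_map ξ

theorem opA (h : RCONT_stm.{u}) : OPA_stm.{u} := by
  intro G _ _ _ _ _ _ _ ψ hψ hs h0 h1
  have hc : ∀ ξ : HG G, Continuous fun s => (ψ s : ℂ) • rlam s ξ := fun ξ =>
    (Complex.continuous_ofReal.comp hψ).smul (h G ξ)
  have hcs : ∀ ξ : HG G, HasCompactSupport fun s => (ψ s : ℂ) • rlam s ξ := fun ξ =>
    (hs.comp_left (g := fun x : ℝ => (x : ℂ)) (by simp)).smul_right
  have hi : ∀ ξ : HG G, Integrable (fun s => (ψ s : ℂ) • rlam s ξ) (Measure.haar : Measure G) :=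
    fun ξ => (hc ξ).integrable_of_hasCompactSupport (hcs ξ)
  let T₀ : HG G →ₗ[ℂ] HG G :=
    { toFun := fun ξ => ∫ s, (ψ s : ℂ) • rlam s ξ ∂(Measure.haar : Measure G)
      map_add' := by
        intro ξ η
        rw [← integral_add (hi ξ) (hi η)]
        refine integral_congr_ae (Eventually.of_forall fun s => ?_)
        show (ψ s : ℂ) • rlam s (ξ + η) = (ψ s : ℂ) • rlam s ξ + (ψ s : ℂ) • rlam s η
        rw [map_add, smul_add]
      map_smul' := by
        intro c ξ
        rw [RingHom.id_apply, ← integral_smul]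
        refine integral_congr_ae (Eventually.of_forall fun s => ?_)
        show (ψ s : ℂ) • rlam s (c • ξ) = c • (ψ s : ℂ) • rlam s ξ
        rw [map_smul, smul_comm] }
  have hb : ∀ ξ, ‖T₀ ξ‖ ≤ 1 * ‖ξ‖ := by
    intro ξ
    refine (norm_integral_le_integral_norm _).trans ?_
    have h2 : ∀ s, ‖(ψ s : ℂ) • rlam s ξ‖ = ψ s * ‖ξ‖ := by
      intro s
      rw [norm_smul, Complex.norm_real, Real.norm_of_nonneg (h0 s), norm_rlam327]
    simp_rw [h2]
    rw [integral_mul_const, h1]
  have hin : ∀ ξ η : HG G, inner ℂ η (T₀.mkContinuous 1 hb ξ) =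
      ∫ s, (ψ s : ℂ) * inner ℂ η (rlam s ξ) ∂(Measure.haar : Measure G) := by
    intro ξ η
    rw [LinearMap.mkContinuous_apply]
    show inner ℂ η (∫ s, (ψ s : ℂ) • rlam s ξ ∂(Measure.haar : Measure G)) = _
    rw [← integral_inner (hi ξ) η]
    refine integral_congr_ae (Eventually.of_forall fun s => ?_)
    show inner ℂ η ((ψ s : ℂ) • rlam s ξ) = _
    rw [inner_smul_right]
  refine ⟨T₀.mkContinuous 1 hb, ?_, LinearMap.mkContinuous_norm_le _ (by norm_num) hb, hin⟩
  rw [mem_VN]
  intro n ξ η hz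
  simp_rw [hin]
  rw [← integral_finset_sum]
  · have h3 : ∀ s, ∑ i, (ψ s : ℂ) * inner ℂ (η i) (rlam s (ξ i)) = 0 := by
      intro s
      rw [← Finset.mul_sum]
      have := hz s
      rw [show (∑ i, inner ℂ (η i) (rlam s (ξ i))) = 0 from this, mul_zero]
    simp_rw [h3]
    exact integral_zero _ _
  · intro i _
    have := (hi (ξ i)).const_inner (𝕜 := ℂ) (η i)
    refine this.congr (Eventually.of_forall fun s => ?_)
    show inner ℂ (η i) ((ψ s : ℂ) • rlam s (ξ i)) = _
    rw [inner_smul_right]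

end N305.FA
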