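import Pool.Agent.N305.FA.Stm

set_option autoImplicit false
set_option linter.unusedSectionVars false

/-!
# Project FA, part OPB: approximate units `λ(ψ)* λ(ψ)` killed by the sequence (helper344)
-/

namespace N305.FA

open MeasureTheory Filter Topology H434R3.Arens ComplexConjugate

universe u

namespace OpB

section

variable {G : Type u} [Group G] [TopologicalSpace G] [IsTopologicalGroup G]
  [LocallyCompactSpace G] [T2Space G] [MeasurableSpace G] [BorelSpace G]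

lemma norm_cvec' (f : G → ℝ) (hf : Continuous f) (hs : HasCompactSupport f)
    (h : ∫ x, f x ^ 2 ∂(Measure.haar : Measure G) = 1) : ‖cvec f hf hs‖ = 1 := by
  have h1 : ‖cvec f hf hs‖ ^ 2 = 1 := by
    have e1 : (‖cvec f hf hs‖ : ℝ) ^ 2 = RCLike.re (inner ℂ (cvec f hf hs) (cvec f hf hs)) := by
      rw [inner_self_eq_norm_sq_to_K]
      norm_cast
    rw [e1, L2.inner_def]
    have e2 : ∫ a, inner ℂ ((cvec f hf hs : HG G) a) ((cvec f hf hs : HG G) a)
        ∂(Measure.haar : Measure G) = ∫ a, ((f a ^ 2 : ℝ) : ℂ) ∂(Measure.haar : Measure G) := by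
      apply integral_congr_ae
      filter_upwards [(memC f hf hs).coeFn_toLp] with x hx
      have : (cvec f hf hs : HG G) x = (f x : ℂ) := hx
      rw [this]
      simp only [RCLike.inner_apply, Complex.conj_ofReal, ← Complex.ofReal_mul, sq]
    rw [e2]
    have e3 : ∫ a, ((f a ^ 2 : ℝ) : ℂ) ∂(Measure.haar : Measure G) = ((1 : ℝ) : ℂ) := by
      rw [← h]; exact integral_complex_ofReal
    rw [e3]
    simp
  nlinarith [norm_nonneg (cvec f hf hs)]

lemma norm_rlam (s : G) (ξ : HG G) : ‖rlam s ξ‖ = ‖ξ‖ :=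
  LinearIsometry.norm_map (Lp.compMeasurePreservingₗᵢ ℂ (fun x => s⁻¹ * x)
      (measurePreserving_mul_left (Measure.haar : Measure G) s⁻¹)) ξ

/-- a bump function near `1` -/
lemma bump (W : Set G) (hW : W ∈ 𝓝 (1 : G)) : ∃ ψ : G → ℝ, Continuous ψ ∧ HasCompactSupport ψ ∧
    (∀ x, 0 ≤ ψ x) ∧ ∫ x, ψ x ∂(Measure.haar : Measure G) = 1 ∧ ∀ x, ψ x ≠ 0 → x ∈ W := by
  obtain ⟨V, hVW, hVo, hV1⟩ := mem_nhds_iff.1 hW
  obtain ⟨f, hf1, hf0, hfc, hf⟩ := exists_continuous_one_zero_of_isCompact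
    (s := {(1 : G)}) (t := Vᶜ) isCompact_singleton hVo.isClosed_compl
    (Set.disjoint_left.2 (by
      rintro x hx hx2
      rw [Set.mem_singleton_iff] at hx
      subst hx
      exact hx2 hV1))
  have hf11 : f 1 = 1 := hf1 (Set.mem_singleton _)
  have hpos : 0 < ∫ x, f x ∂(Measure.haar : Measure G) :=
    f.continuous.integral_pos_of_hasCompactSupport_nonneg_nonzero (x := 1) hfc
      (fun x => (hf x).1) (by rw [hf11]; exact one_ne_zero)
  set c := ∫ x, f x ∂(Measure.haar : Measure G) with hc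
  refine ⟨fun x => c⁻¹ * f x, continuous_const.mul f.continuous, ?_, ?_, ?_, ?_⟩
  · exact hfc.mul_left
  · intro x
    exact mul_nonneg (inv_nonneg.2 hpos.le) (hf x).1
  · rw [integral_const_mul, ← hc, inv_mul_cancel₀ hpos.ne']
  · intro x hx
    by_contra hxW
    apply hx
    have : f x = 0 := hf0 (fun h => hxW (hVW h))
    show c⁻¹ * f x = 0
    rw [this, mul_zero]

/-- `‖T v - v‖` is small if `v` is almost invariant near `1` -/
lemma T_near (h2 : RCONT_stm.{u}) (ψ : G → ℝ) (hψc : Continuous ψ) (hψs : HasCompactSupport ψ)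
    (hψ0 : ∀ x, 0 ≤ ψ x) (hψ1 : ∫ x, ψ x ∂(Measure.haar : Measure G) = 1)
    (T : HG G →L[ℂ] HG G) (hT : ∀ ξ η : HG G, inner ℂ η (T ξ) =
      ∫ s, (ψ s : ℂ) * inner ℂ η (rlam s ξ) ∂(Measure.haar : Measure G)) (v : HG G) (δ : ℝ)
    (hv : ∀ s, ψ s ≠ 0 → ‖rlam s v - v‖ ≤ δ) : ‖T v - v‖ ≤ δ := by
  have hδ : 0 ≤ δ := by
    by_contra hneg
    have : ∀ x, ψ x = 0 := by
      intro x
      by_contra hx
      exact hneg ((norm_nonneg _).trans (hv x hx))
    rw [integral_congr_ae (g := fun _ => (0:ℝ)) (Eventually.of_forall this)] at hψ1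
    simp at hψ1
  have key : ∀ η : HG G, ‖inner ℂ η (T v - v)‖ ≤ δ * ‖η‖ := by
    intro η
    have hcont : Continuous fun s => (ψ s : ℂ) * inner ℂ η (rlam s v) :=
      (Complex.continuous_ofReal.comp hψc).mul (continuous_const.inner (h2 G v))
    have hψs' : HasCompactSupport fun s => (ψ s : ℂ) :=
      hψs.comp_left (g := fun t : ℝ => (t : ℂ)) (by simp)
    have hint : Integrable (fun s => (ψ s : ℂ) * inner ℂ η (rlam s v))
        (Measure.haar : Measure G) :=
      hcont.integrable_of_hasCompactSupport hψs'.mul_right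
    have hint2 : Integrable (fun s => (ψ s : ℂ) * inner ℂ η v) (Measure.haar : Measure G) :=
      ((Complex.continuous_ofReal.comp hψc).mul continuous_const).integrable_of_hasCompactSupport
        hψs'.mul_right
    have e1 : inner ℂ η v = ∫ s, (ψ s : ℂ) * inner ℂ η v ∂(Measure.haar : Measure G) := by
      rw [integral_mul_const, integral_complex_ofReal, hψ1, Complex.ofReal_one, one_mul]
    rw [inner_sub_right, hT v η, e1, ← integral_sub hint hint2]
    have hψi : Integrable ψ (Measure.haar : Measure G) :=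
      hψc.integrable_of_hasCompactSupport hψs
    have e2 : δ * ‖η‖ = ∫ s, ψ s * (δ * ‖η‖) ∂(Measure.haar : Measure G) := by
      rw [integral_mul_const, hψ1, one_mul]
    rw [e2]
    refine norm_integral_le_of_norm_le (hψi.mul_const _) (Eventually.of_forall fun s => ?_)
    rw [← mul_sub, ← inner_sub_right, norm_mul, Complex.norm_real, Real.norm_of_nonneg (hψ0 s)]
    by_cases hs : ψ s = 0
    · rw [hs, zero_mul, zero_mul]
    · refine mul_le_mul_of_nonneg_left ?_ (hψ0 s)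
      calc ‖inner ℂ η (rlam s v - v)‖ ≤ ‖η‖ * ‖rlam s v - v‖ := norm_inner_le_norm _ _
        _ ≤ ‖η‖ * δ := mul_le_mul_of_nonneg_left (hv s hs) (norm_nonneg _)
        _ = δ * ‖η‖ := mul_comm _ _
  have h := key (T v - v)
  rw [inner_self_eq_norm_sq_to_K] at h
  have h3 : ‖T v - v‖ ^ 2 ≤ δ * ‖T v - v‖ := by
    have e : ‖((‖T v - v‖ : ℂ)) ^ 2‖ = ‖T v - v‖ ^ 2 := by
      rw [norm_pow, Complex.norm_real, norm_norm]
    rw [← e]
    exact h
  rcases (norm_nonneg (T v - v)).eq_or_lt with h4 | h4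
  · rw [← h4]; exact hδ
  · nlinarith

/-- the coefficients vanish off the set `E` -/
lemma inner_zero (f : G → ℝ) (hf : Continuous f) (hs : HasCompactSupport f) (U : Set G)
    (hU : ∀ x, f x ≠ 0 → x ∈ U) (s t : G)
    (hst : s⁻¹ * t ∉ {x | ∃ a ∈ U, ∃ b ∈ U, x = a * b⁻¹}) :
    inner ℂ (rlam s (cvec f hf hs)) (rlam t (cvec f hf hs)) = 0 := by
  rw [L2.inner_def]
  have key : ∀ r : G, (rlam r (cvec f hf hs) : HG G) =ᵐ[Measure.haar]
      fun x => (f (r⁻¹ * x) : ℂ) := by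
    intro r
    have h1 := coeFn_rlam r (cvec f hf hs)
    have h2 : (cvec f hf hs : HG G) =ᵐ[Measure.haar] fun x => (f x : ℂ) :=
      (memC f hf hs).coeFn_toLp
    have h3 := (measurePreserving_mul_left (Measure.haar : Measure G)
      r⁻¹).quasiMeasurePreserving.ae_eq_comp h2
    filter_upwards [h1, h3] with x hx1 hx3
    rw [hx1]
    exact hx3
  have e : ∫ a, inner ℂ ((rlam s (cvec f hf hs) : HG G) a) ((rlam t (cvec f hf hs) : HG G) a)
      ∂(Measure.haar : Measure G) = ∫ _a : G, (0:ℂ) ∂(Measure.haar : Measure G) := by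
    apply integral_congr_ae
    filter_upwards [key s, key t] with x hx1 hx2
    rw [hx1, hx2]
    by_cases h1 : f (s⁻¹ * x) = 0
    · rw [h1]; simp
    · by_cases h2 : f (t⁻¹ * x) = 0
      · rw [h2]; simp
      · exfalso
        apply hst
        refine ⟨s⁻¹ * x, hU _ h1, t⁻¹ * x, hU _ h2, ?_⟩
        group
  rw [e, integral_zero]

/-- `‖T v‖²` is small if the support is small -/
lemma T_small (ψ : G → ℝ) (hψc : Continuous ψ) (hψs : HasCompactSupport ψ)
    (hψ0 : ∀ x, 0 ≤ ψ x) (hψ1 : ∫ x, ψ x ∂(Measure.haar : Measure G) = 1)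
    (B : ℝ) (hB : ∀ x, ψ x ≤ B)
    (T : HG G →L[ℂ] HG G) (hT : ∀ ξ η : HG G, inner ℂ η (T ξ) =
      ∫ s, (ψ s : ℂ) * inner ℂ η (rlam s ξ) ∂(Measure.haar : Measure G))
    (f : G → ℝ) (hf : Continuous f) (hs : HasCompactSupport f) (U : Set G)
    (hU : ∀ x, f x ≠ 0 → x ∈ U) (hf1 : ∫ x, f x ^ 2 ∂(Measure.haar : Measure G) = 1) (κ : ℝ)
    (hκ0 : 0 ≤ κ) (hκ : (Measure.haar : Measure G) {x | ∃ a ∈ U, ∃ b ∈ U, x = a * b⁻¹} ≤
      ENNReal.ofReal κ) :
    ‖T (cvec f hf hs)‖ ^ 2 ≤ B * κ := by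
  set v := cvec f hf hs with hv
  set E := {x | ∃ a ∈ U, ∃ b ∈ U, x = a * b⁻¹} with hE
  have hv1 : ‖v‖ = 1 := norm_cvec' f hf hs hf1
  have hB0 : 0 ≤ B := (hψ0 1).trans (hB 1)
  have step1 : ∀ s : G, ‖inner ℂ (rlam s v) (T v)‖ ≤ B * κ := by
    intro s
    rw [hT]
    have a1 := enorm_integral_le_lintegral_enorm (μ := (Measure.haar : Measure G))
      (fun t => (ψ t : ℂ) * inner ℂ (rlam s v) (rlam t v))
    have a2 : ∫⁻ t, ‖(ψ t : ℂ) * inner ℂ (rlam s v) (rlam t v)‖ₑ ∂(Measure.haar : Measure G) ≤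
        ∫⁻ t, ((fun h => s⁻¹ * h) ⁻¹' E).indicator (fun _ => ENNReal.ofReal B) t
          ∂(Measure.haar : Measure G) := by
      refine lintegral_mono fun t => ?_
      by_cases ht : t ∈ (fun h => s⁻¹ * h) ⁻¹' E
      · rw [Set.indicator_of_mem ht, ← ofReal_norm]
        apply ENNReal.ofReal_le_ofReal
        rw [norm_mul, Complex.norm_real, Real.norm_of_nonneg (hψ0 t)]
        have b1 : ‖inner ℂ (rlam s v) (rlam t v)‖ ≤ 1 := by
          refine (norm_inner_le_norm _ _).trans ?_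
          rw [norm_rlam, norm_rlam, hv1, one_mul]
        calc ψ t * ‖inner ℂ (rlam s v) (rlam t v)‖ ≤ B * 1 :=
              mul_le_mul (hB t) b1 (norm_nonneg _) hB0
          _ = B := mul_one _
      · rw [Set.indicator_of_notMem ht, hv, inner_zero f hf hs U hU s t ht, mul_zero, enorm_zero]
    have a3 := lintegral_indicator_const_le (μ := (Measure.haar : Measure G))
      ((fun h => s⁻¹ * h) ⁻¹' E) (ENNReal.ofReal B)
    rw [measure_preimage_mul] at a3
    have a4 : ENNReal.ofReal B * (Measure.haar : Measure G) E ≤ ENNReal.ofReal (B * κ) := by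
      rw [ENNReal.ofReal_mul hB0]
      exact mul_le_mul_right hκ _
    have a5 := a1.trans (a2.trans (a3.trans a4))
    rw [← ofReal_norm] at a5
    exact (ENNReal.ofReal_le_ofReal_iff (by positivity)).1 a5
  have e1 : ‖T v‖ ^ 2 = ‖inner ℂ (T v) (T v)‖ := by
    rw [inner_self_eq_norm_sq_to_K, norm_pow]
    simp
  rw [e1, hT]
  have hψi : Integrable ψ (Measure.haar : Measure G) :=
    hψc.integrable_of_hasCompactSupport hψs
  have e2 : B * κ = ∫ s, ψ s * (B * κ) ∂(Measure.haar : Measure G) := by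
    rw [integral_mul_const, hψ1, one_mul]
  rw [e2]
  refine norm_integral_le_of_norm_le (hψi.mul_const _) (Eventually.of_forall fun s => ?_)
  rw [norm_mul, Complex.norm_real, Real.norm_of_nonneg (hψ0 s), norm_inner_symm]
  exact mul_le_mul_of_nonneg_left (step1 s) (hψ0 s)

end

end OpB

open OpB

theorem opB (h1 : OPA_stm.{u}) (h2 : RCONT_stm.{u}) (h3 : VNALG_stm.{u, u}) : OPB_stm.{u} := by
  intro G _ _ _ _ _ _ _ D N ε hε
  set δ : ℝ := min (ε / 3) (1 / 2) with hδ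
  have hδ0 : 0 < δ := lt_min (by positivity) (by norm_num)
  have hδ1 : δ ≤ 1 / 2 := min_le_right _ _
  have hδε : 3 * δ ≤ ε := by
    have := min_le_left (ε / 3) (1 / 2)
    rw [← hδ] at this
    linarith
  have hv : ∀ m, ‖D.v m‖ = 1 := fun m => norm_cvec' _ _ _ (D.int m)
  -- the neighbourhood
  have hW : {s : G | ∀ j < N, ‖rlam s (D.v j) - D.v j‖ ≤ δ} ∈ 𝓝 (1 : G) := by
    have h4 : ∀ j : ℕ, ∀ᶠ s in 𝓝 (1 : G), ‖rlam s (D.v j) - D.v j‖ ≤ δ := by
      intro j
      have hc : Continuous fun s : G => ‖rlam s (D.v j) - D.v j‖ :=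
        ((h2 G (D.v j)).sub continuous_const).norm
      have h5 := hc.tendsto 1
      have h6 : rlam (1 : G) (D.v j) = D.v j := by
        have := (regRep G).one
        change rlam (1 : G) = 1 at this
        rw [this]
        rfl
      rw [h6, sub_self, norm_zero] at h5
      exact h5.eventually_le_const hδ0
    have h5 : ∀ᶠ s in 𝓝 (1 : G), ∀ j ∈ Finset.range N, ‖rlam s (D.v j) - D.v j‖ ≤ δ :=
      (Finset.range N).eventually_all.2 fun j _ => h4 j
    filter_upwards [h5] with s hs j hj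
    exact hs j (Finset.mem_range.2 hj)
  obtain ⟨ψ, hψc, hψs, hψ0, hψ1, hψW⟩ := bump _ hW
  obtain ⟨T, hTV, hT1, hT⟩ := h1 G ψ hψc hψs hψ0 hψ1
  obtain ⟨-, hmul, hstar, -⟩ := h3 G (HG G) (regRep G)
  obtain ⟨B, hB⟩ := hψc.bounded_above_of_compact_support hψs
  have hB' : ∀ x, ψ x ≤ B := fun x => (le_abs_self _).trans (hB x)
  have hB0 : 0 ≤ B := (hψ0 1).trans (hB' 1)
  have hc0 : (0:ℝ) ≤ 1 - δ := by linarith
  have hcn : ‖(((1 - δ : ℝ)) : ℂ)‖ = 1 - δ := by
    rw [Complex.norm_real, Real.norm_of_nonneg hc0]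
  have hTT : ‖star T * T‖ ≤ 1 := by
    calc ‖star T * T‖ ≤ ‖star T‖ * ‖T‖ := norm_mul_le _ _
      _ ≤ 1 * 1 := by
        rw [norm_star]
        exact mul_le_mul hT1 hT1 (norm_nonneg _) zero_le_one
      _ = 1 := one_mul 1
  refine ⟨((1 - δ : ℝ) : ℂ) • (star T * T), (VN (regRep G)).smul_mem _
    (hmul _ _ (hstar T hTV) hTV), ?_, ?_, ?_, ?_⟩
  · refine ContinuousLinearMap.IsPositive.smul_of_nonneg ?_ ?_
    · exact ContinuousLinearMap.isPositive_adjoint_comp_self T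
    · exact_mod_cast hc0
  · rw [norm_smul, hcn]
    nlinarith
  · intro j hj
    have a1 : ‖T (D.v j) - D.v j‖ ≤ δ :=
      T_near h2 ψ hψc hψs hψ0 hψ1 T hT (D.v j) δ (fun s hs => hψW s hs j hj)
    have a2 : 1 - δ ≤ ‖T (D.v j)‖ := by
      have := norm_sub_norm_le (D.v j) (T (D.v j))
      rw [norm_sub_rev, hv] at this
      linarith
    have a3 : inner ℂ (D.v j) ((((1 - δ : ℝ) : ℂ) • (star T * T)) (D.v j)) =
        (((1 - δ) * ‖T (D.v j)‖ ^ 2 : ℝ) : ℂ) := by
      rw [smul_apply, inner_smul_right, ContinuousLinearMap.star_eq_adjoint]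
      change _ * inner ℂ (D.v j) ((ContinuousLinearMap.adjoint T) (T (D.v j))) = _
      rw [ContinuousLinearMap.adjoint_inner_right, inner_self_eq_norm_sq_to_K]
      push_cast
      rfl
    rw [a3, Complex.ofReal_re]
    have a4 : (1 - δ) ^ 2 ≤ ‖T (D.v j)‖ ^ 2 := pow_le_pow_left₀ hc0 a2 2
    have a5 : (1 - δ) * (1 - δ) ^ 2 ≤ (1 - δ) * ‖T (D.v j)‖ ^ 2 :=
      mul_le_mul_of_nonneg_left a4 hc0
    have a6 : 1 - 3 * δ ≤ (1 - δ) * (1 - δ) ^ 2 := by
      have a7 : 0 ≤ δ ^ 2 * (3 - δ) := mul_nonneg (sq_nonneg _) (by linarith)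
      linarith [show (1 - δ) * (1 - δ) ^ 2 = 1 - 3 * δ + δ ^ 2 * (3 - δ) by ring]
    linarith
  · have b1 : ∀ m, ‖T (D.v m)‖ ^ 2 ≤ B * (1 / ((m:ℝ) + 1)) := by
      intro m
      exact T_small ψ hψc hψs hψ0 hψ1 B hB' T hT (D.f m) (D.cont m) (D.supp m) (D.U m)
        (D.sub m) (D.int m) (1 / ((m:ℝ) + 1)) (by positivity) (D.small m)
    have b2 : Tendsto (fun m : ℕ => B * (1 / ((m:ℝ) + 1))) atTop (𝓝 0) := by
      have := (tendsto_one_div_add_atTop_nhds_zero_nat (𝕜 := ℝ)).const_mul B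
      rwa [mul_zero] at this
    have b3 : Tendsto (fun m => ‖T (D.v m)‖ ^ 2) atTop (𝓝 0) :=
      squeeze_zero (fun m => sq_nonneg _) b1 b2
    have b4 : Tendsto (fun m => ‖T (D.v m)‖) atTop (𝓝 0) := by
      have := b3.sqrt
      simp only [Real.sqrt_zero] at this
      refine this.congr fun m => ?_
      exact Real.sqrt_sq (norm_nonneg _)
    rw [tendsto_zero_iff_norm_tendsto_zero]
    refine squeeze_zero (fun m => norm_nonneg _) (fun m => ?_) b4
    rw [smul_apply, norm_smul, hcn]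
    have b5 : ‖(star T * T) (D.v m)‖ ≤ ‖T (D.v m)‖ := by
      change ‖(star T) (T (D.v m))‖ ≤ _
      calc ‖(star T) (T (D.v m))‖ ≤ ‖star T‖ * ‖T (D.v m)‖ := (star T).le_opNorm _
        _ ≤ 1 * ‖T (D.v m)‖ := by
          rw [norm_star]
          exact mul_le_mul_of_nonneg_right hT1 (norm_nonneg _)
        _ = _ := one_mul _
    calc (1 - δ) * ‖(star T * T) (D.v m)‖ ≤ 1 * ‖T (D.v m)‖ :=
          mul_le_mul (by linarith) b5 (norm_nonneg _) zero_le_one
      _ = _ := one_mul _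

end N305.FA
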