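import Pool.Agent.N305.FA.Stm

set_option autoImplicit false
set_option linter.unusedSectionVars false

/-!
# Project FA, part PFA: a positive operator with strictly positive coefficients on an infinite
countable subgroup
-/

namespace N305.FA

open MeasureTheory Filter Topology H434R3.Arens ComplexConjugate

universe u v w

namespace PFA

variable {G : Type u} [Group G]

lemma smul_app (c : ℂ) (T : HD G →L[ℂ] HD G) (x : HD G) (y : G) :
    ((c • T) x : G → ℂ) y = c * (T x : G → ℂ) y := rfl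

lemma dlam_norm_le (s : G) : ‖dlam (G := G) s‖ ≤ 1 := by
  exact (dlamI s).norm_toContinuousLinearMap_le

lemma dlam_mul (s t : G) : dlam (s * t) = dlam s * dlam t := by
  ext ξ x
  simp [mul_assoc]

lemma dlam_star (s : G) : star (dlam s) = dlam s⁻¹ := by
  change ContinuousLinearMap.adjoint (dlam s) = dlam s⁻¹
  symm
  rw [ContinuousLinearMap.eq_adjoint_iff]
  intro x y
  have h : inner ℂ (dlam s (dlam s⁻¹ x)) (dlam s y) = inner ℂ (dlam s⁻¹ x) y :=
    LinearIsometry.inner_map_map (dlamI s) _ y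
  have h2 : dlam s (dlam s⁻¹ x) = x := by
    ext z
    simp
  rw [h2] at h
  exact h.symm

/-- the terms of the series -/
noncomputable def tm (r : G → ℝ) (s : G) : HD G →L[ℂ] HD G := ((r s : ℝ) : ℂ) • dlam s

lemma tm_norm (r : G → ℝ) (s : G) : ‖tm r s‖ ≤ |r s| := by
  unfold tm
  rw [norm_smul, Complex.norm_real, Real.norm_eq_abs]
  calc |r s| * ‖dlam s‖ ≤ |r s| * 1 := mul_le_mul_of_nonneg_left (dlam_norm_le s) (abs_nonneg _)
    _ = |r s| := mul_one _

lemma tm_summ {r : G → ℝ} (hr : Summable r) : Summable (fun s => ‖tm r s‖) :=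
  Summable.of_nonneg_of_le (fun _ => norm_nonneg _) (tm_norm r) hr.abs

/-- the operator with the coefficients `r` -/
noncomputable def Op (r : G → ℝ) : HD G →L[ℂ] HD G := ∑' s, tm r s

lemma Op_apply {r : G → ℝ} (hr : Summable r) (x : HD G) (y : G) :
    (Op r x : G → ℂ) y = ∑' s, (r s : ℂ) * (x : G → ℂ) (s⁻¹ * y) := by
  have h1 : Summable (tm r) := (tm_summ hr).of_norm
  obtain ⟨ψ, hψ⟩ : ∃ ψ : (HD G →L[ℂ] HD G) →L[ℂ] HD G, ∀ T, ψ T = T x :=
    ⟨ContinuousLinearMap.apply ℂ (HD G) x, fun _ => rfl⟩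
  have h2 : ψ (Op r) = ∑' s, ψ (tm r s) := ψ.map_tsum h1
  have h3 : Summable (fun s => ψ (tm r s)) := ψ.summable h1
  obtain ⟨φ, hφ⟩ : ∃ φ : HD G →L[ℂ] ℂ, ∀ z : HD G, φ z = (z : G → ℂ) y :=
    ⟨lp.evalCLM ℂ (fun _ : G => ℂ) 2 y, fun _ => rfl⟩
  have h4 : φ (∑' s, ψ (tm r s)) = ∑' s, φ (ψ (tm r s)) := φ.map_tsum h3
  have h5 : ∀ s, φ (ψ (tm r s)) = (r s : ℂ) * (x : G → ℂ) (s⁻¹ * y) := fun s => by
    rw [hφ, hψ]
    exact smul_app _ _ _ _
  rw [← hφ, ← hψ, h2, h4]
  simp only [h5]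

lemma Op_vn {r : G → ℝ} (hr : Summable r) : Op r ∈ VN (dRep G) := by
  rw [mem_VN]
  intro n ξ η h
  have h1 : Summable (tm r) := (tm_summ hr).of_norm
  have key : ∀ T : HD G →L[ℂ] HD G, ∑ i, inner ℂ (η i) (T (ξ i)) =
      (∑ i, (innerSL ℂ (η i)).comp (ContinuousLinearMap.apply ℂ (HD G) (ξ i))) T := by
    intro T
    rw [sum_apply]
    rfl
  rw [key]
  unfold Op
  rw [ContinuousLinearMap.map_tsum _ h1]
  rw [tsum_congr (g := fun _ => (0 : ℂ)), tsum_zero]
  intro s
  rw [← key]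
  have h2 := h s
  change ∑ i, inner ℂ (η i) (dlam s (ξ i)) = 0 at h2
  unfold tm
  simp only [smul_apply, inner_smul_right, ← Finset.mul_sum, h2, mul_zero]

/-- the convolution -/
noncomputable def cv (p : G → ℝ) (u : G) : ℝ := ∑' s, p s * p (s⁻¹ * u)

/-- the change of variables -/
def shear : G × G ≃ G × G where
  toFun z := (z.1 * z.2, z.1)
  invFun z := (z.2, z.2⁻¹ * z.1)
  left_inv z := by simp
  right_inv z := by simp

lemma summ2 {p : G → ℝ} (hp : Summable p) :
    Summable (fun z : G × G => p z.2 * p (z.2⁻¹ * z.1)) := by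
  have h1 : Summable (fun z : G × G => p z.1 * p z.2) :=
    summable_mul_of_summable_norm hp.norm hp.norm
  have h2 := (shear (G := G)).symm.summable_iff.2 h1
  exact h2

lemma cv_summ {p : G → ℝ} (hp : Summable p) : Summable (cv p) := (summ2 hp).prod

lemma cv_summ1 {p : G → ℝ} (hp : Summable p) (u : G) : Summable (fun s => p s * p (s⁻¹ * u)) :=
  (summ2 hp).prod_factor u

lemma Op_mul {p : G → ℝ} (hp : Summable p) : Op p * Op p = Op (cv p) := by
  have h0 := tm_summ hp
  unfold Op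
  rw [tsum_mul_tsum_of_summable_norm h0 h0]
  have h1 : Summable (fun z : G × G => tm p z.1 * tm p z.2) :=
    summable_mul_of_summable_norm h0 h0
  have e1 : ∀ z : G × G, tm p z.2 * tm p (z.2⁻¹ * z.1) =
      (((p z.2 * p (z.2⁻¹ * z.1) : ℝ)) : ℂ) • dlam z.1 := by
    intro z
    unfold tm
    rw [smul_mul_smul_comm, ← dlam_mul, mul_inv_cancel_left]
    push_cast
    rfl
  have h2 : Summable (fun z : G × G => tm p z.2 * tm p (z.2⁻¹ * z.1)) :=
    (shear (G := G)).symm.summable_iff.2 h1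
  rw [← (shear (G := G)).symm.tsum_eq (fun z : G × G => tm p z.1 * tm p z.2)]
  change ∑' z : G × G, tm p z.2 * tm p (z.2⁻¹ * z.1) = _
  rw [h2.tsum_prod]
  have key : ∀ u : G, ∑' s : G, tm p s * tm p (s⁻¹ * u) = tm (cv p) u := by
    intro u
    have h3 : ∀ s : G, tm p s * tm p (s⁻¹ * u) = (((p s * p (s⁻¹ * u) : ℝ)) : ℂ) • dlam u :=
      fun s => e1 (u, s)
    simp only [h3]
    have h4 : Summable (fun s => ((p s * p (s⁻¹ * u) : ℝ) : ℂ)) :=
      Complex.ofRealCLM.summable (cv_summ1 hp u)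
    rw [h4.tsum_smul_const, ← Complex.ofReal_tsum]
    rfl
  simp only [key]

lemma Op_star {p : G → ℝ} (hp : Summable p) (hs : ∀ s, p s⁻¹ = p s) : star (Op p) = Op p := by
  unfold Op
  rw [tsum_star, ← (Equiv.inv G).tsum_eq (tm p)]
  refine tsum_congr fun s => ?_
  change star (tm p s) = tm p s⁻¹
  unfold tm
  rw [star_smul, dlam_star, hs]
  congr 1
  exact Complex.conj_ofReal _

/-- an infinite countable subgroup -/
lemma exists_sub [Infinite G] : ∃ Γ : Subgroup G, (Γ : Set G).Infinite ∧ Countable Γ := by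
  let f := Infinite.natEmbedding G
  refine ⟨(FreeGroup.lift f).range, ?_, ?_⟩
  · refine (Set.infinite_range_of_injective f.injective).mono ?_
    rintro _ ⟨n, rfl⟩
    exact ⟨FreeGroup.of n, by simp⟩
  · have : Countable (FreeGroup ℕ) := by
      unfold FreeGroup
      infer_instance
    exact (MonoidHom.rangeRestrict_surjective (FreeGroup.lift f)).countable

/-- the coefficients -/
lemma exists_p (Γ : Subgroup G) [Countable Γ] : ∃ p : G → ℝ, Summable p ∧ (∀ s, 0 ≤ p s) ∧
    (∀ s, p s⁻¹ = p s) ∧ ∀ s, 0 < p s ↔ s ∈ Γ := by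
  classical
  obtain ⟨n, hn⟩ := exists_injective_nat Γ
  let p0 : G → ℝ := fun s => if h : s ∈ Γ then (1 / 2) ^ (n ⟨s, h⟩) else 0
  have hp0 : Summable p0 := by
    have h1 : Summable (fun s : Γ => ((1 / 2 : ℝ)) ^ (n s)) :=
      summable_geometric_two.comp_injective hn
    have h2 : p0 = Set.indicator (Γ : Set G) p0 := by
      funext s
      by_cases hs : s ∈ Γ
      · rw [Set.indicator_of_mem (show s ∈ (Γ : Set G) from hs)]
      · rw [Set.indicator_of_notMem (show s ∉ (Γ : Set G) from hs)]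
        simp [p0, hs]
    rw [h2]
    apply summable_subtype_iff_indicator.1
    refine h1.congr fun s => ?_
    simp [p0]
  have h0 : ∀ s, 0 ≤ p0 s := by
    intro s
    simp only [p0]
    split_ifs
    · positivity
    · exact le_refl _
  have h1 : ∀ s, 0 < p0 s ↔ s ∈ Γ := by
    intro s
    simp only [p0]
    split_ifs with h
    · exact ⟨fun _ => h, fun _ => by positivity⟩
    · exact ⟨fun h2 => absurd h2 (lt_irrefl _), fun h2 => absurd h2 h⟩
  refine ⟨fun s => p0 s + p0 s⁻¹, hp0.add ((Equiv.inv G).summable_iff.2 hp0), fun s => add_nonneg (h0 _) (h0 _),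
    fun s => by simp only [inv_inv]; exact add_comm _ _, fun s => ?_⟩
  constructor
  · intro h
    by_contra hcon
    have h2 : p0 s = 0 := le_antisymm (not_lt.1 fun h3 => hcon ((h1 s).1 h3)) (h0 s)
    have h4 : p0 s⁻¹ = 0 := le_antisymm (not_lt.1 fun h3 => hcon (by
      have h5 := (h1 s⁻¹).1 h3
      rwa [Subgroup.inv_mem_iff] at h5)) (h0 _)
    simp only [h2, h4] at h
    norm_num at h
  · intro h
    exact add_pos_of_pos_of_nonneg ((h1 s).2 h) (h0 _)

lemma cv_pos {Γ : Subgroup G} {p : G → ℝ} (hp : Summable p) (h0 : ∀ s, 0 ≤ p s)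
    (h1 : ∀ s, 0 < p s ↔ s ∈ Γ) (u : G) : 0 < cv p u ↔ u ∈ Γ := by
  constructor
  · intro h
    by_contra hcon
    have h2 : cv p u = 0 := by
      unfold cv
      rw [tsum_congr (g := fun _ => (0 : ℝ)), tsum_zero]
      intro s
      by_contra h3
      have h4 : p s ≠ 0 := fun h => h3 (by rw [h, zero_mul])
      have h5 : p (s⁻¹ * u) ≠ 0 := fun h => h3 (by rw [h, mul_zero])
      have h6 := (h1 s).1 (lt_of_le_of_ne (h0 _) h4.symm)
      have h7 := (h1 _).1 (lt_of_le_of_ne (h0 _) h5.symm)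
      apply hcon
      have h8 := Γ.mul_mem h6 h7
      rwa [mul_inv_cancel_left] at h8
    rw [h2] at h
    exact lt_irrefl _ h
  · intro h
    refine (cv_summ1 hp u).tsum_pos (fun s => mul_nonneg (h0 _) (h0 _)) 1 ?_
    refine mul_pos ((h1 1).2 Γ.one_mem) ((h1 _).2 ?_)
    rw [inv_one, one_mul]
    exact h

lemma Op_ne_zero {p : G → ℝ} (hp : Summable p) (h1 : 0 < p 1) : Op p ≠ 0 := by
  classical
  intro h
  have h2 := Op_apply hp (lp.single 2 (1 : G) (1 : ℂ)) 1
  rw [h] at h2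
  rw [tsum_eq_single 1] at h2
  · simp at h2
    exact h1.ne (by exact_mod_cast h2)
  · intro s hs
    have h3 : ((lp.single 2 (1 : G) (1 : ℂ) : HD G) : G → ℂ) (s⁻¹ * 1) = 0 := by
      rw [lp.single_apply_ne]
      rw [mul_one]
      intro h4
      exact hs (inv_eq_one.1 h4)
    rw [h3, mul_zero]

end PFA

open PFA in
theorem pfa : PFA_stm.{u} := by
  intro G _ _
  obtain ⟨Γ, hΓ, hc⟩ := exists_sub (G := G)
  obtain ⟨p, hp, h0, hsym, h1⟩ := exists_p Γ
  have hT : Op p ≠ 0 := Op_ne_zero hp ((h1 1).2 Γ.one_mem)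
  have hn : 0 < ‖Op p‖ := norm_pos_iff.2 hT
  have hst := Op_star hp hsym
  obtain ⟨c, hcdef⟩ : ∃ c : ℝ, c = (‖Op p‖ * ‖Op p‖)⁻¹ := ⟨_, rfl⟩
  have hc0 : 0 < c := by rw [hcdef]; positivity
  have hcv : Summable (cv p) := cv_summ hp
  exact ⟨{
    Γ := Γ
    inf := hΓ
    q := fun s => c * cv p s
    nonneg := fun s => mul_nonneg hc0.le (tsum_nonneg fun t => mul_nonneg (h0 _) (h0 _))
    supp := fun s => (mul_pos_iff_of_pos_left hc0).trans (cv_pos hp h0 h1 s)
    summ := hcv.mul_left c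
    a := (c : ℂ) • (Op p * Op p)
    a_apply := fun x y => by
      rw [Op_mul hp]
      rw [smul_app, Op_apply hcv, ← tsum_mul_left]
      refine tsum_congr fun s => ?_
      push_cast
      ring
    pos := by
      have h2 : (Op p * Op p).IsPositive := by
        have h3 := ContinuousLinearMap.isPositive_adjoint_comp_self (Op p)
        have h4 : ContinuousLinearMap.adjoint (Op p) = Op p := hst
        rw [h4] at h3
        exact h3
      exact h2.smul_of_nonneg (by exact_mod_cast hc0.le)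
    norm := by
      rw [norm_smul, Complex.norm_real, Real.norm_eq_abs, abs_of_pos hc0]
      have h2 : ‖Op p * Op p‖ = ‖Op p‖ * ‖Op p‖ := by
        have h3 := CStarRing.norm_star_mul_self (x := Op p)
        rwa [hst] at h3
      rw [h2, hcdef]
      exact inv_mul_cancel₀ (mul_pos hn hn).ne'
    vn := by
      rw [Op_mul hp]
      exact (VN (dRep G)).smul_mem _ (Op_vn hcv) }⟩

end N305.FA
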