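import Pool.Agent.N305.FA.Stm

set_option autoImplicit false
set_option linter.unusedSectionVars false

/-!
# Project FA, part PFB: no eigenvector at the top of the spectrum (helper768)
-/

namespace N305.FA

universe u

namespace PFB

/-- equality from the equality of sums -/
lemma eq_of_tsum_le {ι : Type*} {f g : ι → ℝ} (hf : Summable f) (hg : Summable g)
    (hle : ∀ i, f i ≤ g i) (h : ∑' i, g i ≤ ∑' i, f i) (i : ι) : f i = g i := by
  by_contra hne
  have h1 := Summable.tsum_lt_tsum hle (lt_of_le_of_ne (hle i) hne) hf hg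
  linarith

lemma memL_iff {G : Type u} (f : G → ℂ) :
    Memℓp f (2 : ENNReal) ↔ Summable (fun y => ‖f y‖ ^ 2) := by
  rw [memℓp_gen_iff (by norm_num)]
  have h : ∀ y, ‖f y‖ ^ (2 : ENNReal).toReal = ‖f y‖ ^ 2 := fun y => by
    rw [ENNReal.toReal_ofNat, Real.rpow_ofNat]
  simp only [h]

lemma norm_sq_eq {G : Type u} [Group G] (x : HD G) : ‖x‖ ^ 2 = ∑' y, ‖(x : G → ℂ) y‖ ^ 2 := by
  have h := lp.norm_rpow_eq_tsum (p := 2) (by norm_num) x
  have h1 : ∀ t : ℝ, t ^ (2 : ENNReal).toReal = t ^ 2 := fun t => by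
    rw [ENNReal.toReal_ofNat, Real.rpow_ofNat]
  simp only [h1] at h
  exact h

variable {G : Type u} [Group G] (D : PFData G)

/-- `f` is a real square summable fixed vector -/
structure Rf (f : G → ℝ) : Prop where
  sq : Summable (fun y => f y ^ 2)
  fix : ∀ y, f y = ∑' s, D.q s * f (s⁻¹ * y)

lemma summ {f : G → ℝ} (hf : Summable (fun y => f y ^ 2)) (y : G) :
    Summable (fun s => D.q s * f (s⁻¹ * y)) := by
  have hB : ∀ z, |f z| ≤ 1 + ∑' y, f y ^ 2 := by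
    intro z
    have h1 : f z ^ 2 ≤ ∑' y, f y ^ 2 := hf.le_tsum z (fun _ _ => sq_nonneg _)
    have h2 : |f z| ≤ 1 + f z ^ 2 := by
      rw [← sq_abs]
      nlinarith [sq_nonneg (|f z| - 1), abs_nonneg (f z)]
    linarith
  refine Summable.of_norm_bounded (D.summ.mul_right (1 + ∑' y, f y ^ 2)) fun s => ?_
  rw [Real.norm_eq_abs, abs_mul, abs_of_nonneg (D.nonneg s)]
  exact mul_le_mul_of_nonneg_left (hB _) (D.nonneg s)

/-- the vector of a real function -/
noncomputable def vec (f : G → ℝ) (hf : Summable (fun y => f y ^ 2)) : HD G :=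
  ⟨fun y => (f y : ℂ), (memL_iff _).2 (by simpa using hf)⟩

lemma vec_apply (f : G → ℝ) (hf : Summable (fun y => f y ^ 2)) (y : G) :
    (vec f hf : G → ℂ) y = (f y : ℂ) := rfl

lemma a_vec (f : G → ℝ) (hf : Summable (fun y => f y ^ 2)) (y : G) :
    (D.a (vec f hf) : G → ℂ) y = ((∑' s, D.q s * f (s⁻¹ * y) : ℝ) : ℂ) := by
  rw [D.a_apply, Complex.ofReal_tsum]
  refine tsum_congr fun s => ?_
  rw [vec_apply, Complex.ofReal_mul]

/-- the absolute value of a fixed vector -/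
lemma abs_of_fixed {x : HD G} (hx : D.a x = x) : Rf D (fun y => ‖(x : G → ℂ) y‖) := by
  have hsq : Summable (fun y => ‖(x : G → ℂ) y‖ ^ 2) := (memL_iff _).1 (lp.memℓp x)
  refine ⟨hsq, ?_⟩
  obtain ⟨u, hu⟩ : ∃ u : HD G, u = vec (fun y => ‖(x : G → ℂ) y‖) hsq := ⟨_, rfl⟩
  obtain ⟨g, hg⟩ : ∃ g : G → ℝ, g = fun y => ∑' s, D.q s * ‖(x : G → ℂ) (s⁻¹ * y)‖ := ⟨_, rfl⟩
  have hau : ∀ y, (D.a u : G → ℂ) y = (g y : ℂ) := fun y => by
    rw [hu, a_vec, hg]
  have hle : ∀ y, ‖(x : G → ℂ) y‖ ≤ g y := by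
    intro y
    have h1 : (x : G → ℂ) y = ∑' s, (D.q s : ℂ) * (x : G → ℂ) (s⁻¹ * y) := by
      rw [← D.a_apply, hx]
    rw [h1, hg]
    have h2 : ∀ s, ‖(D.q s : ℂ) * (x : G → ℂ) (s⁻¹ * y)‖ = D.q s * ‖(x : G → ℂ) (s⁻¹ * y)‖ := by
      intro s
      rw [norm_mul, Complex.norm_real, Real.norm_of_nonneg (D.nonneg s)]
    have h3 := norm_tsum_le_tsum_norm (f := fun s => (D.q s : ℂ) * (x : G → ℂ) (s⁻¹ * y)) (by
      simp only [h2]
      exact summ D hsq y)
    simpa only [h2] using h3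
  have hg0 : ∀ y, 0 ≤ g y := fun y => (norm_nonneg _).trans (hle y)
  have hgs : ∀ y, ‖(D.a u : G → ℂ) y‖ ^ 2 = g y ^ 2 := fun y => by
    rw [hau, Complex.norm_real, Real.norm_of_nonneg (hg0 y)]
  have hgsq : Summable (fun y => g y ^ 2) := by
    have h1 := (memL_iff _).1 (lp.memℓp (D.a u))
    simpa only [hgs] using h1
  have hnorm : ‖D.a u‖ ≤ ‖u‖ := by
    have h1 := D.a.le_opNorm u
    rwa [D.norm, one_mul] at h1
  have hsum : ∑' y, g y ^ 2 ≤ ∑' y, ‖(x : G → ℂ) y‖ ^ 2 := by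
    have h1 : ‖D.a u‖ ^ 2 ≤ ‖u‖ ^ 2 := by
      have := norm_nonneg (D.a u)
      nlinarith
    rw [norm_sq_eq, norm_sq_eq] at h1
    simp only [hgs] at h1
    have h2 : ∀ y, ‖(u : G → ℂ) y‖ ^ 2 = ‖(x : G → ℂ) y‖ ^ 2 := fun y => by
      rw [hu, vec_apply, Complex.norm_real, norm_norm]
    simpa only [h2] using h1
  intro y
  have h1 := eq_of_tsum_le hsq hgsq (fun y => by
    have := hle y
    have := norm_nonneg ((x : G → ℂ) y)
    nlinarith) hsum y
  have h2 : ‖(x : G → ℂ) y‖ = g y := by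
    have h3 := hle y
    have h4 := norm_nonneg ((x : G → ℂ) y)
    exact (sq_eq_sq₀ h4 (hg0 y)).1 h1
  rw [h2, hg]

variable {D}

lemma Rf.fixed {f : G → ℝ} (h : Rf D f) : D.a (vec f h.sq) = vec f h.sq := by
  ext y
  rw [a_vec, vec_apply, ← h.fix]

lemma Rf.abs {f : G → ℝ} (h : Rf D f) : Rf D (fun y => |f y|) := by
  have h1 := abs_of_fixed D h.fixed
  have h2 : ∀ y, ‖(vec f h.sq : G → ℂ) y‖ = |f y| := fun y => by
    rw [vec_apply, Complex.norm_real, Real.norm_eq_abs]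
  simpa only [h2] using h1

lemma sq_add {f g : G → ℝ} (hf : Summable (fun y => f y ^ 2)) (hg : Summable (fun y => g y ^ 2)) :
    Summable (fun y => (f y + g y) ^ 2) := by
  refine Summable.of_nonneg_of_le (fun _ => sq_nonneg _) (fun y => ?_)
    ((hf.mul_left 2).add (hg.mul_left 2))
  nlinarith [sq_nonneg (f y - g y)]

lemma Rf.add {f g : G → ℝ} (hf : Rf D f) (hg : Rf D g) : Rf D (fun y => f y + g y) := by
  refine ⟨sq_add hf.sq hg.sq, fun y => ?_⟩
  have h1 : (fun s => D.q s * (f (s⁻¹ * y) + g (s⁻¹ * y))) =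
      fun s => D.q s * f (s⁻¹ * y) + D.q s * g (s⁻¹ * y) := by
    funext s
    ring
  rw [h1, Summable.tsum_add (summ D hf.sq y) (summ D hg.sq y), ← hf.fix, ← hg.fix]

lemma Rf.neg {f : G → ℝ} (hf : Rf D f) : Rf D (fun y => -f y) := by
  refine ⟨by simpa using hf.sq, fun y => ?_⟩
  have h1 : (fun s => D.q s * -f (s⁻¹ * y)) = fun s => -(D.q s * f (s⁻¹ * y)) := by
    funext s
    ring
  rw [h1, tsum_neg, ← hf.fix]

lemma Rf.trans {f : G → ℝ} (hf : Rf D f) (g : G) : Rf D (fun y => f (y * g)) := by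
  refine ⟨(Equiv.mulRight g).summable_iff.2 hf.sq, fun y => ?_⟩
  rw [hf.fix]
  simp only [mul_assoc]

/-- a non-negative fixed vector which vanishes at a point vanishes on its coset -/
lemma Rf.vanish {f : G → ℝ} (hf : Rf D f) (h0 : ∀ y, 0 ≤ f y) {y : G} (hy : f y = 0) {γ : G}
    (hγ : γ ∈ D.Γ) : f (γ * y) = 0 := by
  have hn : ∀ s, 0 ≤ D.q s * f (s⁻¹ * y) := fun s => mul_nonneg (D.nonneg s) (h0 _)
  have h1 : D.q γ⁻¹ * f (γ⁻¹⁻¹ * y) ≤ ∑' s, D.q s * f (s⁻¹ * y) :=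
    (summ D hf.sq y).le_tsum γ⁻¹ (fun s _ => hn s)
  rw [← hf.fix, hy, inv_inv] at h1
  have h2 : 0 < D.q γ⁻¹ := (D.supp _).2 (D.Γ.inv_mem hγ)
  have h3 := h0 (γ * y)
  nlinarith

/-- if `u ≤ v` on the coset, `v` a right translate of `u`, then equality holds -/
lemma eq_of_le {u : G → ℝ} (hu : Summable (fun y => u y ^ 2)) (h0 : ∀ y, 0 ≤ u y) {y γ : G}
    (hγ : γ ∈ D.Γ) (hle : ∀ δ ∈ D.Γ, u (δ * y) ≤ u (δ * γ * y)) : u y = u (γ * y) := by
  have hs : Summable (fun δ : D.Γ => u (δ * y) ^ 2) := by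
    have h1 : Function.Injective (fun δ : D.Γ => (δ : G) * y) := fun a b h =>
      Subtype.ext (mul_right_cancel h)
    exact hu.comp_injective h1
  have hs2 : Summable (fun δ : D.Γ => u (δ * γ * y) ^ 2) :=
    (Equiv.mulRight (⟨γ, hγ⟩ : D.Γ)).summable_iff.2 hs
  have he : ∑' δ : D.Γ, u (δ * γ * y) ^ 2 = ∑' δ : D.Γ, u (δ * y) ^ 2 :=
    (Equiv.mulRight (⟨γ, hγ⟩ : D.Γ)).tsum_eq (fun δ : D.Γ => u (δ * y) ^ 2)
  have h2 := eq_of_tsum_le hs hs2 (fun δ => by
    have := hle δ δ.2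
    have := h0 (δ * y)
    nlinarith) he.le 1
  simp only [OneMemClass.coe_one, one_mul] at h2
  exact (sq_eq_sq₀ (h0 _) (h0 _)).1 h2

/-- a non-negative fixed vector is constant on the cosets -/
lemma const {u : G → ℝ} (hu : Rf D u) (h0 : ∀ y, 0 ≤ u y) (y : G) {γ : G} (hγ : γ ∈ D.Γ) :
    u y = u (γ * y) := by
  have hg : ∀ δ : G, δ * y * (y⁻¹ * γ * y) = δ * γ * y := fun δ => by group
  obtain ⟨w, hw⟩ : ∃ w : G → ℝ, w = fun z => u z + -u (z * (y⁻¹ * γ * y)) := ⟨_, rfl⟩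
  have hwR : Rf D w := by
    rw [hw]
    exact hu.add (hu.trans _).neg
  have hwd : ∀ δ, w (δ * y) = u (δ * y) - u (δ * γ * y) := fun δ => by
    rw [hw, ← hg δ]
    ring
  rcases le_or_gt (w y) 0 with h | h
  · -- `|w| + w` vanishes at `y`
    have h1 : Rf D (fun z => |w z| + w z) := hwR.abs.add hwR
    refine eq_of_le (D := D) hu.sq h0 hγ fun δ hδ => ?_
    have h2 := h1.vanish (fun z => by linarith [neg_abs_le (w z)]) (y := y) (by
      rw [abs_of_nonpos h]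
      ring) hδ
    have h3 : w (δ * y) ≤ 0 := by
      have h4 : |w (δ * y)| + w (δ * y) = 0 := h2
      linarith [abs_nonneg (w (δ * y))]
    rw [hwd] at h3
    linarith
  · -- `|w| - w` vanishes at `y`
    exfalso
    have h1 : Rf D (fun z => |w z| + -w z) := hwR.abs.add hwR.neg
    have h5 : ∀ δ ∈ D.Γ, u (δ * γ * y) ≤ u (δ * y) := by
      intro δ hδ
      have h2 := h1.vanish (fun z => by linarith [le_abs_self (w z)]) (y := y) (by
        rw [abs_of_pos h]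
        ring) hδ
      have h3 : 0 ≤ w (δ * y) := by
        have h4 : |w (δ * y)| + -w (δ * y) = 0 := h2
        linarith [abs_nonneg (w (δ * y))]
      rw [hwd] at h3
      linarith
    have h6 := eq_of_le (D := D) hu.sq h0 (y := γ * y) (D.Γ.inv_mem hγ) fun δ hδ => by
      have h7 := h5 (δ * γ⁻¹ * γ) (by simpa using hδ)
      have h8 := h5 δ hδ
      have e1 : δ * γ⁻¹ * (γ * y) = δ * y := by group
      have e2 : δ * (γ * y) = δ * γ * y := by group
      rw [e1, e2]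
      exact h8
    rw [inv_mul_cancel_left] at h6
    have h9 := hwd 1
    rw [one_mul, one_mul] at h9
    linarith

end PFB

open PFB in
/-- **PFB** -/
theorem pfb : PFB_stm.{u} := by
  intro G _ D x hx
  have hR := abs_of_fixed D hx
  have h0 : ∀ y, 0 ≤ ‖(x : G → ℂ) y‖ := fun y => norm_nonneg _
  ext y
  have hs : Summable (fun δ : D.Γ => ‖(x : G → ℂ) (δ * y)‖ ^ 2) := by
    have h1 : Function.Injective (fun δ : D.Γ => (δ : G) * y) := fun a b h =>
      Subtype.ext (mul_right_cancel h)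
    exact hR.sq.comp_injective h1
  have hc : ∀ δ : D.Γ, ‖(x : G → ℂ) (δ * y)‖ ^ 2 = ‖(x : G → ℂ) y‖ ^ 2 := fun δ => by
    rw [← const hR h0 y δ.2]
  simp only [hc] at hs
  have : Infinite D.Γ := D.inf.to_subtype
  rw [summable_const_iff] at hs
  have h1 : ‖(x : G → ℂ) y‖ = 0 := pow_eq_zero_iff (two_ne_zero) |>.1 hs
  rw [norm_eq_zero] at h1
  rw [h1]
  rfl

end N305.FA
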