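import Pool.Agent.N305.FA.Stm

set_option autoImplicit false
set_option linter.unusedSectionVars false

/-!
# Project FA, part PROD (helper570): `u_f u_g` is close to `u_g`
-/

namespace N305.FA

open MeasureTheory Filter Topology H434R3.Arens ComplexConjugate

universe u v w

section alg

variable {G : Type u} [Group G] {H : Type w} [NormedAddCommGroup H] [InnerProductSpace ℂ H]
  {L : URep G H} {A : Type v} [NonUnitalNormedRing A] [NormedSpace ℂ A] (C : CoefAlg L A)

lemma CoefAlg.prod_cf_sub_left (a b η : H) : C.cf (a - b) η = C.cf a η - C.cf b η := by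
  apply C.val_inj
  funext s
  have h : C.cf a η - C.cf b η = C.cf a η + (-1 : ℂ) • C.cf b η := by
    rw [neg_smul, one_smul, sub_eq_add_neg]
  rw [h, C.val_add, C.val_smul, C.val_cf, C.val_cf, C.val_cf, map_sub, inner_sub_right]
  ring

lemma CoefAlg.prod_cf_sub_right (ξ a b : H) : C.cf ξ (a - b) = C.cf ξ a - C.cf ξ b := by
  apply C.val_inj
  funext s
  have h : C.cf ξ a - C.cf ξ b = C.cf ξ a + (-1 : ℂ) • C.cf ξ b := by
    rw [neg_smul, one_smul, sub_eq_add_neg]
  rw [h, C.val_add, C.val_smul, C.val_cf, C.val_cf, C.val_cf, inner_sub_left]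
  ring

lemma CoefAlg.prod_norm_diff (a b : H) :
    ‖C.cf a a - C.cf b b‖ ≤ ‖a - b‖ * ‖a‖ + ‖b‖ * ‖a - b‖ := by
  have h : C.cf a a - C.cf b b = C.cf (a - b) a + C.cf b (a - b) := by
    rw [C.prod_cf_sub_left, C.prod_cf_sub_right]
    abel
  rw [h]
  exact (norm_add_le _ _).trans (add_le_add (C.norm_cf _ _) (C.norm_cf _ _))

lemma CoefAlg.prod_cf_smul (c : ℝ) (a : H) :
    C.cf ((c : ℂ) • a) ((c : ℂ) • a) = ((c : ℂ) ^ 2) • C.cf a a := by
  apply C.val_inj
  funext s
  rw [C.val_smul, C.val_cf, C.val_cf, map_smul, inner_smul_left, inner_smul_right,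
    Complex.conj_ofReal]
  ring

end alg

section reg

variable {G : Type u} [Group G] [TopologicalSpace G] [IsTopologicalGroup G]
  [LocallyCompactSpace G] [T2Space G] [MeasurableSpace G] [BorelSpace G]

lemma prod_coeFn_cvec (f : G → ℝ) (hf : Continuous f) (hs : HasCompactSupport f) :
    (cvec f hf hs : G → ℂ) =ᵐ[Measure.haar] fun x => (f x : ℂ) := MemLp.coeFn_toLp _

lemma prod_norm_cvec (f : G → ℝ) (hf : Continuous f) (hs : HasCompactSupport f)
    (h : ∫ x, f x ^ 2 ∂(Measure.haar : Measure G) = 1) : ‖cvec f hf hs‖ = 1 := by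
  have h1 : ‖cvec f hf hs‖ ^ 2 = 1 := by
    have e1 : (‖cvec f hf hs‖ : ℝ) ^ 2 = RCLike.re (inner ℂ (cvec f hf hs) (cvec f hf hs)) := by
      rw [inner_self_eq_norm_sq_to_K]
      norm_cast
    rw [e1, L2.inner_def]
    have e2 : ∫ a, inner ℂ ((cvec f hf hs : HG G) a) ((cvec f hf hs : HG G) a)
        ∂(Measure.haar : Measure G) = ∫ a, ((f a ^ 2 : ℝ) : ℂ) ∂(Measure.haar : Measure G) := by
      apply integral_congr_ae
      filter_upwards [(memC f hf hs).coeFn_toLp] with x hx
      have : (cvec f hf hs : HG G) x = (f x : ℂ) := hx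
      rw [this]
      simp only [RCLike.inner_apply, Complex.conj_ofReal, ← Complex.ofReal_mul, sq]
    rw [e2]
    have e3 : ∫ a, ((f a ^ 2 : ℝ) : ℂ) ∂(Measure.haar : Measure G) = ((1 : ℝ) : ℂ) := by
      rw [← h]; exact integral_complex_ofReal
    rw [e3]
    simp
  nlinarith [norm_nonneg (cvec f hf hs)]

theorem prod (h : PRODI_stm.{u, v}) : PROD_stm.{u, v} := by
  intro G _ _ _ _ _ _ _ A _ _ _ C f g hf hg hfs hgs K U S δ hK hδ hS hfK hfU hδU hgU hf1 hg1
  obtain ⟨hint, hprod⟩ := h G A C f g hf hg hfs hgs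
  set vg : HG G := cvec g hg hgs with hvg
  have hvg1 : ‖vg‖ = 1 := prod_norm_cvec g hg hgs hg1
  have hS0 : 0 ≤ S := (abs_nonneg _).trans (hS 1)
  set w : G → HG G := fun x => wvec f g hf hg hgs x with hw
  set k : G → HG G := fun x => (f x : ℂ) • vg with hk
  have hcw : ∀ x, (w x : G → ℂ) =ᵐ[Measure.haar] fun y => ((f (y * x) * g y : ℝ) : ℂ) := fun x =>
    prod_coeFn_cvec _ _ _
  have hcg : (vg : G → ℂ) =ᵐ[Measure.haar] fun y => (g y : ℂ) := prod_coeFn_cvec _ _ _
  have h1 : ∀ x, ‖w x - k x‖ ≤ δ := by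
    intro x
    have h2 : ‖w x - k x‖ ≤ δ * ‖vg‖ := by
      apply Lp.norm_le_mul_norm_of_ae_le_mul
      filter_upwards [Lp.coeFn_sub (w x) (k x), hcw x, hcg,
        Lp.coeFn_smul (f x : ℂ) vg] with y e1 e2 e3 e4
      rw [e1, Pi.sub_apply, e2]
      have e5 : (k x : G → ℂ) y = (f x : ℂ) * (g y : ℂ) := by
        rw [hk]
        change ((f x : ℂ) • vg : HG G) y = _
        rw [e4, Pi.smul_apply, e3, smul_eq_mul]
      rw [e5, e3, ← Complex.ofReal_mul, ← Complex.ofReal_sub, Complex.norm_real, Complex.norm_real,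
        ← sub_mul, norm_mul]
      by_cases hy : g y = 0
      · rw [hy]
        simp
      · exact mul_le_mul_of_nonneg_right (hδU y (hgU y hy) x) (norm_nonneg _)
    rwa [hvg1, mul_one] at h2
  have h2 : ∀ x, ‖w x‖ ≤ S := by
    intro x
    have h3 : ‖w x‖ ≤ S * ‖vg‖ := by
      apply Lp.norm_le_mul_norm_of_ae_le_mul
      filter_upwards [hcw x, hcg] with y e2 e3
      rw [e2, e3, Complex.norm_real, Complex.norm_real, norm_mul]
      exact mul_le_mul_of_nonneg_right (hS _) (norm_nonneg _)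
    rwa [hvg1, mul_one] at h3
  have h3 : ∀ x, ‖k x‖ ≤ S := by
    intro x
    rw [hk]
    change ‖(f x : ℂ) • vg‖ ≤ S
    rw [norm_smul, hvg1, mul_one, Complex.norm_real]
    exact hS x
  have h4 : ∀ x, x ∉ K → w x = 0 := by
    intro x hx
    have h5 : ‖w x‖ ≤ 0 * ‖vg‖ := by
      apply Lp.norm_le_mul_norm_of_ae_le_mul
      filter_upwards [hcw x] with y e2
      rw [e2, Complex.norm_real, norm_mul]
      by_cases hy : g y = 0
      · rw [hy]
        simp
      · rw [hfU x hx y (hgU y hy)]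
        simp
    rw [zero_mul] at h5
    exact norm_le_zero_iff.1 h5
  have h5 : ∀ x, x ∉ K → k x = 0 := by
    intro x hx
    rw [hk]
    change (f x : ℂ) • vg = 0
    rw [hfK x hx, Complex.ofReal_zero, zero_smul]
  have h6 : ∀ x, C.cf (k x) (k x) = ((f x : ℂ) ^ 2) • C.cf vg vg := fun x =>
    C.prod_cf_smul (f x) vg
  have hfi : Integrable (fun x => ((f x : ℂ) ^ 2)) (Measure.haar : Measure G) := by
    apply Continuous.integrable_of_hasCompactSupport
    · exact (Complex.continuous_ofReal.comp hf).pow 2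
    · exact hfs.comp_left (g := fun t : ℝ => (t : ℂ) ^ 2) (by simp)
  have hki : Integrable (fun x => C.cf (k x) (k x)) (Measure.haar : Measure G) := by
    simp only [h6]
    exact hfi.smul_const _
  have h7 : ∫ x, C.cf (k x) (k x) ∂(Measure.haar : Measure G) = C.cf vg vg := by
    simp only [h6]
    rw [integral_smul_const]
    have h8 : ∫ x, ((f x : ℂ) ^ 2) ∂(Measure.haar : Measure G) = 1 := by
      have h9 : (fun x => ((f x : ℂ) ^ 2)) = fun x => ((f x ^ 2 : ℝ) : ℂ) := by
        funext x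
        push_cast
        rfl
      rw [h9, integral_complex_ofReal, hf1, Complex.ofReal_one]
    rw [h8, one_smul]
  have h8 : C.cf (cvec f hf hfs) (cvec f hf hfs) * C.cf vg vg - C.cf vg vg =
      ∫ x, (C.cf (w x) (w x) - C.cf (k x) (k x)) ∂(Measure.haar : Measure G) := by
    rw [integral_sub hint hki, h7, ← hprod]
  rw [h8, ← setIntegral_eq_integral_of_forall_compl_eq_zero (s := K) (fun x hx => by
    rw [h4 x hx, h5 x hx, sub_self])]
  refine (norm_setIntegral_le_of_norm_le_const (C := 2 * S * δ) hK.measure_lt_top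
    (fun x _ => ?_)).trans (le_of_eq rfl)
  have h9 := C.prod_norm_diff (w x) (k x)
  have h10 := h1 x
  have h11 := h2 x
  have h12 := h3 x
  have h13 := norm_nonneg (w x - k x)
  have h14 := norm_nonneg (w x)
  have h15 := norm_nonneg (k x)
  nlinarith [mul_le_mul h10 h11 h14 hδ, mul_le_mul h12 h10 h13 hS0]

end reg

end N305.FA
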