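import Pool.Agent.N305.FA.Stm

set_option autoImplicit false

/-!
# Project FA, part PRODI (helper281): the product of two coefficients as an integral
-/

namespace N305.FA

open MeasureTheory Filter Topology H434R3.Arens ComplexConjugate

universe u v

namespace ProdI

section
variable {G : Type u} [Group G] [TopologicalSpace G] [IsTopologicalGroup G]
  [LocallyCompactSpace G] [T2Space G] [MeasurableSpace G] [BorelSpace G]
  {A : Type v} [NonUnitalNormedRing A] [NormedSpace ℂ A] (C : CoefAlg (regRep G) A)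

theorem val_sub (a b : A) (s : G) : C.val (a - b) s = C.val a s - C.val b s := by
  have h : a - b = a + (-1 : ℂ) • b := by
    rw [neg_smul, one_smul, sub_eq_add_neg]
  rw [h, C.val_add, C.val_smul]
  ring

theorem cf_sub_left (ξ ξ' η : HG G) : C.cf (ξ - ξ') η = C.cf ξ η - C.cf ξ' η := by
  apply C.val_inj
  funext s
  rw [val_sub, C.val_cf, C.val_cf, C.val_cf, map_sub, inner_sub_right]

theorem cf_sub_right (ξ η η' : HG G) : C.cf ξ (η - η') = C.cf ξ η - C.cf ξ η' := by
  apply C.val_inj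
  funext s
  rw [val_sub, C.val_cf, C.val_cf, C.val_cf, inner_sub_left]

theorem diag_cont : Continuous (fun ξ : HG G => C.cf ξ ξ) := by
  rw [continuous_iff_continuousAt]
  intro ξ0
  rw [ContinuousAt, tendsto_iff_norm_sub_tendsto_zero]
  have h1 : ∀ ξ : HG G, ‖C.cf ξ ξ - C.cf ξ0 ξ0‖ ≤ ‖ξ - ξ0‖ * ‖ξ‖ + ‖ξ0‖ * ‖ξ - ξ0‖ := by
    intro ξ
    have e : C.cf ξ ξ - C.cf ξ0 ξ0 = C.cf (ξ - ξ0) ξ + C.cf ξ0 (ξ - ξ0) := by
      rw [cf_sub_left, cf_sub_right]
      abel
    rw [e]
    exact (norm_add_le _ _).trans (add_le_add (C.norm_cf _ _) (C.norm_cf _ _))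
  have h2 : Continuous (fun ξ : HG G => ‖ξ - ξ0‖ * ‖ξ‖ + ‖ξ0‖ * ‖ξ - ξ0‖) := by fun_prop
  have h3 := h2.tendsto ξ0
  simp only [sub_self, norm_zero, zero_mul, mul_zero, add_zero] at h3
  exact squeeze_zero (fun _ => norm_nonneg _) h1 h3

theorem diag_zero : C.cf (0 : HG G) 0 = 0 := by
  have h := C.norm_cf (0 : HG G) 0
  rw [norm_zero, mul_zero] at h
  exact norm_le_zero_iff.1 h

theorem norm_val_le (a : A) (s : G) : ‖C.val a s‖ ≤ ‖a‖ := by
  refine le_of_forall_pos_le_add fun ε hε => ?_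
  obtain ⟨ξ, η, h1, h2⟩ := C.approx a ε hε
  rw [h1, C.val_cf]
  rw [← h1]
  refine (norm_inner_le_norm _ _).trans ?_
  have h3 : ‖(regRep G).lam s ξ‖ = ‖ξ‖ :=
    LinearIsometry.norm_map (Lp.compMeasurePreservingₗᵢ ℂ (fun x => s⁻¹ * x)
      (measurePreserving_mul_left (Measure.haar : Measure G) s⁻¹)) ξ
  rw [h3, mul_comm]
  exact h2.le

/-- the value at `s` -/
noncomputable def evs (s : G) : A →L[ℂ] ℂ :=
  LinearMap.mkContinuous
    { toFun := fun a => C.val a s
      map_add' := fun a b => C.val_add a b s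
      map_smul' := fun c a => by rw [C.val_smul]; rfl } 1 (fun a => by
        rw [one_mul]
        exact norm_val_le C a s)

theorem evs_apply (s : G) (a : A) : evs C s a = C.val a s := rfl

/-- autocorrelation -/
noncomputable def ac (ψ : G → ℝ) (s : G) : ℝ :=
  ∫ y, ψ (s⁻¹ * y) * ψ y ∂(Measure.haar : Measure G)

theorem inner_cvec (ψ : G → ℝ) (hc : Continuous ψ) (hs : HasCompactSupport ψ) (s : G) :
    inner ℂ (cvec ψ hc hs) (rlam s (cvec ψ hc hs)) = ((ac ψ s : ℝ) : ℂ) := by
  rw [MeasureTheory.L2.inner_def]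
  unfold ac
  rw [← integral_complex_ofReal]
  refine integral_congr_ae ?_
  have h1 : (cvec ψ hc hs : G → ℂ) =ᵐ[Measure.haar] fun x => (ψ x : ℂ) :=
    MemLp.coeFn_toLp (memC ψ hc hs)
  have h2 := coeFn_rlam s (cvec ψ hc hs)
  have h3 := (measurePreserving_mul_left (Measure.haar : Measure G) s⁻¹).quasiMeasurePreserving.ae_eq_comp
    h1
  filter_upwards [h1, h2, h3] with x e1 e2 e3
  simp only [Function.comp] at e3
  rw [e1, e2, e3, RCLike.inner_apply]
  simp

end

end ProdI

open ProdI Pointwise in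
theorem prodI (h : WCONT_stm.{u}) : PRODI_stm.{u, v} := by
  intro G _ _ _ _ _ _ _ A _ _ _ C f g hf hg hfs hgs
  obtain ⟨wc, ws⟩ := h G f g hf hg hfs hgs
  have hint : Integrable (fun x : G => C.cf (wvec f g hf hg hgs x) (wvec f g hf hg hgs x))
      (Measure.haar : Measure G) := by
    refine Continuous.integrable_of_hasCompactSupport ((diag_cont C).comp wc) ?_
    exact ws.comp_left (g := fun ξ : HG G => C.cf ξ ξ) (diag_zero C)
  refine ⟨hint, ?_⟩
  apply C.val_inj
  funext s
  rw [C.val_mul, C.val_cf, C.val_cf, ← evs_apply C s (∫ x, _ ∂_),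
    ← ContinuousLinearMap.integral_comp_comm _ hint]
  have e1 : ∀ x : G, evs C s (C.cf (wvec f g hf hg hgs x) (wvec f g hf hg hgs x)) =
      ((ac (fun y => f (y * x) * g y) s : ℝ) : ℂ) := by
    intro x
    rw [evs_apply, C.val_cf]
    exact inner_cvec _ (wcont hf hg x) (wsupp hgs x) s
  have e2 : inner ℂ (cvec f hf hfs) ((regRep G).lam s (cvec f hf hfs)) = ((ac f s : ℝ) : ℂ) :=
    inner_cvec f hf hfs s
  have e3 : inner ℂ (cvec g hg hgs) ((regRep G).lam s (cvec g hg hgs)) = ((ac g s : ℝ) : ℂ) :=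
    inner_cvec g hg hgs s
  rw [e2, e3]
  simp only [e1]
  rw [integral_complex_ofReal, ← Complex.ofReal_mul]
  congr 1
  -- Fubini
  symm
  unfold ac
  have hcont : Continuous (Function.uncurry fun x y : G =>
      f (s⁻¹ * y * x) * g (s⁻¹ * y) * (f (y * x) * g y)) := by
    have c1 : Continuous (fun p : G × G => f (s⁻¹ * p.2 * p.1)) := hf.comp (by fun_prop)
    have c2 : Continuous (fun p : G × G => g (s⁻¹ * p.2)) := hg.comp (by fun_prop)
    have c3 : Continuous (fun p : G × G => f (p.2 * p.1)) := hf.comp (by fun_prop)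
    have c4 : Continuous (fun p : G × G => g p.2) := hg.comp (by fun_prop)
    exact (c1.mul c2).mul (c3.mul c4)
  have hsupp : HasCompactSupport (Function.uncurry fun x y : G =>
      f (s⁻¹ * y * x) * g (s⁻¹ * y) * (f (y * x) * g y)) := by
    have hK : IsCompact (((tsupport g)⁻¹ * tsupport f) ×ˢ tsupport g) :=
      (hgs.isCompact.inv.mul hfs.isCompact).prod hgs.isCompact
    refine HasCompactSupport.intro hK ?_
    rintro ⟨x, y⟩ hxy
    show f (s⁻¹ * y * x) * g (s⁻¹ * y) * (f (y * x) * g y) = 0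
    by_cases hy : y ∈ tsupport g
    · have hx : y * x ∉ tsupport f := by
        intro hx
        apply hxy
        refine ⟨?_, hy⟩
        refine Set.mem_mul.2 ⟨y⁻¹, Set.inv_mem_inv.2 hy, y * x, hx, by group⟩
      rw [image_eq_zero_of_notMem_tsupport hx, zero_mul, mul_zero]
    · rw [image_eq_zero_of_notMem_tsupport hy, mul_zero, mul_zero]
  rw [integral_integral_swap_of_hasCompactSupport hcont hsupp]
  have e4 : ∀ y : G, ∫ x, f (s⁻¹ * y * x) * g (s⁻¹ * y) * (f (y * x) * g y)
      ∂(Measure.haar : Measure G) =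
      (∫ x, f (s⁻¹ * x) * f x ∂(Measure.haar : Measure G)) * (g (s⁻¹ * y) * g y) := by
    intro y
    have e5 := integral_mul_left_eq_self (μ := (Measure.haar : Measure G))
      (fun x => f (s⁻¹ * x) * f x) y
    rw [← e5, ← integral_mul_const]
    refine integral_congr_ae (Eventually.of_forall fun x => ?_)
    show f (s⁻¹ * y * x) * g (s⁻¹ * y) * (f (y * x) * g y) =
      f (s⁻¹ * (y * x)) * f (y * x) * (g (s⁻¹ * y) * g y)
    rw [mul_assoc s⁻¹ y x]
    ring
  simp only [e4]
  rw [integral_const_mul]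

end N305.FA
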