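import Pool.Agent.N305.FA.Stm

set_option autoImplicit false

/-!
# FA/PSEQ: asymptotic multiplicativity along the sequence
-/

namespace N305.FA

open MeasureTheory Filter Topology Pointwise

universe u v

theorem pseq (h : PROD_stm.{u, v}) : PSEQ_stm.{u, v} := by
  intro G _ _ _ _ _ _ _ A _ _ _ C D k
  obtain ⟨S, hS⟩ := (D.cont k).bounded_above_of_compact_support (D.supp k)
  set K' : Set G := tsupport (D.f k) ∪ (D.K)⁻¹ * tsupport (D.f k) with hK'
  have hK'c : IsCompact K' := IsCompact.union (D.supp k) (D.compK.inv.mul (D.supp k))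
  have hbound : ∀ n, k < n → ‖C.cf (D.v k) (D.v k) * C.cf (D.v n) (D.v n) -
      C.cf (D.v n) (D.v n)‖ ≤
      2 * S * (1 / ((n : ℝ) + 1)) * ((Measure.haar : Measure G) K').toReal := by
    intro n hn
    refine h G A C (D.f k) (D.f n) (D.cont k) (D.cont n) (D.supp k) (D.supp n) K' (D.U n) S
      (1 / ((n : ℝ) + 1)) hK'c (by positivity) (fun x => hS x) ?_ ?_
      (D.unif k n hn) (D.sub n) (D.int k) (D.int n)
    · intro x hx
      by_contra hne
      exact hx (Or.inl (subset_tsupport _ hne))
    · intro x hx y hy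
      by_contra hne
      apply hx
      right
      have h1 : y * x ∈ tsupport (D.f k) := subset_tsupport _ hne
      have h2 : y⁻¹ ∈ (D.K)⁻¹ := Set.inv_mem_inv.2 (D.UK n hy)
      have h3 := Set.mul_mem_mul h2 h1
      rwa [inv_mul_cancel_left] at h3
  apply squeeze_zero_norm' (a := fun n : ℕ =>
    2 * S * (1 / ((n : ℝ) + 1)) * ((Measure.haar : Measure G) K').toReal)
  · filter_upwards [eventually_gt_atTop k] with n hn
    exact hbound n hn
  · have h1 : Tendsto (fun n : ℕ => 2 * S * (1 / ((n : ℝ) + 1)) *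
        ((Measure.haar : Measure G) K').toReal) atTop
        (𝓝 (2 * S * 0 * ((Measure.haar : Measure G) K').toReal)) :=
      (tendsto_one_div_add_atTop_nhds_zero_nat.const_mul _).mul_const _
    simpa using h1

end N305.FA
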