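import Pool.Agent.N305.FA.Stm

set_option autoImplicit false

/-!
# FA/RCONT: strong continuity of the regular representation
-/

namespace N305.FA

open MeasureTheory Filter Topology

universe u

theorem rcont : RCONT_stm.{u} := by
  intro G _ _ _ _ _ _ _ ξ
  let F : G → C(G, G) := fun s => ⟨fun x : G => s⁻¹ * x, by fun_prop⟩
  have hf : Continuous F := by
    apply ContinuousMap.continuous_of_continuous_uncurry
    show Continuous (fun p : G × G => p.1⁻¹ * p.2)
    fun_prop
  have hm : ∀ s, MeasurePreserving (F s) (Measure.haar : Measure G) Measure.haar :=
    fun s => measurePreserving_mul_left (Measure.haar : Measure G) s⁻¹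
  have hξ : Continuous (fun _ : G => ξ) := continuous_const
  have key := hξ.compMeasurePreservingLp (μ := (Measure.haar : Measure G)) (g := F) hf hm
    (by norm_num)
  exact key

end N305.FA
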