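import Pool.Agent.N305.FA.Stm

set_option autoImplicit false
set_option linter.unusedSectionVars false

/-!
# FA/SEQ: the sequence of bump functions
-/

namespace N305.FA

open MeasureTheory Filter Topology

universe u

section SeqSec

variable {G : Type u} [Group G] [TopologicalSpace G] [IsTopologicalGroup G]
  [LocallyCompactSpace G] [MeasurableSpace G] [BorelSpace G]

/-- a normalized bump function -/
theorem seq_bump (V : Set G) (hV : V ∈ 𝓝 (1 : G)) : ∃ f : G → ℝ, Continuous f ∧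
    HasCompactSupport f ∧ (∀ x, 0 ≤ f x) ∧
    ∫ x, f x ^ 2 ∂(Measure.haar : Measure G) = 1 ∧ ∀ x, f x ≠ 0 → x ∈ V := by
  have h1 : (1 : G) ∈ interior V := mem_interior_iff_mem_nhds.2 hV
  obtain ⟨g, hg1, hg0, hgc, hgI⟩ := exists_continuous_one_zero_of_isCompact
    (isCompact_singleton (x := (1 : G))) (isOpen_interior (s := V)).isClosed_compl
    (by
      rw [Set.disjoint_singleton_left]
      intro h
      exact h h1)
  have hg1' : g 1 = 1 := hg1 rfl
  set I : ℝ := ∫ x, g x ^ 2 ∂(Measure.haar : Measure G) with hI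
  have hIpos : 0 < I := by
    rw [hI]
    apply Continuous.integral_pos_of_hasCompactSupport_nonneg_nonzero (x := (1 : G))
    · exact g.continuous.pow 2
    · exact hgc.comp_left (g := fun t : ℝ => t ^ 2) (by simp)
    · intro x
      exact sq_nonneg _
    · rw [hg1']
      norm_num
  have hs : 0 < Real.sqrt I := Real.sqrt_pos.2 hIpos
  refine ⟨fun x => g x / Real.sqrt I, g.continuous.div_const _, ?_, ?_, ?_, ?_⟩
  · exact hgc.comp_left (g := fun t : ℝ => t / Real.sqrt I) (by simp)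
  · intro x
    exact div_nonneg (hgI x).1 hs.le
  · have e1 : ∀ x, (g x / Real.sqrt I) ^ 2 = g x ^ 2 / I := by
      intro x
      rw [div_pow, Real.sq_sqrt hIpos.le]
    simp_rw [e1]
    rw [integral_div, ← hI, div_self hIpos.ne']
  · intro x hx
    by_contra hxV
    apply hx
    have h2 : g x = 0 := by
      apply hg0
      intro h
      exact hxV (interior_subset h)
    show g x / Real.sqrt I = 0
    rw [h2, zero_div]

/-- uniform continuity of compactly supported functions -/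
theorem seq_unif (f : G → ℝ) (hf : Continuous f) (hs : HasCompactSupport f) (δ : ℝ) (hδ : 0 < δ) :
    ∃ V ∈ 𝓝 (1 : G), ∀ y ∈ V, ∀ x, |f (y * x) - f x| ≤ δ := by
  let _ : UniformSpace G := IsTopologicalGroup.rightUniformSpace G
  have hu : UniformContinuous f := hs.uniformContinuous_of_continuous hf
  have h1 : {p : G × G | dist (f p.1) (f p.2) < δ} ∈ uniformity G :=
    hu (Metric.dist_mem_uniformity hδ)
  have h2 : uniformity G = Filter.comap (fun p : G × G => p.2 * p.1⁻¹) (𝓝 1) := rfl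
  rw [h2, Filter.mem_comap] at h1
  obtain ⟨V, hV, hV2⟩ := h1
  refine ⟨V, hV, fun y hy x => ?_⟩
  have h3 : (x, y * x) ∈ (fun p : G × G => p.2 * p.1⁻¹) ⁻¹' V := by
    show y * x * x⁻¹ ∈ V
    rw [mul_inv_cancel_right]
    exact hy
  have h4 : dist (f x) (f (y * x)) < δ := hV2 h3
  rw [dist_comm, Real.dist_eq] at h4
  exact h4.le

theorem seq (h : SMALL_stm.{u}) : SEQ_stm.{u} := by
  intro G _ _ _ _ _ _ _ hnd
  classical
  obtain ⟨K, hK, hKn⟩ := exists_compact_mem_nhds (1 : G)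
  set P : ℕ × (G → ℝ) × Set G → Prop := fun a => Continuous a.2.1 ∧ HasCompactSupport a.2.1 ∧
    (∀ x, 0 ≤ a.2.1 x) ∧ ∫ x, a.2.1 x ^ 2 ∂(Measure.haar : Measure G) = 1 ∧
    (∀ x, a.2.1 x ≠ 0 → x ∈ a.2.2) ∧ a.2.2 ⊆ K ∧
    (Measure.haar : Measure G) {x | ∃ u ∈ a.2.2, ∃ v ∈ a.2.2, x = u * v⁻¹} ≤
      ENNReal.ofReal (1 / ((a.1 : ℝ) + 1)) with hP
  set r : ℕ × (G → ℝ) × Set G → ℕ × (G → ℝ) × Set G → Prop := fun a b => a.1 < b.1 ∧
    ∀ y ∈ b.2.2, ∀ x, |a.2.1 (y * x) - a.2.1 x| ≤ 1 / ((b.1 : ℝ) + 1) with hr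
  have hstep : ∀ s : Finset (ℕ × (G → ℝ) × Set G), (∀ a ∈ s, P a) →
      ∃ b, P b ∧ ∀ a ∈ s, r a b := by
    intro s hs
    set N : ℕ := s.sup (fun a => a.1) + 1 with hN
    have hNpos : (0 : ℝ) < 1 / ((N : ℝ) + 1) := by positivity
    obtain ⟨W, hW, hWs⟩ := h G hnd (1 / ((N : ℝ) + 1)) hNpos
    have hch : ∀ a : ℕ × (G → ℝ) × Set G, ∃ V ∈ 𝓝 (1 : G), a ∈ s →
        ∀ y ∈ V, ∀ x, |a.2.1 (y * x) - a.2.1 x| ≤ 1 / ((N : ℝ) + 1) := by
      intro a
      by_cases ha : a ∈ s
      · obtain ⟨V, hV, hV2⟩ := seq_unif a.2.1 (hs a ha).1 (hs a ha).2.1 _ hNpos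
        exact ⟨V, hV, fun _ => hV2⟩
      · exact ⟨Set.univ, univ_mem, fun h => absurd h ha⟩
    choose V hV hV2 using hch
    set U : Set G := K ∩ (W ∩ ⋂ a ∈ s, V a) with hU
    have hUn : U ∈ 𝓝 (1 : G) := by
      refine inter_mem hKn (inter_mem hW ?_)
      rw [Filter.biInter_finset_mem]
      intro a _
      exact hV a
    obtain ⟨f, hf1, hf2, hf3, hf4, hf5⟩ := seq_bump U hUn
    refine ⟨(N, f, U), ⟨hf1, hf2, hf3, hf4, hf5, Set.inter_subset_left, ?_⟩, ?_⟩
    · refine le_trans (measure_mono ?_) hWs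
      rintro x ⟨u, hu, v, hv, hx⟩
      exact ⟨u, hu.2.1, v, hv.2.1, hx⟩
    · intro a ha
      refine ⟨?_, ?_⟩
      · show a.1 < N
        have : a.1 ≤ s.sup (fun a => a.1) := Finset.le_sup (f := fun a : ℕ × (G → ℝ) × Set G => a.1) ha
        omega
      · intro y hy x
        have hy2 : y ∈ V a := by
          have := hy.2.2
          rw [Set.mem_iInter₂] at this
          exact this a ha
        exact hV2 a ha y hy2 x
  obtain ⟨a, ha1, ha2⟩ := exists_seq_of_forall_finset_exists P r hstep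
  have hmono : StrictMono (fun n => (a n).1) := by
    apply strictMono_nat_of_lt_succ
    intro n
    exact (ha2 n (n + 1) (Nat.lt_succ_self n)).1
  have hge : ∀ n, n ≤ (a n).1 := fun n => hmono.id_le n
  have hle : ∀ n : ℕ, 1 / (((a n).1 : ℝ) + 1) ≤ 1 / ((n : ℝ) + 1) := by
    intro n
    apply one_div_le_one_div_of_le (by positivity)
    have : (n : ℝ) ≤ ((a n).1 : ℝ) := by exact_mod_cast hge n
    linarith
  refine ⟨{
    f := fun n => (a n).2.1
    U := fun n => (a n).2.2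
    K := K
    cont := fun n => (ha1 n).1
    supp := fun n => (ha1 n).2.1
    nonneg := fun n => (ha1 n).2.2.1
    int := fun n => (ha1 n).2.2.2.1
    sub := fun n => (ha1 n).2.2.2.2.1
    compK := hK
    UK := fun n => (ha1 n).2.2.2.2.2.1
    small := fun n => (ha1 n).2.2.2.2.2.2.trans (ENNReal.ofReal_le_ofReal (hle n))
    unif := fun k n hkn y hy x => ((ha2 k n hkn).2 y hy x).trans (hle n) }⟩

end SeqSec

end N305.FA
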