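import Pool.Agent.N305.FA.Stm

set_option autoImplicit false

/-!
# FA/SMALL: small neighbourhoods in non-discrete groups
-/

namespace N305.FA

open MeasureTheory Filter Topology

universe u

theorem small : SMALL_stm.{u} := by
  intro G _ _ _ _ _ _ _ hnd ε hε
  have hne : (𝓝[≠] (1 : G)).NeBot := by
    by_contra h
    rw [not_neBot] at h
    exact hnd (discreteTopology_of_isOpen_singleton_one
      ((isOpen_singleton_iff_punctured_nhds (1 : G)).2 h))
  have hna : NullSingletonClass (Measure.haar : Measure G) :=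
    Measure.IsHaarMeasure.nullSingletonClass _
  have h0 : (Measure.haar : Measure G) {1} < ENNReal.ofReal ε := by
    rw [measure_singleton]
    exact ENNReal.ofReal_pos.2 hε
  obtain ⟨V, hV1, hVo, hV⟩ := Set.exists_isOpen_lt_of_lt ({1} : Set G) _ h0
  have h1V : (1 : G) ∈ V := hV1 rfl
  have hc : Continuous (fun p : G × G => p.1 * p.2⁻¹) := by fun_prop
  have h2 : (fun p : G × G => p.1 * p.2⁻¹) ⁻¹' V ∈ 𝓝 ((1 : G), (1 : G)) := by
    apply (hVo.preimage hc).mem_nhds
    show (1 : G) * (1 : G)⁻¹ ∈ V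
    rw [inv_one, mul_one]
    exact h1V
  rw [nhds_prod_eq, Filter.mem_prod_self_iff] at h2
  obtain ⟨U, hU, hUV⟩ := h2
  refine ⟨U, hU, le_trans (measure_mono ?_) hV.le⟩
  rintro x ⟨a, ha, b, hb, rfl⟩
  exact hUV (Set.mk_mem_prod ha hb)

end N305.FA
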