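import Pool.Agent.N305.FA.Def

set_option autoImplicit false
set_option linter.unusedSectionVars false

/-!
# Statements of the parts of project FA (radical of the bidual of the Fourier algebra)
-/

namespace N305.FA

open MeasureTheory Filter Topology H434R3.Arens ComplexConjugate

universe u v w

/-! ## Models -/

/-- MODEL -/
def MODEL_stm : Prop := ∀ (G : Type u) [Group G] [TopologicalSpace G] [IsTopologicalGroup G]
  [LocallyCompactSpace G] [T2Space G] [MeasurableSpace G] [BorelSpace G]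
  (A : Type v) [NonUnitalNormedRing A] [NormedSpace ℂ A] (M : FourierAlg G A),
  ∃ C : CoefAlg (regRep G) A, C.val = M.val

/-- MODD: the discrete case -/
def MODD_stm : Prop := ∀ (G : Type u) [Group G] [TopologicalSpace G] [IsTopologicalGroup G]
  [LocallyCompactSpace G] [T2Space G] [MeasurableSpace G] [BorelSpace G] [DiscreteTopology G]
  (A : Type v) [NonUnitalNormedRing A] [NormedSpace ℂ A] (M : FourierAlg G A),
  ∃ C : CoefAlg (dRep G) A, C.val = M.val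

/-! ## Abstract operator theory -/

/-- FUNCT: a bounded sequence of operators in the von Neumann algebra gives a functional. -/
def FUNCT_stm : Prop := ∀ (G : Type u) [Group G] (H : Type w) [NormedAddCommGroup H]
  [InnerProductSpace ℂ H] (L : URep G H) (A : Type v) [NonUnitalNormedRing A] [NormedSpace ℂ A]
  (C : CoefAlg L A) (R : ℕ → H →L[ℂ] H), (∀ K, R K ∈ VN L) → (∀ K, ‖R K‖ ≤ 1) →
  ∃ F : A →L[ℂ] ℂ, ∀ (ξ η : H) (c : ℝ),
    ((∀ᶠ K in atTop, c ≤ (inner ℂ η (R K ξ)).re) → c ≤ (F (C.cf ξ η)).re) ∧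
    ((∀ᶠ K in atTop, (inner ℂ η (R K ξ)).re ≤ c) → (F (C.cf ξ η)).re ≤ c)

/-- VNALG -/
def VNALG_stm : Prop := ∀ (G : Type u) [Group G] (H : Type w) [NormedAddCommGroup H]
  [InnerProductSpace ℂ H] [CompleteSpace H] (L : URep G H),
  (∀ s, L.lam s ∈ VN L) ∧ (∀ S T : H →L[ℂ] H, S ∈ VN L → T ∈ VN L → S * T ∈ VN L) ∧
  (∀ T : H →L[ℂ] H, T ∈ VN L → star T ∈ VN L) ∧ IsClosed (VN L : Set (H →L[ℂ] H))

/-- BSUB (uses VNALG) -/
def BSUB_stm : Prop := ∀ (G : Type u) [Group G] (H : Type w) [NormedAddCommGroup H]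
  [InnerProductSpace ℂ H] [CompleteSpace H] (L : URep G H) (v : ℕ → H), (∀ m, ‖v m‖ ≤ 1) →
  ∃ B : NonUnitalStarSubalgebra ℂ (H →L[ℂ] H), IsClosed (B : Set (H →L[ℂ] H)) ∧
    ∀ b, b ∈ B ↔ b ∈ VN L ∧ Tendsto (fun m => b (v m)) atTop (𝓝 0) ∧
      Tendsto (fun m => (star b) (v m)) atTop (𝓝 0)

/-- DIR: directedness of the positive part of the open unit ball of a C*-algebra -/
def DIR_stm : Prop := ∀ (H : Type w) [NormedAddCommGroup H]
  [InnerProductSpace ℂ H] [CompleteSpace H] (B : NonUnitalStarSubalgebra ℂ (H →L[ℂ] H)),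
  IsClosed (B : Set (H →L[ℂ] H)) → ∀ S T : H →L[ℂ] H, S ∈ B → T ∈ B → S.IsPositive →
  T.IsPositive → ‖S‖ < 1 → ‖T‖ < 1 →
  ∃ R ∈ B, R.IsPositive ∧ ‖R‖ < 1 ∧ (R - S).IsPositive ∧ (R - T).IsPositive

/-- An increasing sequence `0 ≤ T k ≤ 1` with `⟨T k v m, v m⟩ → 0` as `m → ∞` and `→ 1` as
`k → ∞`. -/
structure Incr {H : Type w} [NormedAddCommGroup H] [InnerProductSpace ℂ H]
    (v : ℕ → H) (T : ℕ → H →L[ℂ] H) : Prop where
  pos : ∀ k, (T k).IsPositive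
  le_one : ∀ k, (1 - T k).IsPositive
  mono : ∀ k, (T (k + 1) - T k).IsPositive
  lim0 : ∀ k, Tendsto (fun m => (inner ℂ (v m) (T k (v m))).re) atTop (𝓝 0)
  lim1 : ∀ m, Tendsto (fun k => (inner ℂ (v m) (T k (v m))).re) atTop (𝓝 1)

/-- INCR (uses BSUB, DIR) -/
def INCR_stm : Prop := ∀ (G : Type u) [Group G] (H : Type w) [NormedAddCommGroup H]
  [InnerProductSpace ℂ H] [CompleteSpace H] (L : URep G H) (v : ℕ → H), (∀ m, ‖v m‖ = 1) →
  (∀ (N : ℕ) (ε : ℝ), 0 < ε → ∃ S ∈ VN L, S.IsPositive ∧ ‖S‖ < 1 ∧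
    (∀ j < N, 1 - ε ≤ (inner ℂ (v j) (S (v j))).re) ∧
    Tendsto (fun m => S (v m)) atTop (𝓝 0)) →
  ∃ T : ℕ → H →L[ℂ] H, (∀ k, T k ∈ VN L) ∧ Incr v T

/-- HUMP -/
def HUMP_stm : Prop := ∀ (H : Type w) [NormedAddCommGroup H]
  [InnerProductSpace ℂ H] [CompleteSpace H] (v : ℕ → H) (T : ℕ → H →L[ℂ] H), (∀ m, ‖v m‖ = 1) →
  Incr v T → ∀ P : Submodule ℂ (H →L[ℂ] H), (∀ k, T k ∈ P) →
  ∃ (e o : ℕ → ℕ) (R : ℕ → H →L[ℂ] H), StrictMono e ∧ StrictMono o ∧ (∀ K, R K ∈ P) ∧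
    (∀ K, ‖R K‖ ≤ 1) ∧
    (∀ i, ∀ᶠ K in atTop, 3 / 4 ≤ (inner ℂ (v (e i)) (R K (v (e i)))).re) ∧
    (∀ i, ∀ᶠ K in atTop, (inner ℂ (v (o i)) (R K (v (o i)))).re ≤ 1 / 4)

/-- TPOW -/
def TPOW_stm : Prop := ∀ (H : Type w) [NormedAddCommGroup H]
  [InnerProductSpace ℂ H] [CompleteSpace H] (a : H →L[ℂ] H) (v : ℕ → H), a.IsPositive →
  ‖a‖ ≤ 1 → (∀ x, a x = x → x = 0) → (∀ m, ‖v m‖ = 1) →
  Tendsto (fun m => a (v m) - v m) atTop (𝓝 0) → Incr v (fun k => 1 - a ^ k)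

/-! ## Arens products -/

/-- ARENSA -/
def ARENSA_stm : Prop := ∀ (A : Type v) [NonUnitalNormedRing A] [NormedSpace ℂ A]
  [IsScalarTower ℂ A A] [SMulCommClass ℂ A A], (∀ a b : A, a * b = b * a) →
  ∀ (w z : ℕ → A) (F : A →L[ℂ] ℂ), (∀ i, ‖w i‖ ≤ 1) → (∀ i, ‖z i‖ ≤ 1) →
  (∀ i, 3 / 4 ≤ (F (w i)).re) → (∀ i, (F (z i)).re ≤ 1 / 4) →
  (∀ k, Tendsto (fun i => w k * w i - w i) atTop (𝓝 0)) →
  (∀ k, Tendsto (fun i => w k * z i - z i) atTop (𝓝 0)) →
  (∀ k, Tendsto (fun i => z k * w i - w i) atTop (𝓝 0)) →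
  (∀ k, Tendsto (fun i => z k * z i - z i) atTop (𝓝 0)) →
  ∃ Φ : Bidual A, Φ ≠ 0 ∧ ∀ Ψ : Bidual A, Φ * Ψ * Φ = 0

/-- ARENSB -/
def ARENSB_stm : Prop := ∀ (A : Type v) [NonUnitalNormedRing A] [NormedSpace ℂ A]
  [IsScalarTower ℂ A A] [SMulCommClass ℂ A A] (b : ℕ → A) (F : A →L[ℂ] ℂ) (c : ℝ),
  (∀ i, ‖b i‖ ≤ c) → (∀ i, 1 / 2 ≤ (F (b i)).re) → (∀ a, Tendsto (fun i => a * b i) atTop (𝓝 0)) →
  ∃ Φ : Bidual A, Φ ≠ 0 ∧ ∀ Ψ : Bidual A, Φ * Ψ * Φ = 0

/-! ## Non-discrete groups -/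

section Nondiscrete

/-- SMALL -/
def SMALL_stm : Prop := ∀ (G : Type u) [Group G] [TopologicalSpace G] [IsTopologicalGroup G]
  [LocallyCompactSpace G] [T2Space G] [MeasurableSpace G] [BorelSpace G],
  ¬ DiscreteTopology G → ∀ ε : ℝ, 0 < ε → ∃ U ∈ 𝓝 (1 : G),
    (Measure.haar : Measure G) {x | ∃ a ∈ U, ∃ b ∈ U, x = a * b⁻¹} ≤ ENNReal.ofReal ε

variable (G : Type u) [Group G] [TopologicalSpace G] [IsTopologicalGroup G]
  [LocallyCompactSpace G] [T2Space G] [MeasurableSpace G] [BorelSpace G]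

/-- a sequence of normalized continuous functions with shrinking supports -/
structure SeqData where
  f : ℕ → G → ℝ
  U : ℕ → Set G
  K : Set G
  cont : ∀ n, Continuous (f n)
  supp : ∀ n, HasCompactSupport (f n)
  nonneg : ∀ n x, 0 ≤ f n x
  int : ∀ n, ∫ x, f n x ^ 2 ∂(Measure.haar : Measure G) = 1
  sub : ∀ n x, f n x ≠ 0 → x ∈ U n
  compK : IsCompact K
  UK : ∀ n, U n ⊆ K
  small : ∀ n, (Measure.haar : Measure G) {x | ∃ a ∈ U n, ∃ b ∈ U n, x = a * b⁻¹} ≤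
    ENNReal.ofReal (1 / (n + 1))
  unif : ∀ k n, k < n → ∀ y ∈ U n, ∀ x, |f k (y * x) - f k x| ≤ 1 / (n + 1)

variable {G}

lemma memC (f : G → ℝ) (hf : Continuous f) (hs : HasCompactSupport f) :
    MemLp (fun x => (f x : ℂ)) 2 (Measure.haar : Measure G) := by
  apply Continuous.memLp_of_hasCompactSupport (Complex.continuous_ofReal.comp hf)
  exact hs.comp_left (g := fun t : ℝ => (t : ℂ)) (by simp)

/-- a real continuous function with compact support as an element of `L²(G)` -/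
noncomputable def cvec (f : G → ℝ) (hf : Continuous f) (hs : HasCompactSupport f) : HG G :=
  (memC f hf hs).toLp _

/-- the vectors of the sequence -/
noncomputable def SeqData.v (D : SeqData G) (n : ℕ) : HG G := cvec (D.f n) (D.cont n) (D.supp n)

lemma wcont {f g : G → ℝ} (hf : Continuous f) (hg : Continuous g) (x : G) :
    Continuous (fun y => f (y * x) * g y) :=
  (hf.comp (continuous_mul_right x)).mul hg

lemma wsupp {f g : G → ℝ} (hgs : HasCompactSupport g) (x : G) :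
    HasCompactSupport (fun y => f (y * x) * g y) :=
  HasCompactSupport.mul_left hgs

/-- the vector `y ↦ f(y x) g(y)` -/
noncomputable def wvec (f g : G → ℝ) (hf : Continuous f) (hg : Continuous g)
    (hgs : HasCompactSupport g) (x : G) : HG G :=
  cvec (fun y => f (y * x) * g y) (wcont hf hg x) (wsupp hgs x)

/-- SEQ (uses SMALL) -/
def SEQ_stm : Prop := ∀ (G : Type u) [Group G] [TopologicalSpace G] [IsTopologicalGroup G]
  [LocallyCompactSpace G] [T2Space G] [MeasurableSpace G] [BorelSpace G],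
  ¬ DiscreteTopology G → Nonempty (SeqData G)

/-- RCONT: strong continuity of the regular representation -/
def RCONT_stm : Prop := ∀ (G : Type u) [Group G] [TopologicalSpace G] [IsTopologicalGroup G]
  [LocallyCompactSpace G] [T2Space G] [MeasurableSpace G] [BorelSpace G] (ξ : HG G),
  Continuous (fun s : G => rlam s ξ)

/-- WCONT: continuity of `x ↦ wvec f g x` -/
def WCONT_stm : Prop := ∀ (G : Type u) [Group G] [TopologicalSpace G] [IsTopologicalGroup G]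
  [LocallyCompactSpace G] [T2Space G] [MeasurableSpace G] [BorelSpace G] (f g : G → ℝ)
  (hf : Continuous f) (hg : Continuous g) (hfs : HasCompactSupport f) (hgs : HasCompactSupport g),
  Continuous (fun x : G => wvec f g hf hg hgs x) ∧
  HasCompactSupport (fun x : G => wvec f g hf hg hgs x)

/-- PRODI (uses WCONT): the product as an integral of coefficients -/
def PRODI_stm : Prop := ∀ (G : Type u) [Group G] [TopologicalSpace G] [IsTopologicalGroup G]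
  [LocallyCompactSpace G] [T2Space G] [MeasurableSpace G] [BorelSpace G]
  (A : Type v) [NonUnitalNormedRing A] [NormedSpace ℂ A] [CompleteSpace A]
  (C : CoefAlg (regRep G) A) (f g : G → ℝ)
  (hf : Continuous f) (hg : Continuous g) (hfs : HasCompactSupport f) (hgs : HasCompactSupport g),
  Integrable (fun x : G => C.cf (wvec f g hf hg hgs x) (wvec f g hf hg hgs x))
    (Measure.haar : Measure G) ∧
  C.cf (cvec f hf hfs) (cvec f hf hfs) * C.cf (cvec g hg hgs) (cvec g hg hgs) =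
    ∫ x, C.cf (wvec f g hf hg hgs x) (wvec f g hf hg hgs x) ∂(Measure.haar : Measure G)

/-- PROD (uses PRODI): `u_f u_g` is close to `u_g` if `g` is supported near `1`. -/
def PROD_stm : Prop := ∀ (G : Type u) [Group G] [TopologicalSpace G] [IsTopologicalGroup G]
  [LocallyCompactSpace G] [T2Space G] [MeasurableSpace G] [BorelSpace G]
  (A : Type v) [NonUnitalNormedRing A] [NormedSpace ℂ A] [CompleteSpace A]
  (C : CoefAlg (regRep G) A) (f g : G → ℝ)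
  (hf : Continuous f) (hg : Continuous g) (hfs : HasCompactSupport f) (hgs : HasCompactSupport g)
  (K U : Set G) (S δ : ℝ), IsCompact K → 0 ≤ δ → (∀ x, |f x| ≤ S) →
  (∀ x, x ∉ K → f x = 0) → (∀ x, x ∉ K → ∀ y ∈ U, f (y * x) = 0) →
  (∀ y ∈ U, ∀ x, |f (y * x) - f x| ≤ δ) → (∀ x, g x ≠ 0 → x ∈ U) →
  ∫ x, f x ^ 2 ∂(Measure.haar : Measure G) = 1 → ∫ x, g x ^ 2 ∂(Measure.haar : Measure G) = 1 →
  ‖C.cf (cvec f hf hfs) (cvec f hf hfs) * C.cf (cvec g hg hgs) (cvec g hg hgs) -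
    C.cf (cvec g hg hgs) (cvec g hg hgs)‖ ≤ 2 * S * δ * ((Measure.haar : Measure G) K).toReal

/-- PSEQ (uses PROD) -/
def PSEQ_stm : Prop := ∀ (G : Type u) [Group G] [TopologicalSpace G] [IsTopologicalGroup G]
  [LocallyCompactSpace G] [T2Space G] [MeasurableSpace G] [BorelSpace G]
  (A : Type v) [NonUnitalNormedRing A] [NormedSpace ℂ A] [CompleteSpace A]
  (C : CoefAlg (regRep G) A) (D : SeqData G) (k : ℕ),
  Tendsto (fun n => C.cf (D.v k) (D.v k) * C.cf (D.v n) (D.v n) - C.cf (D.v n) (D.v n))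
    atTop (𝓝 0)

/-- OPA (uses RCONT): the operator `λ(ψ)` -/
def OPA_stm : Prop := ∀ (G : Type u) [Group G] [TopologicalSpace G] [IsTopologicalGroup G]
  [LocallyCompactSpace G] [T2Space G] [MeasurableSpace G] [BorelSpace G] (ψ : G → ℝ),
  Continuous ψ → HasCompactSupport ψ → (∀ x, 0 ≤ ψ x) →
  ∫ x, ψ x ∂(Measure.haar : Measure G) = 1 →
  ∃ T ∈ VN (regRep G), ‖T‖ ≤ 1 ∧
    ∀ ξ η : HG G, inner ℂ η (T ξ) =
      ∫ s, (ψ s : ℂ) * inner ℂ η (rlam s ξ) ∂(Measure.haar : Measure G)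

/-- OPB (uses OPA, RCONT, VNALG) -/
def OPB_stm : Prop := ∀ (G : Type u) [Group G] [TopologicalSpace G] [IsTopologicalGroup G]
  [LocallyCompactSpace G] [T2Space G] [MeasurableSpace G] [BorelSpace G] (D : SeqData G)
  (N : ℕ) (ε : ℝ), 0 < ε → ∃ S ∈ VN (regRep G), S.IsPositive ∧ ‖S‖ < 1 ∧
    (∀ j < N, 1 - ε ≤ (inner ℂ (D.v j) (S (D.v j))).re) ∧
    Tendsto (fun m => S (D.v m)) atTop (𝓝 0)

end Nondiscrete

/-! ## Discrete groups -/

/-- A bounded positive operator `a x = ∑ q(s) λ(s) x` of norm one whose coefficients are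
non-negative and positive exactly on the infinite subgroup `Γ`. -/
structure PFData (G : Type u) [Group G] where
  Γ : Subgroup G
  inf : (Γ : Set G).Infinite
  q : G → ℝ
  nonneg : ∀ s, 0 ≤ q s
  supp : ∀ s, 0 < q s ↔ s ∈ Γ
  summ : Summable q
  a : HD G →L[ℂ] HD G
  a_apply : ∀ (x : HD G) (y : G), (a x : G → ℂ) y = ∑' s, (q s : ℂ) * (x : G → ℂ) (s⁻¹ * y)
  pos : a.IsPositive
  norm : ‖a‖ = 1
  vn : a ∈ VN (dRep G)

/-- PFA -/
def PFA_stm : Prop := ∀ (G : Type u) [Group G] [Infinite G], Nonempty (PFData G)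

/-- PFB: no eigenvector at the top of the spectrum (Perron-Frobenius) -/
def PFB_stm : Prop := ∀ (G : Type u) [Group G] (D : PFData G) (x : HD G), D.a x = x → x = 0

/-- DSEQ -/
def DSEQ_stm : Prop := ∀ (G : Type u) [Group G] (a : HD G →L[ℂ] HD G), a.IsPositive → ‖a‖ = 1 →
  ∃ v : ℕ → HD G, (∀ m, ‖v m‖ = 1) ∧ Tendsto (fun m => a (v m) - v m) atTop (𝓝 0) ∧
    ∀ s : G, ∃ c : ℂ, Tendsto (fun m => inner ℂ (v m) (dlam s (v m))) atTop (𝓝 c)

/-- DPROD -/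
def DPROD_stm : Prop := ∀ (G : Type u) [Group G] (A : Type v) [NonUnitalNormedRing A]
  [NormedSpace ℂ A] (C : CoefAlg (dRep G) A) (b : ℕ → A) (c : ℝ), (∀ i, ‖b i‖ ≤ c) →
  (∀ s, Tendsto (fun i => C.val (b i) s) atTop (𝓝 0)) →
  ∀ a : A, Tendsto (fun i => a * b i) atTop (𝓝 0)

end N305.FA
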