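import Pool.Agent.N305.FA.Stm

set_option autoImplicit false

/-!
# Part TPOW of project FA (helper749)
-/

namespace N305.FA

open Filter Topology

universe w

section

variable {H : Type w} [NormedAddCommGroup H] [InnerProductSpace ℂ H] [CompleteSpace H]

/-- powers of a positive contraction without fixed vectors tend to zero strongly -/
theorem pow_tendsto_zero (a : H →L[ℂ] H) (ha : a.IsPositive) (hn : ‖a‖ ≤ 1)
    (hfix : ∀ x, a x = x → x = 0) (x : H) :
    Tendsto (fun k : ℕ => (a ^ k) x) atTop (𝓝 0) := by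
  have ha0 : (0 : H →L[ℂ] H) ≤ a := (ContinuousLinearMap.nonneg_iff_isPositive _).2 ha
  have ha1 : a ≤ 1 := (CStarAlgebra.norm_le_one_iff_of_nonneg a ha0).1 hn
  have hanti := CStarAlgebra.pow_antitone ha0 ha1
  have hpos : ∀ k : ℕ, (0 : H →L[ℂ] H) ≤ a ^ k := fun k => CStarAlgebra.pow_nonneg ha0 k
  have hsym : ∀ (k : ℕ) (y z : H), inner ℂ ((a ^ k) y) z = inner ℂ y ((a ^ k) z) := by
    intro k y z
    exact ((ContinuousLinearMap.nonneg_iff_isPositive _).1 (hpos k)).isSymmetric y z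
  set c : ℕ → ℝ := fun k => (inner ℂ x ((a ^ k) x) : ℂ).re with hc
  have hcanti : Antitone c := by
    intro k l hkl
    have h1 : ((a ^ k) - (a ^ l)).IsPositive :=
      (ContinuousLinearMap.nonneg_iff_isPositive _).1 (sub_nonneg.2 (hanti hkl))
    have h2 := h1.re_inner_nonneg_right x
    have h3 : inner ℂ x (((a ^ k) - (a ^ l)) x) = inner ℂ x ((a ^ k) x) - inner ℂ x ((a ^ l) x) := by
      rw [sub_apply, inner_sub_right]
    rw [h3] at h2
    simp only [hc]
    have h4 : RCLike.re (inner ℂ x ((a ^ k) x) - inner ℂ x ((a ^ l) x))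
      = (inner ℂ x ((a ^ k) x) : ℂ).re - (inner ℂ x ((a ^ l) x) : ℂ).re := rfl
    rw [h4] at h2
    linarith
  have hc0 : ∀ k, 0 ≤ c k := fun k =>
    ((ContinuousLinearMap.nonneg_iff_isPositive _).1 (hpos k)).re_inner_nonneg_right x
  obtain ⟨L, hL⟩ : ∃ L, Tendsto c atTop (𝓝 L) :=
    ⟨_, tendsto_atTop_ciInf hcanti ⟨0, by rintro _ ⟨k, rfl⟩; exact hc0 k⟩⟩
  have hLle : ∀ k, L ≤ c k := fun k => hcanti.le_of_tendsto hL k
  have hinner : ∀ k l : ℕ, (inner ℂ ((a ^ k) x) ((a ^ l) x) : ℂ).re = c (k + l) := by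
    intro k l
    rw [hsym, hc]
    simp only
    rw [pow_add]
    rfl
  have hdist : ∀ k l : ℕ, ‖(a ^ k) x - (a ^ l) x‖ ^ 2 = c (k + k) - 2 * c (k + l) + c (l + l) := by
    intro k l
    have h1 : ‖(a ^ k) x - (a ^ l) x‖ ^ 2
        = (inner ℂ ((a ^ k) x - (a ^ l) x) ((a ^ k) x - (a ^ l) x) : ℂ).re := by
      rw [← inner_self_eq_norm_sq (𝕜 := ℂ)]
      rfl
    rw [h1, inner_sub_left, inner_sub_right, inner_sub_right, Complex.sub_re, Complex.sub_re,
      Complex.sub_re, hinner, hinner, hinner, hinner, add_comm l k]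
    ring
  have hb : Tendsto (fun N : ℕ => Real.sqrt (2 * (c (N + N) - L))) atTop (𝓝 0) := by
    have h1 : Tendsto (fun N : ℕ => N + N) atTop atTop :=
      tendsto_atTop_mono (fun N => Nat.le_add_left N N) tendsto_id
    have h2 := ((hL.comp h1).sub_const L).const_mul 2
    have h3 := (Real.continuous_sqrt.tendsto (2 * (L - L))).comp h2
    rw [sub_self, mul_zero, Real.sqrt_zero] at h3
    exact h3
  have hcau : CauchySeq (fun k : ℕ => (a ^ k) x) := by
    refine cauchySeq_of_le_tendsto_0 (fun N : ℕ => Real.sqrt (2 * (c (N + N) - L))) ?_ hb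
    intro k l N hk hl
    rw [dist_eq_norm]
    refine Real.le_sqrt_of_sq_le ?_
    rw [hdist]
    have h1 : c (k + k) ≤ c (N + N) := hcanti (by omega)
    have h2 : c (l + l) ≤ c (N + N) := hcanti (by omega)
    have h3 := hLle (k + l)
    linarith
  obtain ⟨y, hy⟩ := cauchySeq_tendsto_of_complete hcau
  have h1 : Tendsto (fun k : ℕ => a ((a ^ k) x)) atTop (𝓝 (a y)) :=
    (a.continuous.tendsto y).comp hy
  have h2 : Tendsto (fun k : ℕ => a ((a ^ k) x)) atTop (𝓝 y) := by
    have h3 := hy.comp (tendsto_add_atTop_nat 1)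
    refine h3.congr fun k => ?_
    show (a ^ (k + 1)) x = _
    rw [pow_succ']
    rfl
  have h4 := hfix y (tendsto_nhds_unique h1 h2)
  rwa [h4] at hy

end

theorem tpow : TPOW_stm.{w} := by
  intro H _ _ _ a v ha hn hfix hv hlim
  have ha0 : (0 : H →L[ℂ] H) ≤ a := (ContinuousLinearMap.nonneg_iff_isPositive _).2 ha
  have ha1 : a ≤ 1 := (CStarAlgebra.norm_le_one_iff_of_nonneg a ha0).1 hn
  have hanti := CStarAlgebra.pow_antitone ha0 ha1
  have hpos : ∀ k : ℕ, (0 : H →L[ℂ] H) ≤ a ^ k := fun k => CStarAlgebra.pow_nonneg ha0 k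
  have hcomp : ∀ k : ℕ, Tendsto (fun m => v m - (a ^ k) (v m)) atTop (𝓝 0) := by
    intro k
    induction k with
    | zero =>
      have : (fun m => v m - (a ^ 0) (v m)) = fun _ => 0 := by
        funext m
        simp
      rw [this]
      exact tendsto_const_nhds
    | succ k ih =>
      have h1 := (a.continuous.tendsto 0).comp ih
      rw [map_zero] at h1
      have h2 := h1.sub hlim
      rw [sub_zero] at h2
      refine h2.congr fun m => ?_
      show a (v m - (a ^ k) (v m)) - (a (v m) - v m) = v m - (a ^ (k + 1)) (v m)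
      rw [map_sub, pow_succ']
      show a (v m) - a ((a ^ k) (v m)) - (a (v m) - v m) = v m - a ((a ^ k) (v m))
      abel
  have hval : ∀ (k : ℕ) (m : ℕ), (inner ℂ (v m) ((1 - a ^ k) (v m)) : ℂ).re
      = 1 - (inner ℂ (v m) ((a ^ k) (v m)) : ℂ).re := by
    intro k m
    have h1 : ((1 : H →L[ℂ] H) - a ^ k) (v m) = v m - (a ^ k) (v m) := rfl
    rw [h1, inner_sub_right, Complex.sub_re]
    congr 1
    have h2 : (inner ℂ (v m) (v m) : ℂ).re = ‖v m‖ ^ 2 := by
      rw [← inner_self_eq_norm_sq (𝕜 := ℂ)]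
      rfl
    rw [h2, hv m]
    norm_num
  refine ⟨fun k => ?_, fun k => ?_, fun k => ?_, fun k => ?_, fun m => ?_⟩
  · rw [← ContinuousLinearMap.nonneg_iff_isPositive]
    have := hanti (Nat.zero_le k)
    simp only [pow_zero] at this
    exact sub_nonneg.2 this
  · rw [← ContinuousLinearMap.nonneg_iff_isPositive, sub_sub_cancel]
    exact hpos k
  · rw [← ContinuousLinearMap.nonneg_iff_isPositive]
    have e : (1 - a ^ (k + 1)) - (1 - a ^ k) = a ^ k - a ^ (k + 1) := by abel
    show (0 : H →L[ℂ] H) ≤ (1 - a ^ (k + 1)) - (1 - a ^ k)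
    rw [e]
    exact sub_nonneg.2 (hanti (Nat.le_succ k))
  · refine squeeze_zero_norm (a := fun m => ‖v m - (a ^ k) (v m)‖) (fun m => ?_) ?_
    · have h1 : ‖(inner ℂ (v m) ((1 - a ^ k) (v m)) : ℂ)‖ ≤ ‖v m‖ * ‖(1 - a ^ k) (v m)‖ :=
        norm_inner_le_norm _ _
      rw [hv m, one_mul] at h1
      exact (Complex.abs_re_le_norm _).trans h1
    · have := (hcomp k).norm
      rwa [norm_zero] at this
  · have h1 := pow_tendsto_zero a ha hn hfix (v m)
    have h2 : Tendsto (fun k : ℕ => 1 - (inner ℂ (v m) ((a ^ k) (v m)) : ℂ).re) atTop (𝓝 1) := by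
      have h3 : Tendsto (fun k : ℕ => (inner ℂ (v m) ((a ^ k) (v m)) : ℂ)) atTop
          (𝓝 (inner ℂ (v m) (0 : H))) :=
        ((continuous_const.inner continuous_id).tendsto (0 : H)).comp h1
      rw [inner_zero_right] at h3
      have h4 := ((Complex.continuous_re.tendsto 0).comp h3).const_sub 1
      simpa using h4
    refine h2.congr fun k => ?_
    exact (hval k m).symm

end N305.FA
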