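import Pool.Agent.N305.FA.Stm

set_option autoImplicit false
set_option linter.unusedSectionVars false

/-!
# Project FA, part VNALG (helper216): the von Neumann algebra of a unitary representation is a norm
closed *-algebra
-/

namespace N305.FA

open MeasureTheory Filter Topology H434R3.Arens ComplexConjugate

universe u v w

section

variable {G : Type u} [Group G] {H : Type w} [NormedAddCommGroup H] [InnerProductSpace ℂ H]

lemma lam_mul_apply (L : URep G H) (s t : G) (ξ : H) : L.lam (s * t) ξ = L.lam s (L.lam t ξ) := by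
  rw [L.mul]
  rfl

lemma lam_inv_lam (L : URep G H) (s : G) (ξ : H) : L.lam s⁻¹ (L.lam s ξ) = ξ := by
  rw [← lam_mul_apply, inv_mul_cancel, L.one]
  rfl

lemma lam_lam_inv (L : URep G H) (s : G) (ξ : H) : L.lam s (L.lam s⁻¹ ξ) = ξ := by
  rw [← lam_mul_apply, mul_inv_cancel, L.one]
  rfl

lemma inner_lam_right (L : URep G H) (s : G) (ξ η : H) :
    inner ℂ η (L.lam s ξ) = inner ℂ (L.lam s⁻¹ η) ξ := by
  rw [← L.inner_lam s⁻¹ η (L.lam s ξ), lam_inv_lam]

end

theorem vnalg : VNALG_stm.{u, w} := by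
  intro G _ H _ _ _ L
  refine ⟨fun s => (mem_VN L _).2 fun n ξ η h => h s, fun S T hS hT => ?_, fun T hT => ?_, ?_⟩
  · rw [mem_VN] at hS hT ⊢
    intro n ξ η h
    change ∑ i, inner ℂ (η i) (S (T (ξ i))) = 0
    refine hS n (fun i => T (ξ i)) η fun t => ?_
    have h1 : ∀ i, inner ℂ (η i) (L.lam t (T (ξ i))) = inner ℂ (L.lam t⁻¹ (η i)) (T (ξ i)) :=
      fun i => inner_lam_right L t _ _
    simp only [h1]
    refine hT n ξ (fun i => L.lam t⁻¹ (η i)) fun s => ?_
    rw [← h (t * s)]
    refine Finset.sum_congr rfl fun i _ => ?_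
    rw [lam_mul_apply, inner_lam_right L t]
  · rw [mem_VN] at hT ⊢
    intro n ξ η h
    have h1 : ∀ i, inner ℂ (η i) ((star T) (ξ i)) = conj (inner ℂ (ξ i) (T (η i))) := by
      intro i
      rw [ContinuousLinearMap.star_eq_adjoint, ContinuousLinearMap.adjoint_inner_right,
        inner_conj_symm]
    simp only [h1]
    rw [← map_sum, hT n η ξ, map_zero]
    intro s
    have h2 : ∀ i, inner ℂ (ξ i) (L.lam s (η i)) = conj (inner ℂ (η i) (L.lam s⁻¹ (ξ i))) := by
      intro i
      rw [inner_conj_symm, inner_lam_right]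
    simp only [h2]
    rw [← map_sum, h s⁻¹, map_zero]
  · have h1 : (VN L : Set (H →L[ℂ] H)) = ⋂ (n : ℕ) (ξ : Fin n → H) (η : Fin n → H)
        (_ : ∀ s, ∑ i, inner ℂ (η i) (L.lam s (ξ i)) = 0),
        {T : H →L[ℂ] H | ∑ i, inner ℂ (η i) (T (ξ i)) = 0} := by
      ext T
      simp only [SetLike.mem_coe, mem_VN, Set.mem_iInter, Set.mem_ofPred_eq]
    rw [h1]
    refine isClosed_iInter fun n => isClosed_iInter fun ξ => isClosed_iInter fun η =>
      isClosed_iInter fun _ => isClosed_eq ?_ continuous_const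
    refine continuous_finsetSum _ fun i _ => ?_
    exact continuous_const.inner (ContinuousLinearMap.apply ℂ H (ξ i)).continuous

end N305.FA
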