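import Pool.Agent.N305.FA.Stm

/-! Project FA, part WCONT: continuity of `x ↦ wvec f g x`. -/

set_option autoImplicit false
set_option linter.unusedSectionVars false

namespace N305.FA

open MeasureTheory Filter Topology Pointwise

universe u

namespace WCont

variable {G : Type u} [Group G] [TopologicalSpace G] [IsTopologicalGroup G]
  [LocallyCompactSpace G] [T2Space G] [MeasurableSpace G] [BorelSpace G]

lemma coeFn_cvec (f : G → ℝ) (hf : Continuous f) (hs : HasCompactSupport f) :
    cvec f hf hs =ᵐ[Measure.haar] fun x => (f x : ℂ) :=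
  (memC f hf hs).coeFn_toLp

lemma coeFn_wvec (f g : G → ℝ) (hf : Continuous f) (hg : Continuous g)
    (hgs : HasCompactSupport g) (x : G) :
    wvec f g hf hg hgs x =ᵐ[Measure.haar] fun y => ((f (y * x) * g y : ℝ) : ℂ) :=
  coeFn_cvec _ _ _

lemma norm_sub_le (f g : G → ℝ) (hf : Continuous f) (hg : Continuous g)
    (hgs : HasCompactSupport g) (x x' : G) (δ : ℝ)
    (h : ∀ y ∈ tsupport g, |f (y * x') - f (y * x)| ≤ δ) :
    ‖wvec f g hf hg hgs x' - wvec f g hf hg hgs x‖ ≤ δ * ‖cvec g hg hgs‖ := by
  apply Lp.norm_le_mul_norm_of_ae_le_mul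
  filter_upwards [coeFn_wvec f g hf hg hgs x, coeFn_wvec f g hf hg hgs x', coeFn_cvec g hg hgs,
    Lp.coeFn_sub (wvec f g hf hg hgs x') (wvec f g hf hg hgs x)] with y h1 h2 h3 h4
  rw [h4, Pi.sub_apply, h1, h2, h3, ← Complex.ofReal_sub, Complex.norm_real, Complex.norm_real,
    ← sub_mul, norm_mul]
  by_cases hy : y ∈ tsupport g
  · exact mul_le_mul_of_nonneg_right (h y hy) (norm_nonneg _)
  · rw [image_eq_zero_of_notMem_tsupport hy, norm_zero, mul_zero, mul_zero]

end WCont

theorem wcontT : WCONT_stm.{u} := by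
  intro G _ _ _ _ _ _ _ f g hf hg hfs hgs
  constructor
  · rw [continuous_iff_continuousAt]
    intro x
    rw [ContinuousAt, Metric.tendsto_nhds]
    intro ε hε
    set C := ‖cvec g hg hgs‖ with hC
    have hC0 : 0 ≤ C := norm_nonneg _
    set δ := ε / (C + 1) with hδ
    have hδ0 : 0 < δ := by positivity
    have key : ∀ᶠ x' in 𝓝 x, ∀ y ∈ tsupport g, |f (y * x') - f (y * x)| < δ := by
      refine IsCompact.eventually_forall_of_forall_eventually hgs ?_
      intro y _
      have hcont : Continuous (fun z : G × G => |f (z.2 * z.1) - f (z.2 * x)|) := by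
        refine ((hf.comp (continuous_snd.mul continuous_fst)).sub
          (hf.comp (continuous_snd.mul continuous_const))).abs
      have h1 : Tendsto (fun z : G × G => |f (z.2 * z.1) - f (z.2 * x)|) (𝓝 (x, y)) (𝓝 0) :=
        hcont.tendsto' _ _ (by simp)
      exact h1.eventually (gt_mem_nhds hδ0)
    filter_upwards [key] with x' hx'
    rw [dist_eq_norm]
    refine lt_of_le_of_lt (WCont.norm_sub_le f g hf hg hgs x x' δ fun y hy => (hx' y hy).le) ?_
    rw [← hC, hδ, div_mul_eq_mul_div, div_lt_iff₀ (by linarith)]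
    nlinarith
  · have hK : IsCompact ((tsupport g)⁻¹ * tsupport f) := by
      have h1 : IsCompact (tsupport g) := hgs
      have h2 : IsCompact (tsupport f) := hfs
      exact h1.inv.mul h2
    refine HasCompactSupport.intro hK ?_
    intro x hx
    apply Lp.ext
    filter_upwards [WCont.coeFn_wvec f g hf hg hgs x, Lp.coeFn_zero ℂ 2 (Measure.haar : Measure G)]
      with y h1 h2
    rw [h1, h2]
    by_cases hy : y ∈ tsupport g
    · have h3 : y * x ∉ tsupport f := by
        intro h4
        apply hx
        rw [Set.mem_mul]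
        exact ⟨y⁻¹, Set.inv_mem_inv.2 hy, y * x, h4, by group⟩
      rw [image_eq_zero_of_notMem_tsupport h3]
      simp
    · rw [image_eq_zero_of_notMem_tsupport hy]
      simp

end N305.FA
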